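import Mathlib

set_option autoImplicit false
set_option linter.unusedVariables false

/-! # Elementary bounds for `k / φ(k)` -/

namespace Pool.Agent.N837.LP

open Finset

theorem prod_two (N : ℕ) : ∏ n ∈ Ioc 1 (N + 1), ((n : ℝ) ^ 2 / ((n : ℝ) ^ 2 - 1)) =
    2 * ((N : ℝ) + 1) / ((N : ℝ) + 2) := by
  induction N with
  | zero => simp
  | succ N ih =>
    rw [Finset.prod_Ioc_succ_top (by omega), ih]
    have h1 : ((N : ℝ) + 1 + 1) ^ 2 - 1 = (N + 1) * (N + 3) := by ring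
    push_cast
    rw [h1]
    have h2 : (0:ℝ) < N + 1 := by positivity
    have h3 : (0:ℝ) < N + 2 := by positivity
    have h4 : (0:ℝ) < N + 3 := by positivity
    have h5 : (N : ℝ) + 1 + 2 = N + 3 := by ring
    have h6 : (N : ℝ) + 1 + 1 = N + 2 := by ring
    rw [h5, h6]
    field_simp

theorem prod_le_two (S : Finset ℕ) (hS : ∀ p ∈ S, 2 ≤ p) :
    ∏ p ∈ S, ((p : ℝ) ^ 2 / ((p : ℝ) ^ 2 - 1)) ≤ 2 := by
  obtain ⟨N, hN⟩ : ∃ N : ℕ, S ⊆ Ioc 1 (N + 1) := by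
    refine ⟨S.sup id, fun p hp => ?_⟩
    rw [mem_Ioc]
    have h1 := hS p hp
    have h2 : p ≤ S.sup id := Finset.le_sup (f := id) hp
    omega
  have h1 : ∏ p ∈ S, ((p : ℝ) ^ 2 / ((p : ℝ) ^ 2 - 1)) ≤
      ∏ p ∈ Ioc 1 (N + 1), ((p : ℝ) ^ 2 / ((p : ℝ) ^ 2 - 1)) := by
    rw [← Finset.prod_sdiff hN]
    have e0 : 0 ≤ ∏ p ∈ S, ((p : ℝ) ^ 2 / ((p : ℝ) ^ 2 - 1)) := by
      apply Finset.prod_nonneg
      intro p hp
      have h2 : (2:ℝ) ≤ p := by exact_mod_cast hS p hp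
      have : 0 < (p : ℝ) ^ 2 - 1 := by nlinarith
      positivity
    have e1 : 1 ≤ ∏ p ∈ Ioc 1 (N + 1) \ S, ((p : ℝ) ^ 2 / ((p : ℝ) ^ 2 - 1)) := by
      have e2 : ∏ _p ∈ Ioc 1 (N + 1) \ S, (1:ℝ) ≤
          ∏ p ∈ Ioc 1 (N + 1) \ S, ((p : ℝ) ^ 2 / ((p : ℝ) ^ 2 - 1)) := by
        apply Finset.prod_le_prod
        · intro p _
          norm_num
        · intro p hp
          have h2 : (2:ℝ) ≤ p := by exact_mod_cast (mem_Ioc.1 (mem_sdiff.1 hp).1).1
          have : 0 < (p : ℝ) ^ 2 - 1 := by nlinarith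
          rw [le_div_iff₀ this]
          linarith
      rw [Finset.prod_const_one] at e2
      exact e2
    exact le_mul_of_one_le_left e0 e1
  refine h1.trans ?_
  rw [prod_two, div_le_iff₀ (by positivity)]
  linarith

theorem div_totient_le (k : ℕ) (hk : 0 < k) :
    (k : ℝ) / k.totient ≤ 2 * ∑ m ∈ k.divisors, (1 / (m : ℝ)) := by
  have hkr : (0:ℝ) < k := by exact_mod_cast hk
  have h1 : (k.totient : ℝ) = k * ∏ p ∈ k.primeFactors, (1 - (p : ℝ)⁻¹) := by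
    have := Nat.totient_eq_mul_prod_factors k
    have h2 : ((k.totient : ℚ) : ℝ) = ((k * ∏ p ∈ k.primeFactors, (1 - (p : ℚ)⁻¹) : ℚ) : ℝ) := by
      rw [this]
    push_cast at h2
    exact h2
  have hpos : ∀ p ∈ k.primeFactors, (2:ℝ) ≤ p := fun p hp => by
    exact_mod_cast (Nat.prime_of_mem_primeFactors hp).two_le
  have h2 : (k : ℝ) / k.totient = ∏ p ∈ k.primeFactors, ((1 + 1 / (p : ℝ)) *
      ((p : ℝ) ^ 2 / ((p : ℝ) ^ 2 - 1))) := by
    rw [h1, ← div_div, div_self hkr.ne', one_div, ← Finset.prod_inv_distrib]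
    apply Finset.prod_congr rfl
    intro p hp
    have h3 := hpos p hp
    have h4 : (p : ℝ) - 1 ≠ 0 := by linarith
    have h5 : (p : ℝ) + 1 ≠ 0 := by linarith
    have h6 : (p : ℝ) ≠ 0 := by linarith
    have h7 : (p : ℝ) ^ 2 - 1 = (p - 1) * (p + 1) := by ring
    rw [h7]
    field_simp
  have h3 : ∏ p ∈ k.primeFactors, (1 + 1 / (p : ℝ)) ≤ ∑ m ∈ k.divisors, (1 / (m : ℝ)) := by
    rw [Finset.prod_one_add]
    have e1 : ∑ S ∈ k.primeFactors.powerset, ∏ p ∈ S, (1 / (p : ℝ)) =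
        ∑ m ∈ k.primeFactors.powerset.image (fun S => ∏ p ∈ S, p), (1 / (m : ℝ)) := by
      rw [Finset.sum_image]
      · apply Finset.sum_congr rfl
        intro S _
        push_cast
        rw [Finset.prod_div_distrib, Finset.prod_const_one]
      · intro S hS S' hS' h
        have h' : ∏ p ∈ S, p = ∏ p ∈ S', p := h
        rw [Finset.mem_coe, mem_powerset] at hS hS'
        have g1 := Nat.primeFactors_prod (s := S) fun p hp => Nat.prime_of_mem_primeFactors (hS hp)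
        have g2 := Nat.primeFactors_prod (s := S') fun p hp => Nat.prime_of_mem_primeFactors (hS' hp)
        rw [← g1, ← g2, h']
    rw [e1]
    apply Finset.sum_le_sum_of_subset_of_nonneg
    · intro m hm
      rw [Finset.mem_image] at hm
      obtain ⟨S, hS, rfl⟩ := hm
      rw [Nat.mem_divisors]
      refine ⟨dvd_trans (Finset.prod_dvd_prod_of_subset _ _ _ (mem_powerset.1 hS))
        (Nat.prod_primeFactors_dvd k), hk.ne'⟩
    · intro m _ _
      positivity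
  have h4 := prod_le_two k.primeFactors fun p hp => (Nat.prime_of_mem_primeFactors hp).two_le
  rw [h2, Finset.prod_mul_distrib]
  have h5 : 0 ≤ ∑ m ∈ k.divisors, (1 / (m : ℝ)) := Finset.sum_nonneg fun m _ => by positivity
  have h6 : 0 ≤ ∏ p ∈ k.primeFactors, ((p : ℝ) ^ 2 / ((p : ℝ) ^ 2 - 1)) := by
    apply Finset.prod_nonneg
    intro p hp
    have h3 := hpos p hp
    have : 0 < (p : ℝ) ^ 2 - 1 := by nlinarith
    positivity
  calc _ ≤ (∑ m ∈ k.divisors, (1 / (m : ℝ))) *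
        ∏ p ∈ k.primeFactors, ((p : ℝ) ^ 2 / ((p : ℝ) ^ 2 - 1)) := mul_le_mul_of_nonneg_right h3 h6
    _ ≤ (∑ m ∈ k.divisors, (1 / (m : ℝ))) * 2 := mul_le_mul_of_nonneg_left h4 h5
    _ = _ := by ring

theorem div_totient_le_log (k : ℕ) (hk : 0 < k) :
    (k : ℝ) / k.totient ≤ 2 * (1 + Real.log k) := by
  refine (div_totient_le k hk).trans ?_
  apply mul_le_mul_of_nonneg_left _ (by norm_num)
  have h1 : ∑ m ∈ k.divisors, (1 / (m : ℝ)) ≤ ∑ m ∈ Icc 1 k, (1 / (m : ℝ)) := by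
    apply Finset.sum_le_sum_of_subset_of_nonneg
    · intro m hm
      rw [mem_Icc]
      exact ⟨Nat.pos_of_mem_divisors hm, Nat.divisor_le hm⟩
    · intro m _ _
      positivity
  have h2 := harmonic_le_one_add_log k
  have h3 : ((harmonic k : ℚ) : ℝ) = ∑ m ∈ Icc 1 k, (1 / (m : ℝ)) := by
    rw [harmonic_eq_sum_Icc]
    push_cast
    apply Finset.sum_congr rfl
    intro m _
    rw [one_div]
  rw [← h3] at h1
  exact h1.trans h2

theorem sum_inv_sq (J : ℕ) : ∑ m ∈ Icc 1 J, (1 / (m : ℝ) ^ 2) ≤ 2 := by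
  have h : ∀ J : ℕ, ∑ m ∈ Icc 1 (J + 1), (1 / (m : ℝ) ^ 2) ≤
      2 - 1 / ((J : ℝ) + 1) := by
    intro J
    induction J with
    | zero => norm_num
    | succ J ih =>
      rw [Finset.sum_Icc_succ_top (by omega)]
      push_cast
      have h1 : (1:ℝ) / ((J : ℝ) + 1 + 1) ^ 2 ≤ 1 / (J + 1) - 1 / (J + 1 + 1) := by
        rw [div_sub_div _ _ (by positivity) (by positivity), div_le_div_iff₀ (by positivity)
          (by positivity)]
        nlinarith [sq_nonneg (J : ℝ)]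
      linarith
  rcases Nat.eq_zero_or_pos J with h0 | h0
  · subst h0
    simp
  · obtain ⟨K, rfl⟩ : ∃ K, J = K + 1 := ⟨J - 1, by omega⟩
    refine (h K).trans ?_
    have : (0:ℝ) ≤ 1 / ((K : ℝ) + 1) := by positivity
    linarith

/-- the sum of `k / φ(k)` over `k ≤ J` is at most `4 J` -/
theorem sum_div_totient (J : ℕ) : ∑ k ∈ Icc 1 J, ((k : ℝ) / k.totient) ≤ 4 * J := by
  have h1 : ∑ k ∈ Icc 1 J, ((k : ℝ) / k.totient) ≤
      ∑ k ∈ Icc 1 J, 2 * ∑ m ∈ k.divisors, (1 / (m : ℝ)) :=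
    Finset.sum_le_sum fun k hk => div_totient_le k (mem_Icc.1 hk).1
  have h2 : ∑ k ∈ Icc 1 J, ∑ m ∈ k.divisors, (1 / (m : ℝ)) =
      ∑ m ∈ Icc 1 J, ∑ k ∈ (Icc 1 J).filter (fun k => m ∣ k), (1 / (m : ℝ)) := by
    apply Finset.sum_comm'
    intro k m
    simp only [mem_Icc, Nat.mem_divisors, mem_filter]
    constructor
    · rintro ⟨⟨h1, h2⟩, h3, h4⟩
      exact ⟨⟨⟨h1, h2⟩, h3⟩, Nat.pos_of_dvd_of_pos h3 h1, (Nat.le_of_dvd h1 h3).trans h2⟩
    · rintro ⟨⟨⟨h1, h2⟩, h3⟩, _⟩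
      exact ⟨⟨h1, h2⟩, h3, by omega⟩
  have h3 : ∀ m ∈ Icc 1 J, ∑ k ∈ (Icc 1 J).filter (fun k => m ∣ k), (1 / (m : ℝ)) ≤
      J * (1 / (m : ℝ) ^ 2) := by
    intro m hm
    have hm0 : (0:ℝ) < m := by exact_mod_cast (mem_Icc.1 hm).1
    rw [Finset.sum_const, nsmul_eq_mul]
    have e1 : ((Icc 1 J).filter (fun k => m ∣ k)).card = J / m := by
      have := Nat.Ioc_filter_dvd_card_eq_div J m
      rw [← this]
      congr 1
    rw [e1]
    have e2 : ((J / m : ℕ) : ℝ) ≤ J / m := Nat.cast_div_le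
    calc ((J / m : ℕ) : ℝ) * (1 / (m : ℝ)) ≤ (J / m) * (1 / (m : ℝ)) :=
          mul_le_mul_of_nonneg_right e2 (by positivity)
      _ = J * (1 / (m : ℝ) ^ 2) := by field_simp
  refine h1.trans ?_
  rw [← Finset.mul_sum, h2]
  have h4 := Finset.sum_le_sum h3
  rw [← Finset.mul_sum] at h4
  have h5 : (J : ℝ) * ∑ m ∈ Icc 1 J, (1 / (m : ℝ) ^ 2) ≤ J * 2 :=
    mul_le_mul_of_nonneg_left (sum_inv_sq J) (Nat.cast_nonneg _)
  linarith

end Pool.Agent.N837.LP
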