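import Pool.Agent.N837.LP.FinA
import Pool.Agent.N837.LP.Tot

set_option autoImplicit false
set_option linter.unusedVariables false

/-! # The upper tail of the distribution of the least primes, every modulus -/

namespace Pool.Agent.N837.LP

open Finset Filter

open scoped Classical

theorem ev_pow (κ δ C : ℝ) (hκ : 0 < κ) (hδ : δ < 1) (hC : 0 < C) : ∃ X₀ : ℝ, 1 ≤ X₀ ∧
    ∀ X : ℝ, X₀ ≤ X → C * (X ^ δ + 1) * (1 + Real.log X) ≤ κ * X := by
  have h1 : ∀ᶠ X : ℝ in atTop, 4 * C / κ ≤ X ^ ((1 - δ) / 2) :=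
    (tendsto_rpow_atTop (by linarith)).eventually_ge_atTop _
  have h3 := (isLittleO_log_rpow_atTop (show (0:ℝ) < (1 - max δ 0) / 2 by
    have : max δ 0 < 1 := max_lt hδ (by norm_num)
    linarith)).def (show (0:ℝ) < 1 by norm_num)
  have h5 : ∀ᶠ X : ℝ in atTop, 4 * C / κ ≤ X ^ ((1 - max δ 0) / 2) :=
    (tendsto_rpow_atTop (by
      have : max δ 0 < 1 := max_lt hδ (by norm_num)
      linarith)).eventually_ge_atTop _
  obtain ⟨X₀, hX₀⟩ := Filter.eventually_atTop.1 (h3.and h5)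
  refine ⟨max X₀ 1, le_max_right _ _, fun X hX => ?_⟩
  obtain ⟨g1, g2⟩ := hX₀ X ((le_max_left _ _).trans hX)
  have hX1 : 1 ≤ X := (le_max_right _ _).trans hX
  have hX0 : 0 < X := by linarith
  set θ := max δ 0 with hθ
  have hθ0 : 0 ≤ θ := le_max_right _ _
  have hθ1 : θ < 1 := max_lt hδ (by norm_num)
  rw [Real.norm_of_nonneg (Real.log_nonneg hX1), Real.norm_of_nonneg (by positivity), one_mul] at g1
  have e1 : X ^ δ + 1 ≤ 2 * X ^ θ := by
    have a1 : X ^ δ ≤ X ^ θ := Real.rpow_le_rpow_of_exponent_le hX1 (le_max_left _ _)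
    have a2 : 1 ≤ X ^ θ := Real.one_le_rpow hX1 hθ0
    linarith
  have e2 : 1 + Real.log X ≤ 2 * X ^ ((1 - θ) / 2) := by
    have a2 : 1 ≤ X ^ ((1 - θ) / 2) := Real.one_le_rpow hX1 (by linarith)
    linarith
  have e3 : X ^ θ * X ^ ((1 - θ) / 2) * X ^ ((1 - θ) / 2) = X := by
    rw [← Real.rpow_add hX0, ← Real.rpow_add hX0]
    have : θ + (1 - θ) / 2 + (1 - θ) / 2 = 1 := by ring
    rw [this, Real.rpow_one]
  have hlog : 0 ≤ Real.log X := Real.log_nonneg hX1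
  have p1 : 0 < X ^ θ := Real.rpow_pos_of_pos hX0 _
  have p2 : 0 < X ^ ((1 - θ) / 2) := Real.rpow_pos_of_pos hX0 _
  rw [div_le_iff₀ hκ] at g2
  calc C * (X ^ δ + 1) * (1 + Real.log X) ≤ C * (2 * X ^ θ) * (2 * X ^ ((1 - θ) / 2)) := by
        apply mul_le_mul _ e2 (by linarith) (by positivity)
        exact mul_le_mul_of_nonneg_left e1 hC.le
    _ = (X ^ θ * X ^ ((1 - θ) / 2)) * (4 * C) := by ring
    _ ≤ (X ^ θ * X ^ ((1 - θ) / 2)) * (X ^ ((1 - θ) / 2) * κ) :=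
        mul_le_mul_of_nonneg_left g2 (by positivity)
    _ = κ * (X ^ θ * X ^ ((1 - θ) / 2) * X ^ ((1 - θ) / 2)) := by ring
    _ = κ * X := by rw [e3]

/-- `φ(D) log D` is at least `D / 4` or so -/
theorem totient_lower (D : ℕ) (hD : 0 < D) :
    (D : ℝ) ≤ D.totient * (2 * (1 + Real.log D)) := by
  have h := div_totient_le_log D hD
  have hφ : (0:ℝ) < D.totient := by exact_mod_cast Nat.totient_pos.2 hD
  rw [div_le_iff₀ hφ] at h
  linarith

/-- every modulus, every window -/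
theorem windowA (C δ : ℝ) (hC : 4 < C) (hδ : 0 < δ) :
    ∃ A₀ : ℝ, ∀ A : ℝ, A₀ ≤ A → ∃ d₀ : ℕ, ∀ d : ℕ, d₀ ≤ d → ∀ M : ℝ,
      (d.totient : ℝ) * Real.exp (-Real.exp (C * A)) ≤
        (({a : ℤ | M < a ∧ (a : ℝ) ≤ M + d ∧ IsCoprime a (d : ℤ) ∧
          ∀ k : ℕ, (k : ℝ) ≤ A * ((d.totient : ℝ) / d) * Real.log d →
            ∃ p : ℕ, p.Prime ∧ (p : ℝ) ≤ (d : ℝ) ^ δ ∧ ¬ p ∣ d ∧
              (p : ℤ) ∣ a + k * d}).ncard : ℝ) := by
  have hC0 : 0 < C := by linarith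
  obtain ⟨T₀, hT₀⟩ := mainA (1 / C) δ (by positivity)
    (one_div_lt_one_div_of_lt (by norm_num) hC) hδ
  refine ⟨T₀, fun A hA => ?_⟩
  have hT : T₀ ≤ Real.exp (C * A) := by
    rcases le_or_gt 0 A with h | h
    · have h1 := Real.add_one_le_exp (C * A)
      nlinarith
    · exact hA.trans (h.le.trans (Real.exp_pos _).le)
  obtain ⟨d₀, hd₀⟩ := hT₀ _ hT
  refine ⟨max d₀ 1, fun d hd M => ?_⟩
  have hd0 : 0 < d := lt_of_lt_of_le one_pos ((le_max_right _ _).trans hd)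
  refine (hd₀ d ((le_max_left _ _).trans hd) M).trans ?_
  have hfin : ({a : ℤ | M < a ∧ (a : ℝ) ≤ M + d ∧ IsCoprime a (d : ℤ) ∧
          ∀ k : ℕ, (k : ℝ) ≤ A * ((d.totient : ℝ) / d) * Real.log d →
            ∃ p : ℕ, p.Prime ∧ (p : ℝ) ≤ (d : ℝ) ^ δ ∧ ¬ p ∣ d ∧
              (p : ℤ) ∣ a + k * d}).Finite := by
    apply (Set.finite_Icc ⌊M⌋ ⌈M + d⌉).subset
    intro a ha
    obtain ⟨h1, h2, _⟩ := ha
    rw [Set.mem_Icc]
    constructor
    · have := Int.floor_le M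
      have h3 : ((⌊M⌋ : ℤ) : ℝ) < a := by linarith
      exact_mod_cast h3.le
    · have := Int.le_ceil (M + d)
      have h3 : (a : ℝ) ≤ ((⌈M + d⌉ : ℤ) : ℝ) := by linarith
      exact_mod_cast h3
  refine Nat.cast_le.2 (Set.ncard_le_ncard ?_ hfin)
  intro a ha
  obtain ⟨h1, h2, h3, h4⟩ := ha
  refine ⟨h1, h2, ?_, ?_⟩
  · rw [Int.isCoprime_iff_gcd_eq_one]
    by_contra hne
    obtain ⟨p, hp, hpd⟩ := Nat.exists_prime_and_dvd hne
    have g1 : (p : ℤ) ∣ a := (Int.natCast_dvd_natCast.2 hpd).trans (Int.gcd_dvd_left _ _)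
    have g2 : (p : ℤ) ∣ (d : ℤ) := (Int.natCast_dvd_natCast.2 hpd).trans (Int.gcd_dvd_right _ _)
    exact h3 p (Nat.mem_primeFactors.2 ⟨hp, by exact_mod_cast g2, hd0.ne'⟩) g1
  · intro k hk
    rw [Real.log_exp] at h4
    have hkN : k < ⌊1 / C * ((d.totient : ℝ) / d) * Real.log d * (C * A)⌋₊ + 1 := by
      have e1 : 1 / C * ((d.totient : ℝ) / d) * Real.log d * (C * A) =
          A * ((d.totient : ℝ) / d) * Real.log d := by
        field_simp
      rw [e1]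
      have := Nat.le_floor hk
      omega
    obtain ⟨p, hp, hpy, hpE, hpd⟩ := h4 k hkN
    exact ⟨p, hp, hpy, fun h => hpE (Nat.mem_primeFactors.2 ⟨hp, h, hd0.ne'⟩), hpd⟩

/-- the classes modulo `d` without a prime up to `A φ(d) log d` -/
theorem tailA (C δ : ℝ) (hC : 4 < C) (hδ : 0 < δ) (hδ1 : δ < 1) :
    ∃ A₀ : ℝ, ∀ A : ℝ, A₀ ≤ A → ∃ d₀ : ℕ, ∀ d : ℕ, d₀ ≤ d →
      (d.totient : ℝ) * Real.exp (-Real.exp (C * A)) ≤
        (({a : ℕ | 1 ≤ a ∧ a ≤ d ∧ a.Coprime d ∧ ∀ n : ℕ, 1 ≤ n → n ≡ a [MOD d] →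
          (n : ℝ) ≤ A * d.totient * Real.log d →
            ∃ p : ℕ, p.Prime ∧ p ∣ n ∧ p < n ∧ (p : ℝ) ≤ (d : ℝ) ^ δ}).ncard : ℝ) := by
  set C' := (C + 4) / 2 with hC'
  have hC'4 : 4 < C' := by linarith
  have hC'C : C' < C := by linarith
  obtain ⟨A₀, hA₀⟩ := windowA C' δ hC'4 hδ
  refine ⟨max A₀ (1 / (C - C')), fun A hA => ?_⟩
  have hA1 : A₀ ≤ A := (le_max_left _ _).trans hA
  have hA2 : 1 ≤ (C - C') * A := by
    have h := (le_max_right _ _).trans hA
    rw [div_le_iff₀ (by linarith)] at h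
    linarith
  have hA0 : 0 < A := by
    have h := (le_max_right _ _).trans hA
    have h2 : 0 < 1 / (C - C') := by
      apply div_pos one_pos
      linarith
    linarith
  obtain ⟨d₀, hd₀⟩ := hA₀ A hA1
  set κ := Real.exp (-Real.exp (C * A)) with hκ
  have hκ0 : 0 < κ := Real.exp_pos _
  obtain ⟨X₀, hX1, hX₀⟩ := ev_pow κ δ 2 hκ0 hδ1 (by norm_num)
  refine ⟨max d₀ (⌈X₀⌉₊ + 1), fun d hd => ?_⟩
  have hdd₀ : d₀ ≤ d := (le_max_left _ _).trans hd
  have hdX : X₀ ≤ d := by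
    have h1 := Nat.le_ceil X₀
    have h2 : ((⌈X₀⌉₊ : ℕ) : ℝ) ≤ d := by
      exact_mod_cast (Nat.le_succ _).trans ((le_max_right _ _).trans hd)
    exact h1.trans h2
  have hd1 : (1:ℝ) ≤ d := hX1.trans hdX
  have hd0 : 0 < d := by
    have : (0:ℝ) < d := by linarith
    exact_mod_cast this
  have hdr : (0:ℝ) < d := by linarith
  set y : ℝ := (d : ℝ) ^ δ with hy
  have hy1 : 1 ≤ y := Real.one_le_rpow hd1 hδ.le
  have hyφ : y + 1 ≤ κ * d.totient := by
    have h1 := hX₀ d hdX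
    have h2 := totient_lower d hd0
    have hl : 0 < 2 * (1 + Real.log d) := by
      have := Real.log_nonneg hd1
      linarith
    have h3 : (y + 1) * (2 * (1 + Real.log d)) ≤ κ * d.totient * (2 * (1 + Real.log d)) := by
      calc (y + 1) * (2 * (1 + Real.log d)) = 2 * (y + 1) * (1 + Real.log d) := by ring
        _ ≤ κ * d := h1
        _ ≤ κ * (d.totient * (2 * (1 + Real.log d))) := mul_le_mul_of_nonneg_left h2 hκ0.le
        _ = _ := by ring
    exact le_of_mul_le_mul_right h3 hl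
  have hmain := hd₀ d hdd₀ y
  set F : Set ℕ := {a : ℕ | 1 ≤ a ∧ a ≤ d ∧ a.Coprime d ∧ ∀ n : ℕ, 1 ≤ n → n ≡ a [MOD d] →
          (n : ℝ) ≤ A * d.totient * Real.log d →
            ∃ p : ℕ, p.Prime ∧ p ∣ n ∧ p < n ∧ (p : ℝ) ≤ y} with hF
  have hFfin : F.Finite := (Set.finite_Icc 1 d).subset fun a ha => ⟨ha.1, ha.2.1⟩
  set W := {a : ℤ | y < a ∧ (a : ℝ) ≤ y + d ∧ IsCoprime a (d : ℤ) ∧
          ∀ k : ℕ, (k : ℝ) ≤ A * ((d.totient : ℝ) / d) * Real.log d →
            ∃ p : ℕ, p.Prime ∧ (p : ℝ) ≤ (d : ℝ) ^ δ ∧ ¬ p ∣ d ∧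
              (p : ℤ) ∣ a + k * d} with hW
  have hsub : W ⊆ ((fun a : ℕ => (a : ℤ)) '' F) ∪ ((Ioc (d : ℤ) (d + ⌊y⌋₊) : Finset ℤ) : Set ℤ) := by
    intro a ha
    obtain ⟨h1, h2, h3, h4⟩ := ha
    by_cases had : a ≤ d
    · left
      have ha0 : 0 < a := by
        have : (0:ℝ) < a := by linarith
        exact_mod_cast this
      obtain ⟨b, rfl⟩ : ∃ b : ℕ, a = b := ⟨a.toNat, (Int.toNat_of_nonneg ha0.le).symm⟩
      refine ⟨b, ?_, rfl⟩
      have hbd : b ≤ d := by exact_mod_cast had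
      have hb0 : 0 < b := by exact_mod_cast ha0
      have hcop : Nat.Coprime b d := by
        rw [Nat.isCoprime_iff_coprime] at h3
        exact h3
      refine ⟨hb0, hbd, hcop, ?_⟩
      intro n hn hnm hnZ
      have hbn : b ≤ n := by
        by_contra hlt
        rw [not_le] at hlt
        have h5 : (d : ℤ) ∣ (b : ℤ) - n := (Nat.modEq_iff_dvd.1 hnm)
        have h6 : (0 : ℤ) < (b : ℤ) - n := by
          have : (n : ℤ) < b := by exact_mod_cast hlt
          linarith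
        have h7 := Int.le_of_dvd h6 h5
        have h8 : (0 : ℤ) < n := by exact_mod_cast hn
        have h9 : (b : ℤ) ≤ d := by exact_mod_cast hbd
        linarith
      obtain ⟨k, hk⟩ : ∃ k : ℕ, n = b + k * d := by
        have h5 : d ∣ n - b := (Nat.modEq_iff_dvd' hbn).1 hnm.symm
        obtain ⟨k, hk⟩ := h5
        refine ⟨k, ?_⟩
        rw [mul_comm k d, ← hk]
        omega
      have hkr : (k : ℝ) ≤ A * ((d.totient : ℝ) / d) * Real.log d := by
        have h5 : (n : ℝ) = b + k * d := by exact_mod_cast hk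
        have h6 : (k : ℝ) * d ≤ A * d.totient * Real.log d := by
          have : (0:ℝ) ≤ b := Nat.cast_nonneg _
          linarith
        have h7 : A * ((d.totient : ℝ) / d) * Real.log d = A * d.totient * Real.log d / d := by
          ring
        rw [h7, le_div_iff₀ hdr]
        exact h6
      obtain ⟨q, hq, hqy, hqd, hqp⟩ := h4 k hkr
      have h5 : q ∣ n := by
        rw [hk]
        exact_mod_cast hqp
      refine ⟨q, hq, h5, ?_, hqy⟩
      have h7 : (b : ℝ) ≤ n := by exact_mod_cast hbn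
      have h8 : y < (b : ℝ) := by exact_mod_cast h1
      have h9 : (q : ℝ) < n := by linarith
      exact_mod_cast h9
    · right
      rw [Finset.mem_coe, mem_Ioc]
      refine ⟨not_le.1 had, ?_⟩
      have h5 : ((a - d : ℤ) : ℝ) ≤ y := by
        push_cast
        linarith
      have h6 : 0 < a - d := by
        have := not_le.1 had
        linarith
      have h7 : (a - d).toNat ≤ ⌊y⌋₊ := by
        apply Nat.le_floor
        have h8 : (((a - d).toNat : ℤ) : ℝ) = ((a - d : ℤ) : ℝ) := by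
          rw [Int.toNat_of_nonneg h6.le]
        have h9 : (((a - d).toNat : ℤ) : ℝ) = ((a - d).toNat : ℝ) := by push_cast; rfl
        rw [← h9, h8]
        exact h5
      have h8 : ((a - d).toNat : ℤ) = a - d := Int.toNat_of_nonneg h6.le
      have h9 : ((a - d).toNat : ℤ) ≤ (⌊y⌋₊ : ℤ) := by exact_mod_cast h7
      linarith
  have hcard : (W.ncard : ℝ) ≤ F.ncard + y := by
    have h1 := Set.ncard_le_ncard hsub ((hFfin.image _).union (Finset.finite_toSet _))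
    have h2 := Set.ncard_union_le ((fun a : ℕ => (a : ℤ)) '' F)
      ((Ioc (d : ℤ) (d + ⌊y⌋₊) : Finset ℤ) : Set ℤ)
    have h3 := Set.ncard_image_le (f := fun a : ℕ => (a : ℤ)) hFfin
    have e2 : (Ioc (d : ℤ) (d + ⌊y⌋₊)).card = ⌊y⌋₊ := by
      rw [Int.card_Ioc]
      simp
    rw [Set.ncard_coe_finset, e2] at h2
    have h5 : ((W.ncard : ℕ) : ℝ) ≤ ((F.ncard + ⌊y⌋₊ : ℕ) : ℝ) := by
      have : W.ncard ≤ F.ncard + ⌊y⌋₊ := by omega
      exact_mod_cast this
    push_cast at h5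
    have h4 := Nat.floor_le (show 0 ≤ y by linarith)
    linarith
  have hexp : 2 * κ ≤ Real.exp (-Real.exp (C' * A)) := by
    have h1 : Real.exp (C' * A) + 1 ≤ Real.exp (C * A) := by
      have e1 : Real.exp (C * A) = Real.exp (C' * A) * Real.exp ((C - C') * A) := by
        rw [← Real.exp_add]; congr 1; ring
      have e2 : 2 ≤ Real.exp ((C - C') * A) := by
        have := Real.add_one_le_exp ((C - C') * A)
        linarith
      have e3 : 1 ≤ Real.exp (C' * A) := Real.one_le_exp (by positivity)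
      rw [e1]
      nlinarith
    have h2 : 2 ≤ Real.exp 1 := by
      have := Real.add_one_le_exp (1:ℝ)
      linarith
    calc 2 * κ ≤ Real.exp 1 * κ := mul_le_mul_of_nonneg_right h2 hκ0.le
      _ = Real.exp (1 + -Real.exp (C * A)) := by rw [hκ, ← Real.exp_add]
      _ ≤ Real.exp (-Real.exp (C' * A)) := by
        apply Real.exp_le_exp.2
        linarith
  have hφ0 : (0:ℝ) ≤ d.totient := Nat.cast_nonneg _
  have h1 := mul_le_mul_of_nonneg_left hexp hφ0
  have h2 : (d.totient : ℝ) * (2 * κ) = 2 * (κ * d.totient) := by ring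
  rw [h2] at h1
  have h3 : (d.totient : ℝ) * κ = κ * d.totient := mul_comm _ _
  rw [h3]
  linarith

end Pool.Agent.N837.LP
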