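import Pool.Agent.N837.LP.FinG
import Pool.Agent.N837.LP.AppA

set_option autoImplicit false
set_option linter.unusedVariables false

/-! # Short windows and several classes at the same time -/

namespace Pool.Agent.N837.LP

open Finset Filter

open scoped Classical

/-- the integers `a` in `(M, M + X]` prime to `d` such that every positive integer up to `Z` in one
of the classes `u * a + h` modulo `d`, `(u, h) ∈ S`, is composite with a prime factor at most `y` -/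
def JB (M X Z y : ℝ) (d : ℕ) (S : Finset (ℕ × ℕ)) : Set ℤ :=
  {a : ℤ | M < a ∧ (a : ℝ) ≤ M + X ∧ IsCoprime a (d : ℤ) ∧
    ∀ z ∈ S, ∀ n : ℕ, 1 ≤ n → (n : ℤ) ≡ z.1 * a + z.2 [ZMOD d] → (n : ℝ) ≤ Z →
      ∃ p : ℕ, p.Prime ∧ p ∣ n ∧ p < n ∧ (p : ℝ) ≤ y}

theorem JB_finite (M X Z y : ℝ) (d : ℕ) (S : Finset (ℕ × ℕ)) : (JB M X Z y d S).Finite := by
  apply (Set.finite_Icc ⌊M⌋ ⌈M + X⌉).subset
  intro a ha
  obtain ⟨h1, h2, _⟩ := ha
  rw [Set.mem_Icc]
  constructor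
  · have := Int.floor_le M
    have h3 : ((⌊M⌋ : ℤ) : ℝ) < a := by linarith
    exact_mod_cast h3.le
  · have := Int.le_ceil (M + X)
    have h3 : (a : ℝ) ≤ ((⌈M + X⌉ : ℤ) : ℝ) := by linarith
    exact_mod_cast h3

theorem JB_shift (M X Z y : ℝ) (d : ℕ) (S : Finset (ℕ × ℕ)) (s : ℤ) :
    (JB M X Z y d S).ncard ≤ (JB (M + s * d) X Z y d S).ncard := by
  have h1 : (JB M X Z y d S).ncard = ((fun a : ℤ => a + s * d) '' JB M X Z y d S).ncard := by
    rw [Set.ncard_image_of_injective]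
    intro a b h
    have : a + s * d = b + s * d := h
    linarith
  rw [h1]
  apply Set.ncard_le_ncard _ (JB_finite _ _ _ _ _ _)
  rintro _ ⟨a, ⟨h2, h3, h4, h5⟩, rfl⟩
  refine ⟨?_, ?_, ?_, ?_⟩
  · push_cast
    linarith
  · push_cast
    linarith
  · have e : a + s * (d : ℤ) = a + d * s := by ring
    change IsCoprime (a + s * (d : ℤ)) (d : ℤ)
    rw [e]
    exact (IsCoprime.add_mul_left_left_iff).2 h4
  · intro z hz n hn hnm hnZ
    apply h5 z hz n hn _ hnZ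
    have e : (z.1 : ℤ) * (a + s * (d : ℤ)) + z.2 = (z.1 * a + z.2) + d * (z.1 * s) := by ring
    have hpm' : (n : ℤ) ≡ (z.1 : ℤ) * (a + s * (d : ℤ)) + z.2 [ZMOD d] := hnm
    rw [e] at hpm'
    refine hpm'.trans ?_
    exact Int.modEq_iff_dvd.2 ⟨-(z.1 * s), by ring⟩

/-- the solutions of a linear congruence modulo `d` in an interval of length `d` -/
theorem card_lin (u d : ℕ) (c M : ℤ) (hu : 0 < u) (hd : 0 < d) :
    ((Ioc M (M + d)).filter (fun a : ℤ => (d : ℤ) ∣ u * a + c)).card ≤ u := by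
  have hdz : (0:ℤ) < d := by exact_mod_cast hd
  have huz : (0:ℤ) < u := by exact_mod_cast hu
  set F : ℤ := (u * M + c) / d with hF
  have h1 : ((Ioc M (M + d)).filter (fun a : ℤ => (d : ℤ) ∣ u * a + c)).card ≤
      (Ioc F (F + u)).card := by
    apply Finset.card_le_card_of_injOn (fun a => (u * a + c) / d)
    · intro a ha
      rw [Finset.mem_coe, mem_filter, mem_Ioc] at ha
      obtain ⟨⟨h2, h3⟩, t, ht⟩ := ha
      have e : (fun a : ℤ => (u * a + c) / (d : ℤ)) a = t := by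
        change (u * a + c) / (d : ℤ) = t
        rw [ht]
        exact Int.mul_ediv_cancel_left _ hdz.ne'
      rw [e, Finset.mem_coe, mem_Ioc]
      constructor
      · rw [hF]
        apply Int.ediv_lt_of_lt_mul hdz
        have : (u : ℤ) * M < u * a := mul_lt_mul_of_pos_left h2 huz
        linarith [mul_comm t (d : ℤ)]
      · have h4 : t - u ≤ F := by
          rw [hF, Int.le_ediv_iff_mul_le hdz]
          have : (u : ℤ) * a ≤ u * (M + d) := mul_le_mul_of_nonneg_left h3 huz.le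
          have e2 : (t - u) * (d : ℤ) = d * t - u * d := by ring
          rw [e2, ← ht]
          linarith
        linarith
    · intro a ha b hb h
      rw [Finset.mem_coe, mem_filter] at ha hb
      obtain ⟨_, t, ht⟩ := ha
      obtain ⟨_, t', ht'⟩ := hb
      have h' : (u * a + c) / (d : ℤ) = (u * b + c) / (d : ℤ) := h
      rw [ht, ht', Int.mul_ediv_cancel_left _ hdz.ne', Int.mul_ediv_cancel_left _ hdz.ne'] at h'
      have h5 : (u : ℤ) * a = u * b := by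
        rw [← h'] at ht'
        linarith
      exact mul_left_cancel₀ huz.ne' h5
  refine h1.trans ?_
  rw [Int.card_Ioc]
  have : F + (u : ℤ) - F = u := by ring
  rw [this, Int.toNat_natCast]

/-- the core inequality for a window starting in `[0, d)` -/
theorem jointB_core (m : ℕ) (A η K C' C₀ X₀ κ δ' : ℝ) (hm : 1 ≤ m) (hA : 1 ≤ A) (hη : 0 < η)
    (hη1 : η ≤ 1) (hδ' : 0 < δ') (hδ2 : δ' ≤ 1 / 2)
    (hK : K = 13 * ((m : ℝ) ^ 3 * A) / η) (hC' : C' = 2 / η)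
    (hG : ∀ X : ℝ, X₀ ≤ X → ∀ (ι : Type) [Fintype ι] (α β : ι → ℤ) (D : ℕ), 0 < D →
      (D : ℝ) ≤ X ^ C' → (∀ i, α i ≠ 0) → (∀ i, |(α i : ℝ)| ≤ X ^ C') →
      (∀ i, |(β i : ℝ)| ≤ X ^ C') → (∀ i j, i ≠ j → α i * β j - α j * β i ≠ 0) →
      ∑ i, (((α i).natAbs : ℝ) / ((α i).natAbs.totient : ℝ)) ≤
        K * ((D.totient : ℝ) / D) * Real.log X →
      ∀ M : ℝ, (D.totient : ℝ) / D * X * κ ≤ ((RG M X (X ^ δ') D α β).ncard : ℝ))
    (d : ℕ) (hd0 : 0 < d) (X : ℝ) (hX : X = (d : ℝ) ^ η) (hXX : X₀ ≤ X) (hd3 : Real.exp 1 ≤ d)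
    (hJd : 1 + (A * Real.log d + 2 * m + 1) ≤ d) (hmy : (m : ℝ) ≤ X ^ δ')
    (S : Finset (ℕ × ℕ)) (hS : S.card ≤ m)
    (hSd : ∀ z ∈ S, 1 ≤ z.1 ∧ z.1 ≤ m ∧ z.2 < d) (M : ℝ) (hM0 : 0 ≤ M) (hMd : M ≤ d) :
    (d.totient : ℝ) / d * X * κ ≤
      ((JB M X (A * d.totient * Real.log d) (X ^ δ') d S).ncard : ℝ) +
        m ^ 2 * (X ^ δ' + 1) := by
  have hmr : (1:ℝ) ≤ m := by exact_mod_cast hm
  have hdr : (0:ℝ) < d := by exact_mod_cast hd0
  have hd1 : (1:ℝ) ≤ d := by exact_mod_cast hd0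
  have hlog1 : 1 ≤ Real.log d := by
    rw [Real.le_log_iff_exp_le hdr]
    exact hd3
  have hX1 : 1 ≤ X := by
    rw [hX]
    exact Real.one_le_rpow hd1 hη.le
  have hX0 : 0 < X := by linarith
  have hXd : X ≤ d := by
    rw [hX]
    calc (d : ℝ) ^ η ≤ (d : ℝ) ^ (1:ℝ) := Real.rpow_le_rpow_of_exponent_le hd1 hη1
      _ = d := Real.rpow_one _
  have hXC : X ^ C' = (d : ℝ) ^ (2 : ℕ) := by
    rw [hX, hC', ← Real.rpow_mul hdr.le]
    have : η * (2 / η) = ((2 : ℕ) : ℝ) := by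
      field_simp
      norm_num
    rw [this, Real.rpow_natCast]
  have hlogX : Real.log X = η * Real.log d := by rw [hX, Real.log_rpow hdr]
  have hd2 : (d : ℝ) ≤ (d : ℝ) ^ (2 : ℕ) := le_self_pow₀ hd1 (by norm_num)
  have hφ0 : (0:ℝ) < d.totient := by exact_mod_cast Nat.totient_pos.2 hd0
  have hφ1 : (d.totient : ℝ) / d ≤ 1 := by
    rw [div_le_one hdr]
    exact_mod_cast Nat.totient_le d
  set J : ℝ := A * ((d.totient : ℝ) / d) * Real.log d with hJ
  have hJ0 : 0 ≤ J := by positivity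
  have hJle : J ≤ A * Real.log d := by
    have : A * ((d.totient : ℝ) / d) * Real.log d = (A * Real.log d) * ((d.totient : ℝ) / d) := by
      ring
    rw [hJ, this]
    exact mul_le_of_le_one_right (by positivity) hφ1
  set N : ℕ := ⌊J⌋₊ + 2 * m + 1 with hN
  have hNJ : (N : ℝ) ≤ J + 2 * m + 1 := by
    rw [hN]
    push_cast
    linarith [Nat.floor_le hJ0]
  have hNd : (N : ℝ) + 1 ≤ d := by linarith
  set I : Finset (ℕ × ℤ) := ((S ×ˢ range N).image (fun w : (ℕ × ℕ) × ℕ =>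
    (w.1.1, (w.1.2 : ℤ) + ((w.2 : ℤ) - 2 * m) * d))).filter
      (fun z => IsCoprime (z.1 : ℤ) z.2) with hI
  have hImem : ∀ i ∈ I, 1 ≤ i.1 ∧ i.1 ≤ m ∧ |(i.2 : ℝ)| ≤ X ^ C' ∧ IsCoprime (i.1 : ℤ) i.2 := by
    intro i hi
    rw [hI, mem_filter, mem_image] at hi
    obtain ⟨⟨⟨⟨u, h⟩, j⟩, hw, rfl⟩, hc⟩ := hi
    rw [mem_product, mem_range] at hw
    obtain ⟨g1, g2, g3⟩ := hSd (u, h) hw.1
    refine ⟨g1, g2, ?_, hc⟩
    have h1 : ((h : ℕ) : ℝ) ≤ d := by exact_mod_cast g3.le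
    have h2 : ((j : ℕ) : ℝ) ≤ N := by exact_mod_cast hw.2.le
    have h3 : (0:ℝ) ≤ h := Nat.cast_nonneg _
    have h4 : (0:ℝ) ≤ j := Nat.cast_nonneg _
    rw [hXC]
    change |((((h : ℕ) : ℤ) + (((j : ℕ) : ℤ) - 2 * m) * d : ℤ) : ℝ)| ≤ (d : ℝ) ^ 2
    push_cast
    have e0 : 2 * (m:ℝ) ≤ N := by
      rw [hN]
      push_cast
      have : (0:ℝ) ≤ (⌊J⌋₊ : ℝ) := Nat.cast_nonneg _
      linarith
    have e1 : |(h : ℝ) + ((j : ℝ) - 2 * m) * d| ≤ (N + 1) * d := by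
      rw [abs_le]
      constructor
      · have : (-(N:ℝ)) * d ≤ ((j : ℝ) - 2 * m) * d := mul_le_mul_of_nonneg_right (by linarith) hdr.le
        linarith
      · have : ((j : ℝ) - 2 * m) * d ≤ N * d :=
          mul_le_mul_of_nonneg_right (by linarith) hdr.le
        linarith
    refine e1.trans ?_
    rw [pow_two]
    exact mul_le_mul_of_nonneg_right hNd hdr.le
  have hdet : ∀ i j : I, i ≠ j → (((i : ℕ × ℤ).1 : ℕ) : ℤ) * (j : ℕ × ℤ).2 -
      (((j : ℕ × ℤ).1 : ℕ) : ℤ) * (i : ℕ × ℤ).2 ≠ 0 := by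
    rintro ⟨⟨k, a⟩, hz⟩ ⟨⟨k', a'⟩, hz'⟩ hne heq
    apply hne
    obtain ⟨hk1, _, _, hc⟩ := hImem _ hz
    obtain ⟨hk1', _, _, hc'⟩ := hImem _ hz'
    have heq' : (k : ℤ) * a' = k' * a := by
      have : (k : ℤ) * a' - k' * a = 0 := heq
      linarith
    have h1 : (k : ℤ) ∣ k' := by
      have : (k : ℤ) ∣ k' * a := ⟨a', heq'.symm⟩
      exact hc.dvd_of_dvd_mul_right this
    have h2 : (k' : ℤ) ∣ k := by
      have : (k' : ℤ) ∣ k * a' := ⟨a, heq'⟩
      exact hc'.dvd_of_dvd_mul_right this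
    have h3 : k = k' := Nat.dvd_antisymm (by exact_mod_cast h1) (by exact_mod_cast h2)
    subst h3
    have hk0 : (k : ℤ) ≠ 0 := by
      have : (0:ℤ) < k := by exact_mod_cast hk1
      exact this.ne'
    have h4 : a' = a := mul_left_cancel₀ hk0 heq'
    subst h4
    rfl
  have hIcard : (I.card : ℝ) ≤ m * (J + 2 * m + 1) := by
    have h1 : I.card ≤ S.card * N := by
      refine (Finset.card_filter_le _ _).trans (Finset.card_image_le.trans ?_)
      rw [card_product, card_range]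
    have h2 : (I.card : ℝ) ≤ ((S.card * N : ℕ) : ℝ) := by exact_mod_cast h1
    push_cast at h2
    refine h2.trans ?_
    apply mul_le_mul (by exact_mod_cast hS) hNJ (Nat.cast_nonneg _) (Nat.cast_nonneg _)
  have hsum : ∑ i : I, ((((((i : ℕ × ℤ).1 : ℕ) : ℤ)).natAbs : ℝ) /
      (((((i : ℕ × ℤ).1 : ℕ) : ℤ)).natAbs.totient : ℝ)) ≤
      K * ((d.totient : ℝ) / d) * Real.log X := by
    have e1 : ∑ i : I, ((((((i : ℕ × ℤ).1 : ℕ) : ℤ)).natAbs : ℝ) /
        (((((i : ℕ × ℤ).1 : ℕ) : ℤ)).natAbs.totient : ℝ)) ≤ ∑ _i : I, (m : ℝ) := by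
      apply Finset.sum_le_sum
      intro i _
      obtain ⟨g1, g2, _, _⟩ := hImem _ i.2
      rw [Int.natAbs_natCast]
      have h1 : (1:ℝ) ≤ (((i : ℕ × ℤ).1).totient : ℝ) := by
        exact_mod_cast Nat.totient_pos.2 g1
      have h2 : (((i : ℕ × ℤ).1 : ℕ) : ℝ) ≤ m := by exact_mod_cast g2
      exact (div_le_self (Nat.cast_nonneg _) h1).trans h2
    refine e1.trans ?_
    rw [Finset.sum_const, nsmul_eq_mul, card_univ, Fintype.card_coe]
    have e2 : 1 / 4 ≤ (d.totient : ℝ) / d * Real.log d := by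
      have h1 := totient_lower d hd0
      rw [div_mul_eq_mul_div, le_div_iff₀ hdr]
      have h2 : (d.totient : ℝ) * (2 * (1 + Real.log d)) ≤ d.totient * (4 * Real.log d) :=
        mul_le_mul_of_nonneg_left (by linarith) hφ0.le
      linarith
    set q : ℝ := (d.totient : ℝ) / d * Real.log d with hq
    have e3 : K * ((d.totient : ℝ) / d) * Real.log X = 13 * ((m : ℝ) ^ 3 * A) * q := by
      rw [hK, hlogX, hq]
      field_simp
    have e4 : J = A * q := by rw [hJ, hq]; ring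
    rw [e3]
    have e5 : J + 2 * m + 1 ≤ 13 * (m * A) * q := by
      rw [e4]
      have b1 : A * q ≤ (m * A) * q := by
        apply mul_le_mul_of_nonneg_right _ (by linarith)
        nlinarith
      have b2 : (m : ℝ) ≤ (m * A) * (4 * q) := by
        have : (m : ℝ) * 1 ≤ (m * A) * (4 * q) := by
          apply mul_le_mul _ (by linarith) (by norm_num) (by positivity)
          nlinarith
        linarith
      have b3 : (1:ℝ) ≤ (m * A) * (4 * q) := by linarith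
      linarith
    calc (I.card : ℝ) * m ≤ (m * (J + 2 * m + 1)) * m :=
          mul_le_mul_of_nonneg_right hIcard (by linarith)
      _ ≤ (m * (13 * (m * A) * q)) * m := by
          apply mul_le_mul_of_nonneg_right _ (by linarith)
          exact mul_le_mul_of_nonneg_left e5 (by linarith)
      _ = 13 * ((m : ℝ) ^ 3 * A) * q := by ring
  have hmain := hG X hXX I (fun i => (((i : ℕ × ℤ).1 : ℕ) : ℤ)) (fun i => (i : ℕ × ℤ).2) d hd0
    (by rw [hXC]; exact hd2)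
    (by
      intro i
      have := (hImem _ i.2).1
      have h : (0:ℤ) < ((i : ℕ × ℤ).1 : ℕ) := by exact_mod_cast this
      exact h.ne')
    (by
      intro i
      have g2 := (hImem _ i.2).2.1
      have h1 : (((i : ℕ × ℤ).1 : ℕ) : ℝ) ≤ m := by exact_mod_cast g2
      have h2 : |((((i : ℕ × ℤ).1 : ℕ) : ℤ) : ℝ)| = (((i : ℕ × ℤ).1 : ℕ) : ℝ) := by
        push_cast
        exact abs_of_nonneg (Nat.cast_nonneg _)
      change |((((i : ℕ × ℤ).1 : ℕ) : ℤ) : ℝ)| ≤ X ^ C'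
      rw [h2, hXC]
      have h3 : 0 ≤ A * Real.log d := by positivity
      linarith)
    (fun i => (hImem _ i.2).2.2.1) hdet hsum M
  refine hmain.trans ?_
  set y : ℝ := X ^ δ' with hy
  have hy1 : 1 ≤ y := Real.one_le_rpow hX1 hδ'.le
  set Z : ℝ := A * d.totient * Real.log d with hZ
  have hZJ : Z = J * d := by
    rw [hZ, hJ]
    field_simp
  -- the exceptional integers
  set Ex : Finset ℤ := (S ×ˢ range (⌊y⌋₊ + 1)).biUnion (fun z : (ℕ × ℕ) × ℕ =>
    (Ioc ⌊M⌋ (⌊M⌋ + d)).filter (fun a : ℤ => (d : ℤ) ∣ z.1.1 * a + (z.1.2 - z.2))) with hEx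
  have hExcard : (Ex.card : ℝ) ≤ m ^ 2 * (y + 1) := by
    have h1 : Ex.card ≤ (S ×ˢ range (⌊y⌋₊ + 1)).card * m := by
      apply Finset.card_biUnion_le_card_mul
      intro z hz
      obtain ⟨g1, g2, g3⟩ := hSd z.1 (mem_product.1 hz).1
      exact (card_lin z.1.1 d _ _ g1 hd0).trans g2
    rw [card_product, card_range] at h1
    have h2 : (Ex.card : ℝ) ≤ ((S.card * (⌊y⌋₊ + 1) * m : ℕ) : ℝ) := by exact_mod_cast h1
    push_cast at h2
    refine h2.trans ?_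
    have h3 : (S.card : ℝ) ≤ m := by exact_mod_cast hS
    have h4 := Nat.floor_le (show 0 ≤ y by linarith)
    calc (S.card : ℝ) * ((⌊y⌋₊ : ℝ) + 1) * m ≤ m * (y + 1) * m := by
          apply mul_le_mul_of_nonneg_right _ (by linarith)
          apply mul_le_mul h3 (by linarith) (by positivity) (by linarith)
      _ = m ^ 2 * (y + 1) := by ring
  have hsub : RG M X y d (fun i : I => (((i : ℕ × ℤ).1 : ℕ) : ℤ)) (fun i : I => (i : ℕ × ℤ).2) ⊆
      JB M X Z y d S ∪ (Ex : Set ℤ) := by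
    intro a ha
    obtain ⟨h1, h2, h3, h4⟩ := ha
    by_cases haE : a ∈ Ex
    · right
      exact haE
    left
    refine ⟨h1, h2, h3, ?_⟩
    intro z hz n hn hnm hle
    obtain ⟨g1, g2, g3⟩ := hSd z hz
    have ha0 : (0:ℝ) < a := by linarith
    have haM : (⌊M⌋ : ℤ) < a := by
      have := Int.floor_le M
      have h5 : ((⌊M⌋ : ℤ) : ℝ) < a := by linarith
      exact_mod_cast h5
    have haM2 : a ≤ ⌊M⌋ + d := by
      have h5 : (a : ℝ) - d ≤ M := by linarith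
      have h6 : a - d ≤ ⌊M⌋ := by
        rw [Int.le_floor]
        push_cast
        exact h5
      linarith
    obtain ⟨k, hk⟩ : ∃ k : ℤ, (n : ℤ) = z.1 * a + z.2 + k * d := by
      obtain ⟨k, hk⟩ := Int.modEq_iff_dvd.1 hnm
      exact ⟨-k, by linear_combination -hk⟩
    have hkr : (n : ℝ) = z.1 * a + z.2 + k * d := by exact_mod_cast hk
    have hh0 : (0:ℝ) ≤ z.2 := Nat.cast_nonneg _
    have hhd : (z.2 : ℝ) < d := by exact_mod_cast g3
    have hu1 : (1:ℝ) ≤ z.1 := by exact_mod_cast g1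
    have hum : (z.1 : ℝ) ≤ m := by exact_mod_cast g2
    have hn0 : (1:ℝ) ≤ n := by exact_mod_cast hn
    have hua : (z.1 : ℝ) * a ≤ m * (2 * d) := by
      apply mul_le_mul hum (by linarith) ha0.le (by linarith)
    have hk1 : -(2 * (m : ℝ) + 1) < (k : ℝ) := by
      by_contra hc
      rw [not_lt] at hc
      have := mul_le_mul_of_nonneg_right hc hdr.le
      linarith
    have hk1' : -(2 * (m : ℤ) + 1) < k := by exact_mod_cast hk1
    have hk2 : (k : ℝ) ≤ J := by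
      by_contra hc
      rw [not_le] at hc
      have := mul_lt_mul_of_pos_right hc hdr
      rw [← hZJ] at this
      have : 0 ≤ (z.1 : ℝ) * a := by positivity
      linarith
    obtain ⟨j, hj⟩ : ∃ j : ℕ, (j : ℤ) = k + 2 * m :=
      ⟨(k + 2 * m).toNat, Int.toNat_of_nonneg (by omega)⟩
    have hjN : j < N := by
      have h5 : k ≤ ⌊J⌋ := Int.le_floor.2 hk2
      have h6 : (⌊J⌋₊ : ℤ) = ⌊J⌋ := Int.natCast_floor_eq_floor hJ0
      have h7 : (j : ℤ) < N := by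
        rw [hN]
        push_cast
        rw [h6]
        omega
      exact_mod_cast h7
    have hny : y < n := by
      by_contra hc
      rw [not_lt] at hc
      apply haE
      rw [hEx, mem_biUnion]
      refine ⟨(z, n), mem_product.2 ⟨hz, ?_⟩, ?_⟩
      · rw [mem_range]
        have : n ≤ ⌊y⌋₊ := Nat.le_floor hc
        change n < ⌊y⌋₊ + 1
        omega
      · rw [mem_filter, mem_Ioc]
        refine ⟨⟨haM, haM2⟩, ⟨-k, ?_⟩⟩
        change (z.1 : ℤ) * a + ((z.2 : ℤ) - (n : ℤ)) = d * -k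
        rw [hk]
        ring
    set v : ℤ := (z.2 : ℤ) + ((j : ℤ) - 2 * m) * d with hv
    have hnv : (n : ℤ) = z.1 * a + v := by
      rw [hv, hj, hk]
      ring
    by_cases hcop : IsCoprime (z.1 : ℤ) v
    · obtain ⟨q, hq, hqy, hqd, hqp⟩ := h4 ⟨(z.1, v), by
        rw [hI, mem_filter, mem_image]
        exact ⟨⟨(z, j), mem_product.2 ⟨hz, mem_range.2 hjN⟩, rfl⟩, hcop⟩⟩
      have h5 : (q : ℤ) ∣ (n : ℤ) := by
        rw [hnv]
        exact hqp
      refine ⟨q, hq, by exact_mod_cast h5, ?_, hqy⟩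
      have h6 : (q : ℝ) < n := by linarith
      exact_mod_cast h6
    · rw [Int.isCoprime_iff_gcd_eq_one] at hcop
      obtain ⟨q, hq, hqg⟩ := Nat.exists_prime_and_dvd hcop
      have f1 : (q : ℤ) ∣ (z.1 : ℤ) :=
        (Int.natCast_dvd_natCast.2 hqg).trans (Int.gcd_dvd_left _ _)
      have f2 : (q : ℤ) ∣ v := (Int.natCast_dvd_natCast.2 hqg).trans (Int.gcd_dvd_right _ _)
      have f3 : (q : ℤ) ∣ (n : ℤ) := by
        rw [hnv]
        exact dvd_add (Dvd.dvd.mul_right f1 _) f2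
      have f5 : q ≤ z.1 := Nat.le_of_dvd (by omega) (by exact_mod_cast f1)
      have f6 : (q : ℝ) ≤ y := by
        have : (q : ℝ) ≤ z.1 := by exact_mod_cast f5
        linarith
      refine ⟨q, hq, by exact_mod_cast f3, ?_, f6⟩
      have h6 : (q : ℝ) < n := by linarith
      exact_mod_cast h6
  have hfin : (JB M X Z y d S ∪ (Ex : Set ℤ)).Finite :=
    (JB_finite _ _ _ _ _ _).union (Finset.finite_toSet _)
  have h1 := Set.ncard_le_ncard hsub hfin
  have h2 := Set.ncard_union_le (JB M X Z y d S) (Ex : Set ℤ)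
  rw [Set.ncard_coe_finset] at h2
  have h3 : ((RG M X y d (fun i : I => (((i : ℕ × ℤ).1 : ℕ) : ℤ))
      (fun i : I => (i : ℕ × ℤ).2)).ncard : ℝ) ≤
      (((JB M X Z y d S).ncard + Ex.card : ℕ) : ℝ) := by exact_mod_cast h1.trans h2
  push_cast at h3
  linarith

theorem jointB (δ : ℝ) (hδ : 0 < δ) : ∃ C : ℝ, ∀ (m : ℕ) (A η : ℝ), 1 ≤ m → 1 ≤ A → 0 < η →
    η ≤ 1 → ∃ d₀ : ℕ, ∀ d : ℕ, d₀ ≤ d → ∀ S : Finset (ℕ × ℕ), S.card ≤ m →
      (∀ z ∈ S, 1 ≤ z.1 ∧ z.1 ≤ m ∧ z.2 < d) → ∀ M : ℝ,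
      (d.totient : ℝ) / d * (d : ℝ) ^ η * Real.exp (-Real.exp (C * m ^ 3 * A / η)) ≤
        (({a : ℤ | M < a ∧ (a : ℝ) ≤ M + (d : ℝ) ^ η ∧ IsCoprime a (d : ℤ) ∧
          ∀ z ∈ S, ∀ n : ℕ, 1 ≤ n → (n : ℤ) ≡ z.1 * a + z.2 [ZMOD d] →
            (n : ℝ) ≤ A * d.totient * Real.log d →
              ∃ p : ℕ, p.Prime ∧ p ∣ n ∧ p < n ∧ (p : ℝ) ≤ (d : ℝ) ^ (η * δ)}).ncard : ℝ) := by
  set δ' : ℝ := min δ (1 / 2) with hδ'def
  have hδ' : 0 < δ' := lt_min hδ (by norm_num)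
  have hδ'1 : δ' < 1 := lt_of_le_of_lt (min_le_right _ _) (by norm_num)
  obtain ⟨C₀, hC₀, hG⟩ := mainG δ' hδ'
  refine ⟨208 + C₀ + 1, fun m A η hm hA hη hη1 => ?_⟩
  have hmr : (1:ℝ) ≤ m := by exact_mod_cast hm
  have hm3 : (1:ℝ) ≤ (m:ℝ) ^ 3 := one_le_pow₀ hmr
  have hmA : 1 ≤ (m:ℝ) ^ 3 * A := by nlinarith
  set K : ℝ := 13 * ((m:ℝ) ^ 3 * A) / η with hK
  set C' : ℝ := 2 / η with hC'
  have hK1 : 1 ≤ K := by
    rw [hK, le_div_iff₀ hη]
    linarith
  have hC'1 : 1 ≤ C' := by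
    rw [hC', le_div_iff₀ hη]
    linarith
  obtain ⟨X₀, hX₀⟩ := hG K C' hK1 hC'1
  set κ : ℝ := Real.exp (-Real.exp (16 * K + C₀)) with hκ
  have hκ0 : 0 < κ := Real.exp_pos _
  obtain ⟨X₁, hX1, hX₁⟩ := ev_pow (κ / 2) δ' (2 * m ^ 2 / η) (by positivity) hδ'1
    (by positivity)
  have h1 : ∀ᶠ d : ℝ in atTop, 1 + (A * Real.log d + 2 * m + 1) ≤ d := by
    have e1 := Real.isLittleO_log_id_atTop.def (show (0:ℝ) < 1 / (2 * A) by positivity)
    filter_upwards [e1, eventually_ge_atTop (4 * (m:ℝ) + 8)] with d hd hd8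
    simp only [id_eq] at hd
    rw [Real.norm_of_nonneg (Real.log_nonneg (by linarith)), Real.norm_of_nonneg (by linarith),
      div_mul_eq_mul_div, one_mul, le_div_iff₀ (by positivity)] at hd
    linarith
  have h2 : ∀ᶠ d : ℝ in atTop, max X₀ X₁ ≤ d ^ η := (tendsto_rpow_atTop hη).eventually_ge_atTop _
  have h3 : ∀ᶠ d : ℝ in atTop, (m : ℝ) ≤ (d ^ η) ^ δ' :=
    ((tendsto_rpow_atTop hδ').comp (tendsto_rpow_atTop hη)).eventually_ge_atTop _
  obtain ⟨D₀, hD₀⟩ := Filter.eventually_atTop.1 (h1.and (h2.and (h3.and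
    (eventually_ge_atTop (Real.exp 1)))))
  refine ⟨⌈D₀⌉₊ + 1, fun d hd S hS hSd M => ?_⟩
  have hdD : D₀ ≤ (d : ℝ) := by
    have e1 := Nat.le_ceil D₀
    have e2 : ((⌈D₀⌉₊ : ℕ) : ℝ) ≤ d := by exact_mod_cast (Nat.le_succ _).trans hd
    exact e1.trans e2
  obtain ⟨g1, g2, g4, g3⟩ := hD₀ d hdD
  have hd0 : 0 < d := by omega
  have hdr : (0:ℝ) < d := by exact_mod_cast hd0
  have hd1 : (1:ℝ) ≤ d := by exact_mod_cast hd0
  set X : ℝ := (d : ℝ) ^ η with hX
  have hXX₀ : X₀ ≤ X := (le_max_left _ _).trans g2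
  have hXX₁ : X₁ ≤ X := (le_max_right _ _).trans g2
  have hlogX : Real.log X = η * Real.log d := by rw [hX, Real.log_rpow hdr]
  set Z : ℝ := A * d.totient * Real.log d with hZ
  -- reduce to a window starting in `[0, d)`
  set s : ℤ := ⌊M / d⌋ with hs
  have hM0 : 0 ≤ M - s * d := by
    have := Int.floor_le (M / d)
    rw [le_div_iff₀ hdr] at this
    linarith
  have hMd : M - s * d ≤ d := by
    have := Int.lt_floor_add_one (M / d)
    rw [div_lt_iff₀ hdr] at this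
    linarith
  have hcore := jointB_core m A η K C' C₀ X₀ κ δ' hm hA hη hη1 hδ' (min_le_right _ _) hK hC'
    hX₀ d hd0 X hX hXX₀ g3 g1 g4 S hS hSd (M - s * d) hM0 hMd
  have hshift := JB_shift (M - s * d) X Z (X ^ δ') d S s
  have e0 : M - (s : ℝ) * d + s * d = M := by ring
  rw [e0] at hshift
  have hstep : (JB M X Z (X ^ δ') d S).ncard ≤ (JB M X Z ((d : ℝ) ^ (η * δ)) d S).ncard := by
    refine Set.ncard_le_ncard ?_ (JB_finite _ _ _ _ _ _)
    intro a ha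
    obtain ⟨q1, q2, q3, q4⟩ := ha
    refine ⟨q1, q2, q3, fun z hz n hn hnm hnZ => ?_⟩
    obtain ⟨p, p1, p2, p3, p4⟩ := q4 z hz n hn hnm hnZ
    refine ⟨p, p1, p2, p3, p4.trans ?_⟩
    rw [hX, ← Real.rpow_mul hdr.le]
    apply Real.rpow_le_rpow_of_exponent_le hd1
    exact mul_le_mul_of_nonneg_left (min_le_left _ _) hη.le
  have hshift' : ((JB (M - s * d) X Z (X ^ δ') d S).ncard : ℝ) ≤
      (JB M X Z ((d : ℝ) ^ (η * δ)) d S).ncard := by
    exact_mod_cast hshift.trans hstep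
  change (d.totient : ℝ) / d * X * Real.exp (-Real.exp ((208 + C₀ + 1) * m ^ 3 * A / η)) ≤
    ((JB M X Z ((d : ℝ) ^ (η * δ)) d S).ncard : ℝ)
  -- the error
  have hφ0 : (0:ℝ) < d.totient := by exact_mod_cast Nat.totient_pos.2 hd0
  have herr : m ^ 2 * (X ^ δ' + 1) ≤ (d.totient : ℝ) / d * X * (κ / 2) := by
    have e1 := hX₁ X hXX₁
    have e2 := totient_lower d hd0
    have hX1' : 1 ≤ X := hX1.trans hXX₁
    have hX0' : 0 < X := by linarith
    have hlX : 0 ≤ Real.log X := Real.log_nonneg hX1'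
    have hld : 0 ≤ Real.log d := Real.log_nonneg hd1
    have hXp : 0 ≤ X ^ δ' := (Real.rpow_pos_of_pos hX0' _).le
    have e3 : 2 * (1 + Real.log d) ≤ 2 / η * (1 + Real.log X) := by
      rw [hlogX, div_mul_eq_mul_div, le_div_iff₀ hη]
      nlinarith
    have e4 : (m ^ 2 * (X ^ δ' + 1)) * (2 * (1 + Real.log d)) ≤
        ((d.totient : ℝ) / d * X * (κ / 2)) * (2 * (1 + Real.log d)) := by
      calc (m ^ 2 * (X ^ δ' + 1)) * (2 * (1 + Real.log d)) ≤
          (m ^ 2 * (X ^ δ' + 1)) * (2 / η * (1 + Real.log X)) :=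
            mul_le_mul_of_nonneg_left e3 (by positivity)
        _ = 2 * m ^ 2 / η * (X ^ δ' + 1) * (1 + Real.log X) := by ring
        _ ≤ κ / 2 * X := e1
        _ = (κ / 2 * X / d) * d := by field_simp
        _ ≤ (κ / 2 * X / d) * (d.totient * (2 * (1 + Real.log d))) :=
            mul_le_mul_of_nonneg_left e2 (by positivity)
        _ = _ := by ring
    exact le_of_mul_le_mul_right e4 (by linarith)
  have hfin : (d.totient : ℝ) / d * X * (κ / 2) ≤
      ((JB M X Z ((d : ℝ) ^ (η * δ)) d S).ncard : ℝ) := by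
    have e1 : (d.totient : ℝ) / d * X * κ = (d.totient : ℝ) / d * X * (κ / 2) +
      (d.totient : ℝ) / d * X * (κ / 2) := by ring
    rw [e1] at hcore
    linarith
  refine le_trans ?_ hfin
  apply mul_le_mul_of_nonneg_left _ (by positivity)
  have e1 : 16 * K + C₀ + 1 ≤ (208 + C₀ + 1) * m ^ 3 * A / η := by
    have a1 : 16 * K = 208 * ((m:ℝ) ^ 3 * A) / η := by rw [hK]; ring
    have a2 : (208 + C₀ + 1) * m ^ 3 * A / η =
      208 * ((m:ℝ) ^ 3 * A) / η + (C₀ + 1) * ((m:ℝ) ^ 3 * A / η) := by ring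
    have a3 : 1 ≤ (m:ℝ) ^ 3 * A / η := by
      rw [le_div_iff₀ hη]
      linarith
    have a4 : C₀ + 1 ≤ (C₀ + 1) * ((m:ℝ) ^ 3 * A / η) := le_mul_of_one_le_right (by linarith) a3
    rw [a1, a2]
    linarith
  have e2 : Real.exp (16 * K + C₀) + 1 ≤ Real.exp ((208 + C₀ + 1) * m ^ 3 * A / η) := by
    refine le_trans ?_ (Real.exp_le_exp.2 e1)
    rw [Real.exp_add _ 1]
    have a1 : 2 ≤ Real.exp 1 := by
      have := Real.add_one_le_exp (1:ℝ)
      linarith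
    have a2 : 1 ≤ Real.exp (16 * K + C₀) := Real.one_le_exp (by linarith)
    nlinarith
  have e3 : (2:ℝ) ≤ Real.exp 1 := by
    have := Real.add_one_le_exp (1:ℝ)
    linarith
  have e4 : Real.exp (-Real.exp ((208 + C₀ + 1) * m ^ 3 * A / η)) ≤ κ * Real.exp (-1) := by
    rw [hκ, ← Real.exp_add]
    apply Real.exp_le_exp.2
    linarith
  refine e4.trans ?_
  rw [div_eq_mul_inv]
  apply mul_le_mul_of_nonneg_left _ hκ0.le
  rw [Real.exp_neg]
  exact inv_anti₀ (by norm_num) e3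

end Pool.Agent.N837.LP
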