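import Pool.Agent.N837.LP.FinG
import Pool.Agent.N837.LP.AppA

set_option autoImplicit false
set_option linter.unusedVariables false

/-! # Given residues, varying moduli -/

namespace Pool.Agent.N837.LP

open Finset Filter

open scoped Classical

/-- the moduli `d` in `(Y, Y + X]` prime to all the elements of `S` such that every positive
integer up to `B d log d` in a class `a` modulo `d`, `a ∈ S`, other than `a` itself, is composite
with a prime factor at most `y` -/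
def JC (Y X B y : ℝ) (S : Finset ℤ) : Set ℕ :=
  {d : ℕ | Y < d ∧ (d : ℝ) ≤ Y + X ∧ (∀ a ∈ S, IsCoprime (d : ℤ) a) ∧
    ∀ a ∈ S, ∀ n : ℕ, 1 ≤ n → (n : ℤ) ≡ a [ZMOD d] → (n : ℤ) ≠ a →
      (n : ℝ) ≤ B * d * Real.log d → ∃ p : ℕ, p.Prime ∧ p ∣ n ∧ p < n ∧ (p : ℝ) ≤ y}

theorem JC_finite (Y X B y : ℝ) (S : Finset ℤ) : (JC Y X B y S).Finite := by
  apply (Set.finite_Iic ⌊Y + X⌋₊).subset
  intro a ha
  obtain ⟨h1, h2, _⟩ := ha
  rw [Set.mem_Iic]
  exact Nat.le_floor h2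

theorem fixedC_core (m : ℕ) (A η K C' C₀ X₀ κ δ' : ℝ) (hm : 1 ≤ m) (hA : 1 ≤ A) (hη : 0 < η)
    (hη1 : η ≤ 1) (hδ' : 0 < δ') (hδ2 : δ' ≤ 1 / 2) (hK : K = 16 * (m * A) / η) (hC' : C' = m / η)
    (hG : ∀ X : ℝ, X₀ ≤ X → ∀ (ι : Type) [Fintype ι] (α β : ι → ℤ) (D : ℕ), 0 < D →
      (D : ℝ) ≤ X ^ C' → (∀ i, α i ≠ 0) → (∀ i, |(α i : ℝ)| ≤ X ^ C') →
      (∀ i, |(β i : ℝ)| ≤ X ^ C') → (∀ i j, i ≠ j → α i * β j - α j * β i ≠ 0) →
      ∑ i, (((α i).natAbs : ℝ) / ((α i).natAbs.totient : ℝ)) ≤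
        K * ((D.totient : ℝ) / D) * Real.log X →
      ∀ M : ℝ, (D.totient : ℝ) / D * X * κ ≤ ((RG M X (X ^ δ') D α β).ncard : ℝ))
    (Y X : ℝ) (hX : X = Y ^ η) (hXX : X₀ ≤ X) (hY4 : 4 ≤ Y)
    (hJy : A * Real.log (2 * Y) + 1 / 2 ≤ X ^ δ') (S : Finset ℤ) (hS : S.card ≤ m)
    (hS0 : ∀ a ∈ S, a ≠ 0) (hSY : ∀ a ∈ S, |(a : ℝ)| ≤ Y / 2) :
    (((∏ a ∈ S, a.natAbs).totient : ℝ) / ((∏ a ∈ S, a.natAbs : ℕ) : ℝ)) * X * κ ≤
      ((JC Y X (A * (((∏ a ∈ S, a.natAbs).totient : ℝ) / ((∏ a ∈ S, a.natAbs : ℕ) : ℝ)))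
        (X ^ δ') S).ncard : ℝ) := by
  set D : ℕ := ∏ a ∈ S, a.natAbs with hD
  have hD0 : 0 < D := Finset.prod_pos fun a ha => Int.natAbs_pos.2 (hS0 a ha)
  have hDr : (0:ℝ) < D := by exact_mod_cast hD0
  set r : ℝ := (D.totient : ℝ) / D with hr
  have hφ0 : (0:ℝ) < D.totient := by exact_mod_cast Nat.totient_pos.2 hD0
  have hr0 : 0 < r := by positivity
  have hr1 : r ≤ 1 := by
    rw [hr, div_le_one hDr]
    exact_mod_cast Nat.totient_le D
  have hY0 : 0 < Y := by linarith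
  have hY1 : 1 ≤ Y := by linarith
  have hX0 : 0 < X := by
    rw [hX]
    exact Real.rpow_pos_of_pos hY0 _
  have hX1 : 1 ≤ X := by
    rw [hX]
    exact Real.one_le_rpow hY1 hη.le
  have hXY : X ≤ Y := by
    rw [hX]
    calc Y ^ η ≤ Y ^ (1:ℝ) := Real.rpow_le_rpow_of_exponent_le hY1 hη1
      _ = Y := Real.rpow_one _
  have hXC : X ^ C' = Y ^ m := by
    rw [hX, hC', ← Real.rpow_mul hY0.le]
    have : η * (m / η) = ((m : ℕ) : ℝ) := by field_simp
    rw [this, Real.rpow_natCast]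
  have hYC : Y ≤ X ^ C' := by
    rw [hXC]
    exact le_self_pow₀ hY1 (by omega)
  have hDC : (D : ℝ) ≤ X ^ C' := by
    rw [hXC, hD]
    push_cast
    calc ∏ a ∈ S, ((a.natAbs : ℕ) : ℝ) ≤ ∏ _a ∈ S, Y := by
          apply Finset.prod_le_prod
          · intro a _
            exact Nat.cast_nonneg _
          · intro a ha
            have h1 := hSY a ha
            rw [Nat.cast_natAbs, Int.cast_abs]
            linarith
      _ = Y ^ S.card := by rw [Finset.prod_const]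
      _ ≤ Y ^ m := pow_le_pow_right₀ hY1 hS
  have hlogY : 1 ≤ Real.log Y := by
    rw [Real.le_log_iff_exp_le hY0]
    have := Real.exp_one_lt_d9
    linarith
  have hlogX : Real.log X = η * Real.log Y := by rw [hX, Real.log_rpow hY0]
  have hlog2Y : Real.log (2 * Y) ≤ 2 * Real.log Y := by
    have h1 : Real.log (Y ^ 2) = 2 * Real.log Y := by
      rw [Real.log_pow]
      norm_num
    rw [← h1]
    apply Real.log_le_log (by positivity)
    nlinarith
  have hlog2Y0 : 0 < Real.log (2 * Y) := Real.log_pos (by linarith)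
  have hyY2 : X ^ δ' ≤ Y / 2 := by
    have h7 : X ^ δ' ≤ Y ^ (1 / 2 : ℝ) := by
      calc X ^ δ' ≤ X ^ (1 / 2 : ℝ) := Real.rpow_le_rpow_of_exponent_le hX1 hδ2
        _ ≤ Y ^ (1 / 2 : ℝ) := Real.rpow_le_rpow hX0.le hXY (by norm_num)
    have h8 : Y ^ (1 / 2 : ℝ) ≤ Y / 2 := by
      rw [← Real.sqrt_eq_rpow, Real.sqrt_le_left (by positivity)]
      nlinarith
    linarith
  have hJY : A * Real.log (2 * Y) + 1 / 2 ≤ Y := by linarith
  set J : ℕ := ⌊A * r * Real.log (2 * Y) + 1 / 2⌋₊ with hJ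
  have hJ0 : 0 ≤ A * r * Real.log (2 * Y) + 1 / 2 := by positivity
  have hJle : (J : ℝ) ≤ A * r * Real.log (2 * Y) + 1 / 2 := Nat.floor_le hJ0
  have hJy' : (J : ℝ) ≤ X ^ δ' := by
    refine hJle.trans (le_trans ?_ hJy)
    have : A * r * Real.log (2 * Y) ≤ A * 1 * Real.log (2 * Y) := by
      apply mul_le_mul_of_nonneg_right _ hlog2Y0.le
      exact mul_le_mul_of_nonneg_left hr1 (by linarith)
    linarith
  have hJY' : (J : ℝ) ≤ Y := by linarith
  have hJ4 : (J : ℝ) ≤ 4 * A * r * Real.log Y := by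
    rcases Nat.eq_zero_or_pos J with h0 | h0
    · rw [h0]
      simp only [Nat.cast_zero]
      positivity
    · have h1 : (1:ℝ) ≤ J := by exact_mod_cast h0
      have h2 : 1 / 2 ≤ A * r * Real.log (2 * Y) := by linarith
      have h3 : A * r * Real.log (2 * Y) ≤ A * r * (2 * Real.log Y) :=
        mul_le_mul_of_nonneg_left hlog2Y (by positivity)
      linarith
  set I : Finset (ℕ × ℤ) := (Icc 1 J ×ˢ S).filter (fun z => IsCoprime (z.1 : ℤ) z.2) with hI
  have hdet : ∀ i j : I, i ≠ j → (((i : ℕ × ℤ).1 : ℕ) : ℤ) * (j : ℕ × ℤ).2 -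
      (((j : ℕ × ℤ).1 : ℕ) : ℤ) * (i : ℕ × ℤ).2 ≠ 0 := by
    rintro ⟨⟨k, a⟩, hz⟩ ⟨⟨k', a'⟩, hz'⟩ hne heq
    apply hne
    rw [hI, mem_filter, mem_product, mem_Icc] at hz hz'
    obtain ⟨⟨⟨hk1, hk2⟩, haS⟩, hc⟩ := hz
    obtain ⟨⟨⟨hk1', hk2'⟩, haS'⟩, hc'⟩ := hz'
    have heq' : (k : ℤ) * a' = k' * a := by
      have : (k : ℤ) * a' - k' * a = 0 := heq
      linarith
    have h1 : (k : ℤ) ∣ k' := by
      have : (k : ℤ) ∣ k' * a := ⟨a', heq'.symm⟩
      exact hc.dvd_of_dvd_mul_right this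
    have h2 : (k' : ℤ) ∣ k := by
      have : (k' : ℤ) ∣ k * a' := ⟨a, heq'⟩
      exact hc'.dvd_of_dvd_mul_right this
    have h3 : k = k' := Nat.dvd_antisymm (by exact_mod_cast h1) (by exact_mod_cast h2)
    subst h3
    have hk0 : (k : ℤ) ≠ 0 := by
      have : (0:ℤ) < k := by exact_mod_cast hk1
      exact this.ne'
    have h4 : a' = a := mul_left_cancel₀ hk0 heq'
    subst h4
    rfl
  have hsum : ∑ i : I, ((((((i : ℕ × ℤ).1 : ℕ) : ℤ)).natAbs : ℝ) /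
      (((((i : ℕ × ℤ).1 : ℕ) : ℤ)).natAbs.totient : ℝ)) ≤ K * r * Real.log X := by
    have e1 : ∑ i : I, ((((((i : ℕ × ℤ).1 : ℕ) : ℤ)).natAbs : ℝ) /
        (((((i : ℕ × ℤ).1 : ℕ) : ℤ)).natAbs.totient : ℝ)) =
        ∑ z ∈ I, ((z.1 : ℝ) / (z.1.totient : ℝ)) := by
      rw [← Finset.sum_coe_sort I (fun z => ((z.1 : ℝ) / (z.1.totient : ℝ)))]
      apply Finset.sum_congr rfl
      intro i _
      rw [Int.natAbs_natCast]
    rw [e1]
    have e2 : ∑ z ∈ I, ((z.1 : ℝ) / (z.1.totient : ℝ)) ≤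
        ∑ z ∈ Icc 1 J ×ˢ S, ((z.1 : ℝ) / (z.1.totient : ℝ)) := by
      apply Finset.sum_le_sum_of_subset_of_nonneg (Finset.filter_subset _ _)
      intro z _ _
      positivity
    refine e2.trans ?_
    rw [Finset.sum_product]
    simp only [Finset.sum_const, nsmul_eq_mul]
    rw [← Finset.mul_sum]
    have e3 := sum_div_totient J
    have e4 : (S.card : ℝ) ≤ m := by exact_mod_cast hS
    have e5 : (0:ℝ) ≤ ∑ k ∈ Icc 1 J, ((k : ℝ) / (k.totient : ℝ)) :=
      Finset.sum_nonneg fun k _ => by positivity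
    calc (S.card : ℝ) * ∑ k ∈ Icc 1 J, ((k : ℝ) / (k.totient : ℝ)) ≤ m * (4 * J) :=
          mul_le_mul e4 e3 e5 (Nat.cast_nonneg _)
      _ ≤ m * (4 * (4 * A * r * Real.log Y)) := by
          apply mul_le_mul_of_nonneg_left _ (Nat.cast_nonneg _)
          linarith
      _ = K * r * Real.log X := by
          rw [hK, hlogX]
          field_simp
          ring
  have hmain := hG X hXX I (fun i => (((i : ℕ × ℤ).1 : ℕ) : ℤ)) (fun i => (i : ℕ × ℤ).2) D hD0 hDC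
    (by
      rintro ⟨⟨k, a⟩, hz⟩
      rw [hI, mem_filter, mem_product, mem_Icc] at hz
      have : (0:ℤ) < k := by exact_mod_cast hz.1.1.1
      exact this.ne')
    (by
      rintro ⟨⟨k, a⟩, hz⟩
      rw [hI, mem_filter, mem_product, mem_Icc] at hz
      have h1 : (k : ℝ) ≤ J := by exact_mod_cast hz.1.1.2
      have h2 : |(((k : ℕ) : ℤ) : ℝ)| = k := by
        push_cast
        exact abs_of_nonneg (Nat.cast_nonneg _)
      change |(((k : ℕ) : ℤ) : ℝ)| ≤ X ^ C'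
      rw [h2]
      linarith)
    (by
      rintro ⟨⟨k, a⟩, hz⟩
      rw [hI, mem_filter, mem_product, mem_Icc] at hz
      have h1 := hSY a hz.1.2
      change |(a : ℝ)| ≤ X ^ C'
      linarith)
    hdet hsum Y
  refine hmain.trans ?_
  have hsub : RG Y X (X ^ δ') D (fun i : I => (((i : ℕ × ℤ).1 : ℕ) : ℤ))
      (fun i : I => (i : ℕ × ℤ).2) ⊆ (fun d : ℕ => (d : ℤ)) '' JC Y X (A * r) (X ^ δ') S := by
    intro n hn
    obtain ⟨h1, h2, h3, h4⟩ := hn
    have hn0 : 0 < n := by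
      have : (0:ℝ) < n := by linarith
      exact_mod_cast this
    obtain ⟨d, rfl⟩ : ∃ d : ℕ, n = d := ⟨n.toNat, (Int.toNat_of_nonneg hn0.le).symm⟩
    refine ⟨d, ?_, rfl⟩
    have h1' : Y < (d : ℝ) := by exact_mod_cast h1
    have h2' : (d : ℝ) ≤ Y + X := by exact_mod_cast h2
    have hdr : (0:ℝ) < d := by linarith
    refine ⟨h1', h2', ?_, ?_⟩
    · intro a ha
      have h5 : a ∣ (D : ℤ) := by
        rw [← Int.natAbs_dvd]
        exact_mod_cast Finset.dvd_prod_of_mem (fun a : ℤ => a.natAbs) ha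
      exact h3.of_isCoprime_of_dvd_right h5
    · intro a ha p hp hpm hpa hle
      obtain ⟨k, hk⟩ : ∃ k : ℤ, (p : ℤ) = a + k * d := by
        obtain ⟨k, hk⟩ := Int.modEq_iff_dvd.1 hpm
        exact ⟨-k, by linear_combination -hk⟩
      have hkr : (p : ℝ) = a + k * d := by exact_mod_cast hk
      have haY := abs_le.1 (hSY a ha)
      have hp0 : (1:ℝ) ≤ p := by exact_mod_cast hp
      have hk0 : k ≠ 0 := by
        intro h
        apply hpa
        rw [hk, h]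
        ring
      have hk1 : 1 ≤ k := by
        by_contra hc
        have h5 : k ≤ -1 := by omega
        have h6 : (k : ℝ) ≤ -1 := by exact_mod_cast h5
        have h7 := mul_le_mul_of_nonneg_right h6 hdr.le
        linarith [haY.2]
      obtain ⟨j, rfl⟩ : ∃ j : ℕ, k = j := ⟨k.toNat, (Int.toNat_of_nonneg (by omega)).symm⟩
      have hj1 : 1 ≤ j := by exact_mod_cast hk1
      have hj1r : (1:ℝ) ≤ j := by exact_mod_cast hj1
      have hkr' : (p : ℝ) = a + j * d := by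
        rw [hkr]
        push_cast
        rfl
      have hlogd : Real.log d ≤ Real.log (2 * Y) := Real.log_le_log hdr (by linarith)
      have hjJ : j ≤ J := by
        apply Nat.le_floor
        have h5 : A * r * d * Real.log d ≤ A * r * Real.log (2 * Y) * d := by
          have : A * r * d * Real.log d = A * r * Real.log d * d := by ring
          rw [this]
          apply mul_le_mul_of_nonneg_right _ hdr.le
          exact mul_le_mul_of_nonneg_left hlogd (by positivity)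
        have h6 : (j : ℝ) * d ≤ (A * r * Real.log (2 * Y) + 1 / 2) * d := by
          linarith [haY.1]
        exact le_of_mul_le_mul_right h6 hdr
      have hpbig : X ^ δ' < p := by
        have : (1:ℝ) * d ≤ j * d := mul_le_mul_of_nonneg_right hj1r hdr.le
        linarith [haY.1]
      by_cases hcop : IsCoprime (j : ℤ) a
      · obtain ⟨q, hq, hqy, hqd, hqp⟩ := h4 ⟨(j, a), by
          rw [hI, mem_filter, mem_product, mem_Icc]
          exact ⟨⟨⟨hj1, hjJ⟩, ha⟩, hcop⟩⟩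
        have h5 : (q : ℤ) ∣ (p : ℤ) := by
          have e : ((j : ℕ) : ℤ) * (d : ℤ) + a = p := by
            rw [hk]
            ring
          rw [← e]
          exact hqp
        refine ⟨q, hq, by exact_mod_cast h5, ?_, hqy⟩
        have h6 : (q : ℝ) < p := by linarith
        exact_mod_cast h6
      · rw [Int.isCoprime_iff_gcd_eq_one] at hcop
        obtain ⟨q, hq, hqg⟩ := Nat.exists_prime_and_dvd hcop
        have g1 : (q : ℤ) ∣ (j : ℤ) := (Int.natCast_dvd_natCast.2 hqg).trans (Int.gcd_dvd_left _ _)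
        have g2 : (q : ℤ) ∣ a := (Int.natCast_dvd_natCast.2 hqg).trans (Int.gcd_dvd_right _ _)
        have g3 : (q : ℤ) ∣ (p : ℤ) := by
          rw [hk]
          exact dvd_add g2 (Dvd.dvd.mul_right g1 _)
        have g5 : q ≤ j := Nat.le_of_dvd (by omega) (by exact_mod_cast g1)
        have g6 : (q : ℝ) ≤ X ^ δ' := by
          have g7 : (q : ℝ) ≤ J := by exact_mod_cast g5.trans hjJ
          linarith
        refine ⟨q, hq, by exact_mod_cast g3, ?_, g6⟩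
        have h6 : (q : ℝ) < p := by linarith
        exact_mod_cast h6
  have hfin := JC_finite Y X (A * r) (X ^ δ') S
  have h1 := Set.ncard_le_ncard hsub (hfin.image _)
  have h2 := Set.ncard_image_le (f := fun d : ℕ => (d : ℤ)) hfin
  exact_mod_cast h1.trans h2

theorem fixedC (δ : ℝ) (hδ : 0 < δ) : ∃ C : ℝ, ∀ (m : ℕ) (A η : ℝ), 1 ≤ m → 1 ≤ A → 0 < η →
    η ≤ 1 → ∃ Y₀ : ℝ, ∀ Y : ℝ, Y₀ ≤ Y → ∀ S : Finset ℤ, S.card ≤ m → (∀ a ∈ S, a ≠ 0) →
      (∀ a ∈ S, |(a : ℝ)| ≤ Y / 2) →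
      (((∏ a ∈ S, a.natAbs).totient : ℝ) / ((∏ a ∈ S, a.natAbs : ℕ) : ℝ)) * Y ^ η *
          Real.exp (-Real.exp (C * m * A / η)) ≤
        (({d : ℕ | Y < d ∧ (d : ℝ) ≤ Y + Y ^ η ∧ (∀ a ∈ S, IsCoprime (d : ℤ) a) ∧
          ∀ a ∈ S, ∀ n : ℕ, 1 ≤ n → (n : ℤ) ≡ a [ZMOD d] → (n : ℤ) ≠ a →
            (n : ℝ) ≤ A * (((∏ a ∈ S, a.natAbs).totient : ℝ) / ((∏ a ∈ S, a.natAbs : ℕ) : ℝ)) *
              d * Real.log d →
              ∃ p : ℕ, p.Prime ∧ p ∣ n ∧ p < n ∧ (p : ℝ) ≤ Y ^ (η * δ)}).ncard : ℝ) := by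
  set δ' : ℝ := min δ (1 / 2) with hδ'def
  have hδ' : 0 < δ' := lt_min hδ (by norm_num)
  obtain ⟨C₀, hC₀, hG⟩ := mainG δ' hδ'
  refine ⟨256 + C₀, fun m A η hm hA hη hη1 => ?_⟩
  have hmr : (1:ℝ) ≤ m := by exact_mod_cast hm
  have hmA : 1 ≤ m * A := by nlinarith
  set K : ℝ := 16 * (m * A) / η with hK
  set C' : ℝ := m / η with hC'
  have hK1 : 1 ≤ K := by
    rw [hK, le_div_iff₀ hη]
    linarith
  have hC'1 : 1 ≤ C' := by
    rw [hC', le_div_iff₀ hη]
    linarith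
  obtain ⟨X₀, hX₀⟩ := hG K C' hK1 hC'1
  have h1 : ∀ᶠ Y : ℝ in atTop, A * Real.log (2 * Y) + 1 / 2 ≤ Y ^ (η * δ') := by
    have e1 := (isLittleO_log_rpow_atTop (show 0 < η * δ' by positivity)).def
      (show (0:ℝ) < 1 / (2 * A) by positivity)
    have e4 : ∀ᶠ Y : ℝ in atTop, 4 * A + 8 ≤ Y ^ (η * δ') :=
      (tendsto_rpow_atTop (show 0 < η * δ' by positivity)).eventually_ge_atTop _
    filter_upwards [e1, e4, eventually_ge_atTop (1:ℝ)] with Y hY hY8 hYone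
    have hY1 : 0 < Y := by linarith
    rw [Real.norm_of_nonneg (Real.log_nonneg (by linarith)),
      Real.norm_of_nonneg (by positivity),
      div_mul_eq_mul_div, one_mul, le_div_iff₀ (by positivity)] at hY
    have e2 : Real.log (2 * Y) ≤ 1 + Real.log Y := by
      rw [Real.log_mul (by norm_num) hY1.ne']
      have := Real.log_two_lt_d9
      linarith
    have e3 : A * Real.log (2 * Y) ≤ A * (1 + Real.log Y) :=
      mul_le_mul_of_nonneg_left e2 (by linarith)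
    linarith
  have h2 : ∀ᶠ Y : ℝ in atTop, X₀ ≤ Y ^ η := (tendsto_rpow_atTop hη).eventually_ge_atTop _
  obtain ⟨Y₀, hY₀⟩ := Filter.eventually_atTop.1 (h1.and (h2.and (eventually_ge_atTop (4:ℝ))))
  refine ⟨Y₀, fun Y hY S hS hS0 hSY => ?_⟩
  obtain ⟨g1, g2, g3⟩ := hY₀ Y hY
  have hY0 : 0 < Y := by linarith
  have hcore := fixedC_core m A η K C' C₀ X₀ _ δ' hm hA hη hη1 hδ' (min_le_right _ _) hK hC' hX₀
    Y (Y ^ η) rfl g2 g3 (by rw [← Real.rpow_mul hY0.le]; exact g1) S hS hS0 hSY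
  have hstep : ((JC Y (Y ^ η) (A * (((∏ a ∈ S, a.natAbs).totient : ℝ) /
      ((∏ a ∈ S, a.natAbs : ℕ) : ℝ))) ((Y ^ η) ^ δ') S).ncard : ℝ) ≤
      ((JC Y (Y ^ η) (A * (((∏ a ∈ S, a.natAbs).totient : ℝ) /
      ((∏ a ∈ S, a.natAbs : ℕ) : ℝ))) (Y ^ (η * δ)) S).ncard : ℝ) := by
    refine Nat.cast_le.2 (Set.ncard_le_ncard ?_ (JC_finite _ _ _ _ _))
    intro d hd
    obtain ⟨q1, q2, q3, q4⟩ := hd
    refine ⟨q1, q2, q3, fun a ha n hn hnm hna hnZ => ?_⟩
    obtain ⟨p, p1, p2, p3, p4⟩ := q4 a ha n hn hnm hna hnZ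
    refine ⟨p, p1, p2, p3, p4.trans ?_⟩
    rw [← Real.rpow_mul hY0.le]
    apply Real.rpow_le_rpow_of_exponent_le (by linarith)
    exact mul_le_mul_of_nonneg_left (min_le_left _ _) hη.le
  refine le_trans ?_ (hcore.trans hstep)
  apply mul_le_mul_of_nonneg_left _ (by positivity)
  apply Real.exp_le_exp.2
  apply neg_le_neg
  apply Real.exp_le_exp.2
  have a1 : 16 * K = 256 * (m * A) / η := by rw [hK]; ring
  have a2 : (256 + C₀) * m * A / η = 256 * (m * A) / η + C₀ * (m * A / η) := by ring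
  have a3 : 1 ≤ m * A / η := by
    rw [le_div_iff₀ hη]
    linarith
  have a4 : C₀ ≤ C₀ * (m * A / η) := le_mul_of_one_le_right hC₀ a3
  rw [a1, a2]
  linarith

end Pool.Agent.N837.LP
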