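import Pool.Agent.N837.LP.FinG
import Pool.Agent.N837.LP.AppA
import Pool.Agent.H398R2.RK.Surv

set_option autoImplicit false
set_option linter.unusedVariables false

/-! # The least prime in Goldbach representations: a positive proportion of large values -/

namespace Pool.Agent.N837.LP

open Finset Filter

open scoped Classical

/-- the even numbers `m` in `(X, X + W]` such that for every `(u, h) ∈ S` and every prime `p ≤ Z`
the number `u m + h - p` is composite with a prime factor at most `y` -/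
def JD (X W Z y : ℝ) (S : Finset (ℕ × ℤ)) : Set ℕ :=
  {m : ℕ | Even m ∧ X < m ∧ (m : ℝ) ≤ X + W ∧ ∀ z ∈ S, ∀ p : ℕ, p.Prime → (p : ℝ) ≤ Z →
    ∃ q : ℕ, q.Prime ∧ (q : ℝ) ≤ y ∧ (q : ℤ) ∣ z.1 * m + z.2 - p ∧ (q : ℤ) < z.1 * m + z.2 - p}

theorem JD_finite (X W Z y : ℝ) (S : Finset (ℕ × ℤ)) : (JD X W Z y S).Finite := by
  apply (Set.finite_Iic ⌊X + W⌋₊).subset
  intro a ha
  obtain ⟨_, h1, h2, _⟩ := ha
  rw [Set.mem_Iic]
  exact Nat.le_floor h2

theorem primes_le_ev (A : ℝ) (hA : 1 ≤ A) : ∃ X₀ : ℝ, ∀ X : ℝ, X₀ ≤ X →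
    (((Icc 1 ⌊A * Real.log X * Real.log (Real.log X)⌋₊).filter Nat.Prime).card : ℝ) ≤
      10 * A * Real.log X := by
  have t1 := Real.tendsto_log_atTop
  have h1 : ∀ᶠ X : ℝ in atTop, 3 ≤ Real.log X := t1.eventually_ge_atTop _
  have h2 : ∀ᶠ X : ℝ in atTop, 2 ≤ Real.log (Real.log X) :=
    (t1.comp t1).eventually_ge_atTop _
  obtain ⟨X₀, hX₀⟩ := Filter.eventually_atTop.1 (h1.and h2)
  refine ⟨X₀, fun X hX => ?_⟩
  obtain ⟨g1, g2⟩ := hX₀ X hX
  set l := Real.log X with hl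
  set ll := Real.log l with hll
  set L : ℕ := ⌊A * l * ll⌋₊ with hL
  have hZ0 : 0 ≤ A * l * ll := by positivity
  have hL1 : (L : ℝ) ≤ A * l * ll := Nat.floor_le hZ0
  have hAl : l * 1 ≤ A * l * ll - 1 := by
    have e1 : l * ll ≤ A * l * ll := by
      have : l * ll = 1 * (l * ll) := by ring
      rw [this]
      have : A * l * ll = A * (l * ll) := by ring
      rw [this]
      exact mul_le_mul_of_nonneg_right hA (by positivity)
    nlinarith
  have hL2 : l ≤ L := by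
    have := Nat.lt_floor_add_one (A * l * ll)
    rw [← hL] at this
    linarith
  have hL3 : 2 ≤ L := by
    have : (2:ℝ) ≤ L := by linarith
    exact_mod_cast this
  have h := Pool.Agent.H398R2.RK.primes_le L hL3
  have hlogL : ll ≤ Real.log L := Real.log_le_log (by linarith) hL2
  refine h.trans ?_
  rw [div_le_iff₀ (by linarith)]
  have e1 : 10 * A * l * ll ≤ 10 * A * l * Real.log L :=
    mul_le_mul_of_nonneg_left hlogL (by positivity)
  linarith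

theorem goldbachD_core (k : ℕ) (A η K C' C₀ X₀ κ δ' : ℝ) (hk : 1 ≤ k) (hA : 1 ≤ A) (hη : 0 < η)
    (hη1 : η ≤ 1) (hδ' : 0 < δ') (hδ2 : δ' ≤ 1 / 2)
    (hK : K = 40 * ((k : ℝ) ^ 2 * A) / η) (hC' : C' = 2 / η)
    (hG : ∀ X : ℝ, X₀ ≤ X → ∀ (ι : Type) [Fintype ι] (α β : ι → ℤ) (D : ℕ), 0 < D →
      (D : ℝ) ≤ X ^ C' → (∀ i, α i ≠ 0) → (∀ i, |(α i : ℝ)| ≤ X ^ C') →
      (∀ i, |(β i : ℝ)| ≤ X ^ C') → (∀ i j, i ≠ j → α i * β j - α j * β i ≠ 0) →
      ∑ i, (((α i).natAbs : ℝ) / ((α i).natAbs.totient : ℝ)) ≤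
        K * ((D.totient : ℝ) / D) * Real.log X →
      ∀ M : ℝ, (D.totient : ℝ) / D * X * κ ≤ ((RG M X (X ^ δ') D α β).ncard : ℝ))
    (X Z : ℝ) (hXX : X₀ ≤ X ^ η / 2) (hX100 : 100 ≤ X) (hXη : 4 ≤ X ^ η) (hZ0 : 0 ≤ Z)
    (hZX : Z ≤ X / 8)
    (hcard : (((Icc 1 ⌊Z⌋₊).filter Nat.Prime).card : ℝ) ≤ 10 * A * Real.log X)
    (hky : 2 * (k : ℝ) ≤ (X ^ η / 2) ^ δ')
    (S : Finset (ℕ × ℤ)) (hS : S.card ≤ k)
    (hSd : ∀ z ∈ S, 1 ≤ z.1 ∧ z.1 ≤ k ∧ |(z.2 : ℝ)| ≤ X / 2) :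
    X ^ η / 2 * κ ≤ ((JD X (X ^ η) Z ((X ^ η / 2) ^ δ') S).ncard : ℝ) := by
  have hkr : (1:ℝ) ≤ k := by exact_mod_cast hk
  have hX0 : 0 < X := by linarith
  have hX1 : 1 ≤ X := by linarith
  set V : ℝ := X ^ η / 2 with hV
  have hV2 : 2 ≤ V := by rw [hV]; linarith
  have hV0 : 0 < V := by linarith
  have hVX : V ≤ X / 2 := by
    rw [hV]
    have : X ^ η ≤ X := by
      calc X ^ η ≤ X ^ (1:ℝ) := Real.rpow_le_rpow_of_exponent_le hX1 hη1
        _ = X := Real.rpow_one _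
    linarith
  -- `V` is at least `X ^ (η / 2)`
  have hVlow : X ^ (η / 2) ≤ V := by
    have e1 : X ^ η = X ^ (η / 2) * X ^ (η / 2) := by
      rw [← Real.rpow_add hX0]
      congr 1
      ring
    have e2 : 2 ≤ X ^ (η / 2) := by
      by_contra hc
      rw [not_le] at hc
      have h0 : 0 ≤ X ^ (η / 2) := (Real.rpow_pos_of_pos hX0 _).le
      have : X ^ (η / 2) * X ^ (η / 2) < 2 * 2 := by nlinarith
      linarith
    rw [hV, e1]
    have h0 : 0 ≤ X ^ (η / 2) := (Real.rpow_pos_of_pos hX0 _).le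
    nlinarith
  have hXC : X ≤ V ^ C' := by
    have e1 : (X ^ (η / 2)) ^ C' = X := by
      rw [← Real.rpow_mul hX0.le, hC']
      have : η / 2 * (2 / η) = 1 := by field_simp
      rw [this, Real.rpow_one]
    calc X = (X ^ (η / 2)) ^ C' := e1.symm
      _ ≤ V ^ C' := by
        apply Real.rpow_le_rpow (Real.rpow_pos_of_pos hX0 _).le hVlow
        rw [hC']
        positivity
  have hlogV : η / 2 * Real.log X ≤ Real.log V := by
    rw [← Real.log_rpow hX0]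
    exact Real.log_le_log (Real.rpow_pos_of_pos hX0 _) hVlow
  have hlogX : 0 < Real.log X := Real.log_pos (by linarith)
  set y : ℝ := V ^ δ' with hy
  have hyX : y ≤ X / 8 := by
    have e1 : y ≤ X ^ (1 / 2 : ℝ) := by
      calc V ^ δ' ≤ V ^ (1 / 2 : ℝ) := Real.rpow_le_rpow_of_exponent_le (by linarith) hδ2
        _ ≤ X ^ (1 / 2 : ℝ) := Real.rpow_le_rpow hV0.le (by linarith) (by norm_num)
    have e2 : X ^ (1 / 2 : ℝ) ≤ X / 8 := by
      rw [← Real.sqrt_eq_rpow, Real.sqrt_le_left (by positivity)]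
      nlinarith
    linarith
  set Pr : Finset ℕ := (Icc 1 ⌊Z⌋₊).filter Nat.Prime with hPr
  set I : Finset (ℕ × ℤ) := ((S ×ˢ Pr).image (fun w : (ℕ × ℤ) × ℕ =>
    (2 * w.1.1, w.1.2 - (w.2 : ℤ)))).filter
      (fun z => IsCoprime (z.1 : ℤ) z.2) with hI
  have hImem : ∀ i ∈ I, 1 ≤ i.1 ∧ i.1 ≤ 2 * k ∧ |(i.2 : ℝ)| ≤ V ^ C' ∧
      IsCoprime (i.1 : ℤ) i.2 := by
    intro i hi
    rw [hI, mem_filter, mem_image] at hi
    obtain ⟨⟨⟨⟨u, h⟩, p⟩, hw, rfl⟩, hc⟩ := hi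
    rw [mem_product, hPr, mem_filter, mem_Icc] at hw
    obtain ⟨g1, g2, g3⟩ := hSd (u, h) hw.1
    refine ⟨by change 1 ≤ 2 * u; have : 1 ≤ u := g1; omega, by
      change 2 * u ≤ 2 * k
      have : u ≤ k := g2
      omega, ?_, hc⟩
    have h1 : (p : ℝ) ≤ Z := (Nat.cast_le.2 hw.2.1.2).trans (Nat.floor_le hZ0)
    have h4 : (0:ℝ) ≤ p := Nat.cast_nonneg _
    change |((h - (p : ℤ) : ℤ) : ℝ)| ≤ V ^ C'
    push_cast
    have g3' : |(h : ℝ)| ≤ X / 2 := g3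
    have e1 : |(h : ℝ) - p| ≤ |(h : ℝ)| + |(p : ℝ)| := abs_sub _ _
    rw [abs_of_nonneg h4] at e1
    linarith
  have hdet : ∀ i j : I, i ≠ j → (((i : ℕ × ℤ).1 : ℕ) : ℤ) * (j : ℕ × ℤ).2 -
      (((j : ℕ × ℤ).1 : ℕ) : ℤ) * (i : ℕ × ℤ).2 ≠ 0 := by
    rintro ⟨⟨k, a⟩, hz⟩ ⟨⟨k', a'⟩, hz'⟩ hne heq
    apply hne
    obtain ⟨hk1, _, _, hc⟩ := hImem _ hz
    obtain ⟨hk1', _, _, hc'⟩ := hImem _ hz'
    have heq' : (k : ℤ) * a' = k' * a := by
      have : (k : ℤ) * a' - k' * a = 0 := heq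
      linarith
    have h1 : (k : ℤ) ∣ k' := by
      have : (k : ℤ) ∣ k' * a := ⟨a', heq'.symm⟩
      exact hc.dvd_of_dvd_mul_right this
    have h2 : (k' : ℤ) ∣ k := by
      have : (k' : ℤ) ∣ k * a' := ⟨a, heq'⟩
      exact hc'.dvd_of_dvd_mul_right this
    have h3 : k = k' := Nat.dvd_antisymm (by exact_mod_cast h1) (by exact_mod_cast h2)
    subst h3
    have hk0 : (k : ℤ) ≠ 0 := by
      have : (0:ℤ) < k := by exact_mod_cast hk1
      exact this.ne'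
    have h4 : a' = a := mul_left_cancel₀ hk0 heq'
    subst h4
    rfl
  have hIcard : (I.card : ℝ) ≤ k * (10 * A * Real.log X) := by
    have h1 : I.card ≤ S.card * Pr.card := by
      refine (Finset.card_filter_le _ _).trans (Finset.card_image_le.trans ?_)
      rw [card_product]
    have h2 : (I.card : ℝ) ≤ ((S.card * Pr.card : ℕ) : ℝ) := by exact_mod_cast h1
    push_cast at h2
    refine h2.trans ?_
    apply mul_le_mul (by exact_mod_cast hS) hcard (Nat.cast_nonneg _) (Nat.cast_nonneg _)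
  have hsum : ∑ i : I, ((((((i : ℕ × ℤ).1 : ℕ) : ℤ)).natAbs : ℝ) /
      (((((i : ℕ × ℤ).1 : ℕ) : ℤ)).natAbs.totient : ℝ)) ≤
      K * (((1:ℕ).totient : ℝ) / ((1:ℕ) : ℝ)) * Real.log V := by
    have e1 : ∑ i : I, ((((((i : ℕ × ℤ).1 : ℕ) : ℤ)).natAbs : ℝ) /
        (((((i : ℕ × ℤ).1 : ℕ) : ℤ)).natAbs.totient : ℝ)) ≤ ∑ _i : I, (2 * (k : ℝ)) := by
      apply Finset.sum_le_sum
      intro i _
      obtain ⟨g1, g2, _, _⟩ := hImem _ i.2
      rw [Int.natAbs_natCast]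
      have h1 : (1:ℝ) ≤ (((i : ℕ × ℤ).1).totient : ℝ) := by
        exact_mod_cast Nat.totient_pos.2 g1
      have h2 : (((i : ℕ × ℤ).1 : ℕ) : ℝ) ≤ 2 * k := by exact_mod_cast g2
      exact (div_le_self (Nat.cast_nonneg _) h1).trans h2
    refine e1.trans ?_
    rw [Finset.sum_const, nsmul_eq_mul, card_univ, Fintype.card_coe]
    have e3 : (((1:ℕ).totient : ℝ) / ((1:ℕ) : ℝ)) = 1 := by
      rw [Nat.totient_one]
      norm_num
    rw [e3, mul_one]
    calc (I.card : ℝ) * (2 * k) ≤ (k * (10 * A * Real.log X)) * (2 * k) :=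
          mul_le_mul_of_nonneg_right hIcard (by linarith)
      _ = K * (η / 2 * Real.log X) := by
          rw [hK]
          field_simp
          ring
      _ ≤ K * Real.log V := by
          apply mul_le_mul_of_nonneg_left hlogV
          rw [hK]
          positivity
  have hmain := hG V hXX I (fun i => (((i : ℕ × ℤ).1 : ℕ) : ℤ)) (fun i => (i : ℕ × ℤ).2) 1
    one_pos (by push_cast; linarith)
    (by
      intro i
      have := (hImem _ i.2).1
      have h : (0:ℤ) < ((i : ℕ × ℤ).1 : ℕ) := by exact_mod_cast this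
      exact h.ne')
    (by
      intro i
      have g2 := (hImem _ i.2).2.1
      have h1 : (((i : ℕ × ℤ).1 : ℕ) : ℝ) ≤ 2 * k := by exact_mod_cast g2
      have h2 : |((((i : ℕ × ℤ).1 : ℕ) : ℤ) : ℝ)| = (((i : ℕ × ℤ).1 : ℕ) : ℝ) := by
        push_cast
        exact abs_of_nonneg (Nat.cast_nonneg _)
      change |((((i : ℕ × ℤ).1 : ℕ) : ℤ) : ℝ)| ≤ V ^ C'
      rw [h2]
      linarith)
    (fun i => (hImem _ i.2).2.2.1) hdet hsum (X / 2)
  have e3 : (((1:ℕ).totient : ℝ) / ((1:ℕ) : ℝ)) = 1 := by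
    rw [Nat.totient_one]
    norm_num
  rw [e3, one_mul] at hmain
  refine hmain.trans ?_
  have hsub : RG (X / 2) V y 1 (fun i : I => (((i : ℕ × ℤ).1 : ℕ) : ℤ))
      (fun i : I => (i : ℕ × ℤ).2) ⊆ (fun m : ℕ => (m : ℤ) / 2) '' JD X (X ^ η) Z y S := by
    intro n hn
    obtain ⟨h1, h2, h3, h4⟩ := hn
    have hn0 : 0 < n := by
      have : (0:ℝ) < n := by linarith
      exact_mod_cast this
    obtain ⟨b, rfl⟩ : ∃ b : ℕ, n = b := ⟨n.toNat, (Int.toNat_of_nonneg hn0.le).symm⟩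
    have h1' : X / 2 < (b : ℝ) := by exact_mod_cast h1
    have h2' : (b : ℝ) ≤ X / 2 + V := by exact_mod_cast h2
    refine ⟨2 * b, ⟨even_two_mul b, ?_, ?_, ?_⟩, ?_⟩
    · push_cast
      linarith
    · push_cast
      rw [hV] at h2'
      linarith
    · intro z hz p hp hpZ
      obtain ⟨g1, g2, g3⟩ := hSd z hz
      have hu1 : (1:ℝ) ≤ z.1 := by exact_mod_cast g1
      have hum : (z.1 : ℝ) ≤ k := by exact_mod_cast g2
      have hpPr : p ∈ Pr := by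
        rw [hPr, mem_filter, mem_Icc]
        exact ⟨⟨hp.pos, Nat.le_floor hpZ⟩, hp⟩
      have hb := abs_le.1 g3
      have hubig : X ≤ (z.1 : ℝ) * (2 * b) := by
        have : (1:ℝ) * (2 * b) ≤ z.1 * (2 * b) :=
          mul_le_mul_of_nonneg_right hu1 (by positivity)
        linarith
      have hbig : y < (z.1 : ℝ) * (2 * b) + z.2 - p := by linarith [hb.1]
      by_cases hcop : IsCoprime (((2 * z.1 : ℕ)) : ℤ) (z.2 - (p : ℤ))
      · obtain ⟨q, hq, hqy, hqd, hqp⟩ := h4 ⟨(2 * z.1, z.2 - (p : ℤ)), by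
          rw [hI, mem_filter, mem_image]
          exact ⟨⟨(z, p), mem_product.2 ⟨hz, hpPr⟩, rfl⟩, hcop⟩⟩
        refine ⟨q, hq, hqy, ?_, ?_⟩
        · have e : (z.1 : ℤ) * ((2 * b : ℕ) : ℤ) + z.2 - p =
              ((2 * z.1 : ℕ) : ℤ) * (b : ℤ) + (z.2 - (p : ℤ)) := by
            push_cast
            ring
          rw [e]
          exact hqp
        · have h6 : (q : ℝ) < (z.1 : ℝ) * (2 * b) + z.2 - p := by linarith
          exact_mod_cast h6
      · rw [Int.isCoprime_iff_gcd_eq_one] at hcop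
        obtain ⟨q, hq, hqg⟩ := Nat.exists_prime_and_dvd hcop
        have f1 : (q : ℤ) ∣ ((2 * z.1 : ℕ) : ℤ) :=
          (Int.natCast_dvd_natCast.2 hqg).trans (Int.gcd_dvd_left _ _)
        have f2 : (q : ℤ) ∣ z.2 - (p : ℤ) :=
          (Int.natCast_dvd_natCast.2 hqg).trans (Int.gcd_dvd_right _ _)
        have f5 : q ≤ 2 * z.1 := Nat.le_of_dvd (by omega) (by exact_mod_cast f1)
        have f6 : (q : ℝ) ≤ y := by
          have : (q : ℝ) ≤ ((2 * z.1 : ℕ) : ℝ) := by exact_mod_cast f5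
          push_cast at this
          linarith
        refine ⟨q, hq, f6, ?_, ?_⟩
        · have e : (z.1 : ℤ) * ((2 * b : ℕ) : ℤ) + z.2 - p =
              ((2 * z.1 : ℕ) : ℤ) * (b : ℤ) + (z.2 - (p : ℤ)) := by
            push_cast
            ring
          rw [e]
          exact dvd_add (Dvd.dvd.mul_right f1 _) f2
        · have h6 : (q : ℝ) < (z.1 : ℝ) * (2 * b) + z.2 - p := by linarith
          exact_mod_cast h6
    · change ((2 * b : ℕ) : ℤ) / 2 = (b : ℤ)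
      push_cast
      omega
  have hfin := JD_finite X (X ^ η) Z y S
  have h1 := Set.ncard_le_ncard hsub (hfin.image _)
  have h2 := Set.ncard_image_le (f := fun m : ℕ => (m : ℤ) / 2) hfin
  exact_mod_cast h1.trans h2

theorem goldbachD (δ : ℝ) (hδ : 0 < δ) : ∃ C : ℝ, ∀ (k : ℕ) (A η : ℝ), 1 ≤ k → 1 ≤ A → 0 < η →
    η ≤ 1 → ∃ X₀ : ℝ, ∀ X : ℝ, X₀ ≤ X → ∀ S : Finset (ℕ × ℤ), S.card ≤ k →
      (∀ z ∈ S, 1 ≤ z.1 ∧ z.1 ≤ k ∧ |(z.2 : ℝ)| ≤ X / 2) →
      X ^ η * Real.exp (-Real.exp (C * k ^ 2 * A / η)) ≤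
        (({m : ℕ | Even m ∧ X < m ∧ (m : ℝ) ≤ X + X ^ η ∧ ∀ z ∈ S, ∀ p : ℕ, p.Prime →
          (p : ℝ) ≤ A * Real.log X * Real.log (Real.log X) →
            ∃ q : ℕ, q.Prime ∧ (q : ℝ) ≤ X ^ (η * δ) ∧ (q : ℤ) ∣ z.1 * m + z.2 - p ∧
              (q : ℤ) < z.1 * m + z.2 - p}).ncard : ℝ) := by
  set δ' : ℝ := min δ (1 / 2) with hδ'def
  have hδ' : 0 < δ' := lt_min hδ (by norm_num)
  obtain ⟨C₀, hC₀, hG⟩ := mainG δ' hδ'
  refine ⟨640 + C₀ + 1, fun k A η hk hA hη hη1 => ?_⟩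
  have hkr : (1:ℝ) ≤ k := by exact_mod_cast hk
  have hk2 : (1:ℝ) ≤ (k:ℝ) ^ 2 := one_le_pow₀ hkr
  have hkA : 1 ≤ (k:ℝ) ^ 2 * A := by nlinarith
  set K : ℝ := 40 * ((k:ℝ) ^ 2 * A) / η with hK
  set C' : ℝ := 2 / η with hC'
  have hK1 : 1 ≤ K := by
    rw [hK, le_div_iff₀ hη]
    linarith
  have hC'1 : 1 ≤ C' := by
    rw [hC', le_div_iff₀ hη]
    linarith
  obtain ⟨X₀, hX₀⟩ := hG K C' hK1 hC'1
  set κ : ℝ := Real.exp (-Real.exp (16 * K + C₀)) with hκ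
  have hκ0 : 0 < κ := Real.exp_pos _
  obtain ⟨X₁, hX₁⟩ := primes_le_ev A hA
  have h1 : ∀ᶠ X : ℝ in atTop, A * Real.log X * Real.log (Real.log X) ≤ X / 8 := by
    have e1 := (isLittleO_log_rpow_atTop (show (0:ℝ) < 1 / 2 by norm_num)).def
      (show (0:ℝ) < 1 / (8 * A) by positivity)
    filter_upwards [e1, Real.tendsto_log_atTop.eventually_ge_atTop 1,
      (isLittleO_log_rpow_atTop (show (0:ℝ) < 1 / 2 by norm_num)).def (show (0:ℝ) < 1 by norm_num),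
      eventually_ge_atTop (1:ℝ)] with X hX hX1 hX2 hX3
    have hX0 : 0 < X := by linarith
    have hs : 0 ≤ X ^ (1 / 2 : ℝ) := (Real.rpow_pos_of_pos hX0 _).le
    rw [Real.norm_of_nonneg (by linarith), Real.norm_of_nonneg hs] at hX hX2
    have e2 : Real.log (Real.log X) ≤ Real.log X := by
      have := Real.log_le_sub_one_of_pos (show 0 < Real.log X by linarith)
      linarith
    have e3 : 0 ≤ Real.log (Real.log X) := Real.log_nonneg hX1
    have e4 : X ^ (1 / 2 : ℝ) * X ^ (1 / 2 : ℝ) = X := by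
      rw [← Real.rpow_add hX0]
      norm_num
    rw [div_mul_eq_mul_div, one_mul, le_div_iff₀ (by positivity)] at hX
    have e5 : A * Real.log X * Real.log (Real.log X) ≤ A * Real.log X * X ^ (1 / 2 : ℝ) := by
      apply mul_le_mul_of_nonneg_left _ (by positivity)
      linarith
    have e6 : A * Real.log X * X ^ (1 / 2 : ℝ) ≤ X ^ (1 / 2 : ℝ) / 8 * X ^ (1 / 2 : ℝ) := by
      apply mul_le_mul_of_nonneg_right _ hs
      linarith
    have e7 : X ^ (1 / 2 : ℝ) / 8 * X ^ (1 / 2 : ℝ) = X / 8 := by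
      rw [div_mul_eq_mul_div, e4]
    linarith
  have h2 : ∀ᶠ X : ℝ in atTop, max (2 * X₀) 4 ≤ X ^ η :=
    (tendsto_rpow_atTop hη).eventually_ge_atTop _
  have h3 : ∀ᶠ X : ℝ in atTop, 2 * (k : ℝ) ≤ (X ^ η / 2) ^ δ' := by
    have a1 : Tendsto (fun X : ℝ => X ^ η / 2) atTop atTop :=
      (tendsto_rpow_atTop hη).atTop_div_const (by norm_num)
    exact ((tendsto_rpow_atTop hδ').comp a1).eventually_ge_atTop _
  have h4 : ∀ᶠ X : ℝ in atTop, 0 ≤ Real.log (Real.log X) ∧ 0 ≤ Real.log X := by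
    filter_upwards [Real.tendsto_log_atTop.eventually_ge_atTop 1] with X hX1
    exact ⟨Real.log_nonneg hX1, by linarith⟩
  obtain ⟨D₀, hD₀⟩ := Filter.eventually_atTop.1 (h1.and (h2.and (h3.and (h4.and
    (eventually_ge_atTop (max 100 X₁))))))
  refine ⟨D₀, fun X hX S hS hSd => ?_⟩
  obtain ⟨g1, g2, g3, g4, g5⟩ := hD₀ X hX
  have hX100 : 100 ≤ X := (le_max_left _ _).trans g5
  have hX0 : 0 < X := by linarith
  have hXX₁ : X₁ ≤ X := (le_max_right _ _).trans g5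
  have hXη4 : 4 ≤ X ^ η := (le_max_right _ _).trans g2
  have hXηX₀ : X₀ ≤ X ^ η / 2 := by
    have := (le_max_left _ _).trans g2
    linarith
  set Z : ℝ := A * Real.log X * Real.log (Real.log X) with hZ
  have hZ0 : 0 ≤ Z := by
    have := g4.1
    have := g4.2
    positivity
  have hcore := goldbachD_core k A η K C' C₀ X₀ κ δ' hk hA hη hη1 hδ' (min_le_right _ _) hK hC'
    hX₀ X Z hXηX₀ hX100 hXη4 hZ0 g1 (hX₁ X hXX₁) g3 S hS hSd
  have hstep : ((JD X (X ^ η) Z ((X ^ η / 2) ^ δ') S).ncard : ℝ) ≤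
      ((JD X (X ^ η) Z (X ^ (η * δ)) S).ncard : ℝ) := by
    refine Nat.cast_le.2 (Set.ncard_le_ncard ?_ (JD_finite _ _ _ _ _))
    intro m hm
    obtain ⟨q1, q2, q3, q4⟩ := hm
    refine ⟨q1, q2, q3, fun z hz p hp hpZ => ?_⟩
    obtain ⟨q, p1, p2, p3, p4⟩ := q4 z hz p hp hpZ
    refine ⟨q, p1, p2.trans ?_, p3, p4⟩
    calc (X ^ η / 2) ^ δ' ≤ (X ^ η) ^ δ' := by
          apply Real.rpow_le_rpow (by positivity) _ hδ'.le
          linarith
      _ = X ^ (η * δ') := by rw [← Real.rpow_mul hX0.le]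
      _ ≤ X ^ (η * δ) := by
          apply Real.rpow_le_rpow_of_exponent_le (by linarith)
          exact mul_le_mul_of_nonneg_left (min_le_left _ _) hη.le
  refine le_trans ?_ (hcore.trans hstep)
  have e1 : 16 * K + C₀ + 1 ≤ (640 + C₀ + 1) * k ^ 2 * A / η := by
    have a1 : 16 * K = 640 * ((k:ℝ) ^ 2 * A) / η := by rw [hK]; ring
    have a2 : (640 + C₀ + 1) * k ^ 2 * A / η =
      640 * ((k:ℝ) ^ 2 * A) / η + (C₀ + 1) * ((k:ℝ) ^ 2 * A / η) := by ring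
    have a3 : 1 ≤ (k:ℝ) ^ 2 * A / η := by
      rw [le_div_iff₀ hη]
      linarith
    have a4 : C₀ + 1 ≤ (C₀ + 1) * ((k:ℝ) ^ 2 * A / η) := le_mul_of_one_le_right (by linarith) a3
    rw [a1, a2]
    linarith
  have e2 : Real.exp (16 * K + C₀) + 1 ≤ Real.exp ((640 + C₀ + 1) * k ^ 2 * A / η) := by
    refine le_trans ?_ (Real.exp_le_exp.2 e1)
    rw [Real.exp_add _ 1]
    have a1 : 2 ≤ Real.exp 1 := by
      have := Real.add_one_le_exp (1:ℝ)
      linarith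
    have a2 : 1 ≤ Real.exp (16 * K + C₀) := Real.one_le_exp (by linarith)
    nlinarith
  have e3 : (2:ℝ) ≤ Real.exp 1 := by
    have := Real.add_one_le_exp (1:ℝ)
    linarith
  have e4 : Real.exp (-Real.exp ((640 + C₀ + 1) * k ^ 2 * A / η)) ≤ κ * Real.exp (-1) := by
    rw [hκ, ← Real.exp_add]
    apply Real.exp_le_exp.2
    linarith
  have e5 : κ * Real.exp (-1) ≤ κ / 2 := by
    rw [div_eq_mul_inv]
    apply mul_le_mul_of_nonneg_left _ hκ0.le
    rw [Real.exp_neg]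
    exact inv_anti₀ (by norm_num) e3
  have hXη0 : 0 ≤ X ^ η := (Real.rpow_pos_of_pos hX0 _).le
  calc X ^ η * Real.exp (-Real.exp ((640 + C₀ + 1) * k ^ 2 * A / η)) ≤ X ^ η * (κ / 2) :=
        mul_le_mul_of_nonneg_left (e4.trans e5) hXη0
    _ = X ^ η / 2 * κ := by ring

end Pool.Agent.N837.LP
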