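import Pool.Agent.N837.LP.Gen

set_option autoImplicit false
set_option linter.unusedVariables false

/-! # One class modulo the primorial: progressions modulo `d` -/

namespace Pool.Agent.N837.LP

open Finset

open scoped Classical

/-- the integers `a` in `(M, M + X]` without a prime factor in `E`, such that every `a + k d`,
`k < N`, has a prime factor at most `y` outside `E` -/
def RA (M X y : ℝ) (d N : ℕ) (E : Finset ℕ) : Set ℤ :=
  {a : ℤ | M < a ∧ (a : ℝ) ≤ M + X ∧ (∀ p ∈ E, ¬ (p : ℤ) ∣ a) ∧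
    ∀ k : ℕ, k < N → ∃ p : ℕ, p.Prime ∧ (p : ℝ) ≤ y ∧ p ∉ E ∧ (p : ℤ) ∣ a + k * d}

theorem RA_finite (M X y : ℝ) (d N : ℕ) (E : Finset ℕ) : (RA M X y d N E).Finite := by
  apply (Set.finite_Icc ⌊M⌋ ⌈M + X⌉).subset
  intro a ha
  obtain ⟨h1, h2, _⟩ := ha
  rw [Set.mem_Icc]
  constructor
  · have := Int.floor_le M
    have h3 : ((⌊M⌋ : ℤ) : ℝ) < a := by linarith
    exact_mod_cast h3.le
  · have := Int.le_ceil (M + X)
    have h3 : (a : ℝ) ≤ ((⌈M + X⌉ : ℤ) : ℝ) := by linarith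
    exact_mod_cast h3

theorem clsA (d N b : ℕ) (hd : 0 < d) (x w y₁ y₂ X M len Φ u ω : ℝ) (hx0 : 0 < x) (hxw : x ≤ w)
    (hNw : (N : ℝ) ≤ w) (hy : y₁ ≤ y₂) (hxy : x ≤ y₂) (hΦ : 0 ≤ Φ) (hX : 0 ≤ X)
    (hb : ∀ p : ℕ, p.Prime → (p : ℝ) ≤ x → p ∣ d → ¬ p ∣ b)
    (hu : (((range N).filter (fun k => (primorial ⌊x⌋₊).Coprime (b + k * d))).card : ℝ) ≤ u)
    (hω : (((d.primeFactors).filter (fun p : ℕ => x < p)).card : ℝ) ≤ ω)
    (hcov : ∀ res : ℕ → ((range N).filter (fun k => (primorial ⌊x⌋₊).Coprime (b + k * d))) → ℤ,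
      (∀ p : ℕ, p.Prime → w < p → (p : ℝ) ≤ y₁ → ∀ k l, k ≠ l →
        ¬ ((p : ℤ) ∣ res p k - res p l)) →
      ∀ A B : ℤ, len ≤ (B : ℝ) - A →
      3 / 8 * ((B : ℝ) - A) ≤ (((Ioc A B).filter (fun x : ℤ => ∀ k, ∃ p : ℕ, p.Prime ∧
        w < p ∧ (p : ℝ) ≤ y₁ ∧ (p : ℤ) ∣ x - res p k)).card : ℝ) * Φ)
    (hlen : len ≤ X / (primorial ⌊x⌋₊ : ℝ) - 1) (hPX : (primorial ⌊x⌋₊ : ℝ) ≤ X) :
    3 / 8 * (X / (primorial ⌊x⌋₊ : ℝ) - 1) ≤
      ((((RA_finite M X y₂ d N d.primeFactors).toFinset).filter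
        (fun n : ℤ => ((primorial ⌊x⌋₊ : ℕ) : ℤ) ∣ n - b)).card +
        (ω * (u * ((X / (primorial ⌊x⌋₊ : ℝ) + 1) / w + 1)) +
          ω * ((X / (primorial ⌊x⌋₊ : ℝ) + 1) / x + 1))) * Φ := by
  set P : ℕ := primorial ⌊x⌋₊ with hPdef
  have hPpos : 0 < P := primorial_pos _
  have hPr : (0 : ℝ) < P := by exact_mod_cast hPpos
  have hw0 : 0 < w := hx0.trans_le hxw
  have hfloor : ∀ p : ℕ, p ≤ ⌊x⌋₊ ↔ (p : ℝ) ≤ x := fun p => Nat.le_floor_iff hx0.le
  have hndvdP : ∀ p : ℕ, p.Prime → x < p → ¬ p ∣ P := by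
    intro p hp hpX h
    have := (hfloor p).1 ((hp.dvd_primorial_iff).1 h)
    linarith
  set U : Finset ℕ := (range N).filter (fun k => P.Coprime (b + k * d)) with hU
  set E : Finset ℕ := d.primeFactors with hEd
  have hEp : ∀ p ∈ E, p.Prime := fun p hp => Nat.prime_of_mem_primeFactors hp
  have hEmem : ∀ p : ℕ, p.Prime → p ∉ E → ¬ p ∣ d := by
    intro p hp hpE hpd
    exact hpE (Nat.mem_primeFactors.2 ⟨hp, hpd, hd.ne'⟩)
  have hsmall : ∀ (p : ℕ), w < p → ∀ k l : U, k ≠ l → ¬ (p : ℤ) ∣ ((k : ℕ) : ℤ) - ((l : ℕ) : ℤ) := by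
    intro p hp k l hkl h
    have hk := mem_range.1 (mem_filter.1 k.2).1
    have hl := mem_range.1 (mem_filter.1 l.2).1
    have hpN : N < p := by
      have : (N : ℝ) < p := lt_of_le_of_lt hNw hp
      exact_mod_cast this
    have h7 : ((k : ℕ) : ℤ) - ((l : ℕ) : ℤ) = 0 := by
      apply Int.eq_zero_of_abs_lt_dvd h
      rw [abs_lt]
      constructor <;> omega
    apply hkl
    apply Subtype.ext
    omega
  set A' : ℤ := ⌊(M - b) / P⌋ with hA'
  set B' : ℤ := ⌊(M + X - b) / P⌋ with hB'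
  have hsplit : (M + X - b) / P = (M - b) / P + X / P := by
    field_simp
    ring
  have hBA : X / (P : ℝ) - 1 ≤ (B' : ℝ) - A' := by
    have e1 := Int.floor_le ((M - b) / P)
    have e2 := Int.lt_floor_add_one ((M + X - b) / P)
    linarith
  have hBA2 : (B' : ℝ) - A' ≤ X / (P : ℝ) + 1 := by
    have e1 := Int.lt_floor_add_one ((M - b) / P)
    have e2 := Int.floor_le ((M + X - b) / P)
    linarith
  have hAB : A' ≤ B' := by
    have h1 : (1 : ℝ) ≤ X / P := by
      rw [le_div_iff₀ hPr]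
      linarith
    have h2 : (A' : ℝ) ≤ B' := by linarith
    exact_mod_cast h2
  have hgen := gen_class (κ := U) (fun _ => (P : ℤ)) (fun k => (b : ℤ) + ((k : ℕ) : ℤ) * d)
    (fun k => ((k : ℕ) : ℤ)) E w y₁ len Φ hEp hΦ hcov
    (by
      intro p hp hp1 _ _ k h
      exact hndvdP p hp (lt_of_le_of_lt hxw hp1) (by exact_mod_cast h))
    (by
      intro p hp hp1 hp2 hpE k l hkl h
      have hpi : Prime (p : ℤ) := Nat.prime_iff_prime_int.1 hp
      have e1 : (P : ℤ) * ((b : ℤ) + ((l : ℕ) : ℤ) * d) - (P : ℤ) * ((b : ℤ) + ((k : ℕ) : ℤ) * d) =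
          (P : ℤ) * (d * (((l : ℕ) : ℤ) - ((k : ℕ) : ℤ))) := by ring
      rw [e1] at h
      rcases hpi.dvd_or_dvd h with h | h
      · exact hndvdP p hp (lt_of_le_of_lt hxw hp1) (by exact_mod_cast h)
      rcases hpi.dvd_or_dvd h with h | h
      · exact hEmem p hp hpE (by exact_mod_cast h)
      · exact hsmall p hp1 l k (Ne.symm hkl) h)
    (fun p hp hp1 k l hkl => hsmall p hp1 k l hkl)
    A' B' hAB (hlen.trans hBA)
  have h38 : 3 / 8 * (X / (P : ℝ) - 1) ≤ 3 / 8 * ((B' : ℝ) - A') := by linarith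
  refine h38.trans (hgen.trans (mul_le_mul_of_nonneg_right ?_ hΦ))
  set C : Finset ℤ := (Ioc A' B').filter (fun m : ℤ => ∀ k : U, ∃ p : ℕ, p.Prime ∧
      w < p ∧ (p : ℝ) ≤ y₁ ∧ p ∉ E ∧ (p : ℤ) ∣ (P : ℤ) * m + ((b : ℤ) + ((k : ℕ) : ℤ) * d)) with hC
  set R : Finset ℤ := ((RA_finite M X y₂ d N E).toFinset).filter
        (fun n : ℤ => ((P : ℕ) : ℤ) ∣ n - b) with hR
  have hD0 : 0 ≤ (B' : ℝ) - A' := by
    have : (A' : ℝ) ≤ B' := by exact_mod_cast hAB
    linarith
  -- the second error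
  have hCR : (C.card : ℝ) ≤ R.card + ω * ((X / (P : ℝ) + 1) / x + 1) := by
    have hsub : C ⊆ (C.filter (fun m => ∀ p ∈ E, x < p → ¬ (p : ℤ) ∣ (b : ℤ) + P * m)) ∪
        (E.filter (fun p : ℕ => x < p)).biUnion (fun p =>
          (Ioc A' B').filter (fun m : ℤ => (p : ℤ) ∣ (b : ℤ) + P * m)) := by
      intro m hm
      rw [mem_union]
      by_cases hbad : ∃ p ∈ E, x < p ∧ (p : ℤ) ∣ (b : ℤ) + P * m
      · right
        obtain ⟨p, hpE, hpx, hpd⟩ := hbad
        rw [mem_biUnion]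
        exact ⟨p, mem_filter.2 ⟨hpE, hpx⟩, mem_filter.2 ⟨(mem_filter.1 hm).1, hpd⟩⟩
      · left
        rw [mem_filter]
        refine ⟨hm, fun p hp hpx hpd => hbad ⟨p, hp, hpx, hpd⟩⟩
    have h1 : ((C.filter (fun m => ∀ p ∈ E, x < p → ¬ (p : ℤ) ∣ (b : ℤ) + P * m)).card : ℝ) ≤
        R.card := by
      have hinj : ((C.filter (fun m => ∀ p ∈ E, x < p → ¬ (p : ℤ) ∣ (b : ℤ) + P * m)).image
          (fun m : ℤ => (b : ℤ) + P * m)).card =
          (C.filter (fun m => ∀ p ∈ E, x < p → ¬ (p : ℤ) ∣ (b : ℤ) + P * m)).card := by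
        apply Finset.card_image_of_injective
        intro m m' h
        have hP0 : (P : ℤ) ≠ 0 := by exact_mod_cast hPpos.ne'
        have h2 : (P : ℤ) * m = P * m' := by
          have : (b : ℤ) + P * m = b + P * m' := h
          linarith
        exact mul_left_cancel₀ hP0 h2
      rw [← hinj]
      refine Nat.cast_le.2 (card_le_card ?_)
      intro n hn
      rw [Finset.mem_image] at hn
      obtain ⟨m, hm, rfl⟩ := hn
      obtain ⟨hmC, hmE⟩ := mem_filter.1 hm
      rw [hC, Finset.mem_filter, Finset.mem_Ioc] at hmC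
      obtain ⟨⟨hmA, hmB⟩, hm⟩ := hmC
      have hm1 : (M - b) / P < m := by
        have := Int.lt_floor_add_one ((M - b) / P)
        have h2 : ((⌊(M - b) / P⌋ : ℤ) : ℝ) + 1 ≤ m := by exact_mod_cast hmA
        linarith
      have hm2 : (m : ℝ) ≤ (M + X - b) / P := by
        have := Int.floor_le ((M + X - b) / P)
        have h2 : (m : ℝ) ≤ ((⌊(M + X - b) / P⌋ : ℤ) : ℝ) := by exact_mod_cast hmB
        linarith
      rw [div_lt_iff₀ hPr] at hm1
      rw [le_div_iff₀ hPr] at hm2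
      rw [hR, Finset.mem_filter, Set.Finite.mem_toFinset]
      refine ⟨⟨?_, ?_, ?_, ?_⟩, ⟨m, by ring⟩⟩
      · push_cast
        linarith
      · push_cast
        linarith
      · intro p hpE hpd
        have hpp := hEp p hpE
        by_cases hpx : (p : ℝ) ≤ x
        · have hpP : p ∣ P := (hpp.dvd_primorial_iff).2 ((hfloor p).2 hpx)
          have h3 : (p : ℤ) ∣ (P : ℤ) * m := Dvd.dvd.mul_right (by exact_mod_cast hpP) _
          have h4 : (p : ℤ) ∣ (b : ℤ) := by
            have := dvd_sub hpd h3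
            have e : (b : ℤ) + P * m - P * m = b := by ring
            rwa [e] at this
          exact hb p hpp hpx (Nat.dvd_of_mem_primeFactors hpE) (by exact_mod_cast h4)
        · exact hmE p hpE (not_le.1 hpx) hpd
      · intro k hkN
        by_cases hkU : k ∈ U
        · obtain ⟨p, hp, hp1, hp2, hpE, hp3⟩ := hm ⟨k, hkU⟩
          refine ⟨p, hp, hp2.trans hy, hpE, ?_⟩
          have e : (b : ℤ) + P * m + k * d = (P : ℤ) * m + ((b : ℤ) + (k : ℤ) * d) := by ring
          rw [e]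
          exact hp3
        · have hkU' : ¬ P.Coprime (b + k * d) := fun h =>
            hkU (mem_filter.2 ⟨mem_range.2 hkN, h⟩)
          rw [Nat.Prime.not_coprime_iff_dvd] at hkU'
          obtain ⟨p, hp, hp1, hp2⟩ := hkU'
          have hpx : (p : ℝ) ≤ x := (hfloor p).1 ((hp.dvd_primorial_iff).1 hp1)
          refine ⟨p, hp, hpx.trans hxy, ?_, ?_⟩
          · intro hpE
            have hpd := Nat.dvd_of_mem_primeFactors hpE
            have h5 : p ∣ b := by
              have h6 : p ∣ k * d := Dvd.dvd.mul_left hpd k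
              exact (Nat.dvd_add_left h6).1 hp2
            exact hb p hp hpx hpd h5
          · have h3 : (p : ℤ) ∣ (P : ℤ) * m := Dvd.dvd.mul_right (by exact_mod_cast hp1) _
            have h4 : (p : ℤ) ∣ (b : ℤ) + k * d := by exact_mod_cast hp2
            have h5 : (b : ℤ) + P * m + k * d = ((b : ℤ) + k * d) + P * m := by ring
            rw [h5]
            exact dvd_add h4 h3
    have h2 : (((E.filter (fun p : ℕ => x < p)).biUnion (fun p =>
          (Ioc A' B').filter (fun m : ℤ => (p : ℤ) ∣ (b : ℤ) + P * m))).card : ℝ) ≤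
        ω * ((X / (P : ℝ) + 1) / x + 1) := by
      refine le_trans (Nat.cast_le.2 card_biUnion_le) ?_
      push_cast
      calc ∑ p ∈ E.filter (fun p : ℕ => x < p),
            (((Ioc A' B').filter (fun m : ℤ => (p : ℤ) ∣ (b : ℤ) + P * m)).card : ℝ)
          ≤ ∑ _p ∈ E.filter (fun p : ℕ => x < p), ((X / (P : ℝ) + 1) / x + 1) := by
            apply Finset.sum_le_sum
            intro p hp
            obtain ⟨hpE, hpx⟩ := mem_filter.1 hp
            have hpp := hEp p hpE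
            have hpP : ¬ (p : ℤ) ∣ (P : ℤ) := by
              intro h
              exact hndvdP p hpp hpx (by exact_mod_cast h)
            obtain ⟨i, hi⟩ := inv_ex hpp hpP
            have hsub2 : (Ioc A' B').filter (fun m : ℤ => (p : ℤ) ∣ (b : ℤ) + P * m) ⊆
                (Ioc A' B').filter (fun m : ℤ => (p : ℤ) ∣ m - (-(b * i))) := by
              intro m hm
              obtain ⟨hm1, hm2⟩ := mem_filter.1 hm
              refine mem_filter.2 ⟨hm1, ?_⟩
              obtain ⟨s, hs⟩ := hm2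
              obtain ⟨v, hv⟩ := hi
              refine ⟨s * i - m * v, ?_⟩
              linear_combination i * hs - m * hv
            refine le_trans (Nat.cast_le.2 (card_le_card hsub2)) ?_
            refine (cnt_class A' B' _ p hpp.pos hAB).trans ?_
            have e1 : ((B' : ℝ) - A') / p ≤ ((B' : ℝ) - A') / x :=
              div_le_div_of_nonneg_left hD0 hx0 hpx.le
            have e2 : ((B' : ℝ) - A') / x ≤ (X / (P : ℝ) + 1) / x :=
              div_le_div_of_nonneg_right hBA2 hx0.le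
            linarith
        _ = ((E.filter (fun p : ℕ => x < p)).card : ℝ) * ((X / (P : ℝ) + 1) / x + 1) := by
            rw [Finset.sum_const, nsmul_eq_mul]
        _ ≤ ω * ((X / (P : ℝ) + 1) / x + 1) := by
            apply mul_le_mul_of_nonneg_right hω
            positivity
    refine le_trans (Nat.cast_le.2 (card_le_card hsub)) ?_
    refine le_trans (Nat.cast_le.2 (card_union_le _ _)) ?_
    push_cast
    linarith
  -- the first error
  have hE1 : ∑ p ∈ E.filter (fun p : ℕ => w < p), (Fintype.card U : ℝ) * (((B' : ℝ) - A') / p + 1) ≤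
      ω * (u * ((X / (P : ℝ) + 1) / w + 1)) := by
    have hcU : (Fintype.card U : ℝ) ≤ u := by
      rw [Fintype.card_coe]
      exact hu
    have hu0 : 0 ≤ u := le_trans (Nat.cast_nonneg _) hu
    have hD1 : 0 ≤ (X / (P : ℝ) + 1) / w + 1 := by positivity
    calc ∑ p ∈ E.filter (fun p : ℕ => w < p), (Fintype.card U : ℝ) * (((B' : ℝ) - A') / p + 1)
        ≤ ∑ _p ∈ E.filter (fun p : ℕ => w < p), u * ((X / (P : ℝ) + 1) / w + 1) := by
          apply Finset.sum_le_sum
          intro p hp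
          obtain ⟨hpE, hpw⟩ := mem_filter.1 hp
          have e1 : ((B' : ℝ) - A') / p ≤ ((B' : ℝ) - A') / w :=
            div_le_div_of_nonneg_left hD0 hw0 hpw.le
          have e2 : ((B' : ℝ) - A') / w ≤ (X / (P : ℝ) + 1) / w :=
            div_le_div_of_nonneg_right hBA2 hw0.le
          apply mul_le_mul hcU (by linarith) (by positivity) hu0
      _ = ((E.filter (fun p : ℕ => w < p)).card : ℝ) * (u * ((X / (P : ℝ) + 1) / w + 1)) := by
          rw [Finset.sum_const, nsmul_eq_mul]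
      _ ≤ ω * (u * ((X / (P : ℝ) + 1) / w + 1)) := by
          apply mul_le_mul_of_nonneg_right _ (by positivity)
          refine le_trans ?_ hω
          refine Nat.cast_le.2 (card_le_card ?_)
          intro p hp
          obtain ⟨hpE, hpw⟩ := mem_filter.1 hp
          exact mem_filter.2 ⟨hpE, lt_of_le_of_lt hxw hpw⟩
  linarith

end Pool.Agent.N837.LP
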