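import Pool.Agent.N837.LP.Gen

set_option autoImplicit false
set_option linter.unusedVariables false

/-! # One class modulo the primorial: families of linear forms -/

namespace Pool.Agent.N837.LP

open Finset

open scoped Classical

/-- the integers `n` in `(M, M + X]` prime to `D`, such that every `α i * n + β i` has a prime
factor at most `y` which does not divide `D` -/
def RG {ι : Type} (M X y : ℝ) (D : ℕ) (α β : ι → ℤ) : Set ℤ :=
  {n : ℤ | M < n ∧ (n : ℝ) ≤ M + X ∧ IsCoprime n (D : ℤ) ∧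
    ∀ i, ∃ p : ℕ, p.Prime ∧ (p : ℝ) ≤ y ∧ ¬ p ∣ D ∧ (p : ℤ) ∣ α i * n + β i}

theorem RG_finite {ι : Type} (M X y : ℝ) (D : ℕ) (α β : ι → ℤ) : (RG M X y D α β).Finite := by
  apply (Set.finite_Icc ⌊M⌋ ⌈M + X⌉).subset
  intro a ha
  obtain ⟨h1, h2, _⟩ := ha
  rw [Set.mem_Icc]
  constructor
  · have := Int.floor_le M
    have h3 : ((⌊M⌋ : ℤ) : ℝ) < a := by linarith
    exact_mod_cast h3.le
  · have := Int.le_ceil (M + X)
    have h3 : (a : ℝ) ≤ ((⌈M + X⌉ : ℤ) : ℝ) := by linarith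
    exact_mod_cast h3

theorem coprime_of_primes (n : ℤ) (D : ℕ) (hD : 0 < D)
    (h : ∀ p : ℕ, p.Prime → p ∣ D → ¬ (p : ℤ) ∣ n) : IsCoprime n (D : ℤ) := by
  rw [Int.isCoprime_iff_gcd_eq_one]
  by_contra hne
  obtain ⟨p, hp, hpd⟩ := Nat.exists_prime_and_dvd hne
  have h1 : (p : ℤ) ∣ n := (Int.natCast_dvd_natCast.2 hpd).trans (Int.gcd_dvd_left _ _)
  have h2 : (p : ℤ) ∣ (D : ℤ) := (Int.natCast_dvd_natCast.2 hpd).trans (Int.gcd_dvd_right _ _)
  exact h p hp (by exact_mod_cast h2) h1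

theorem clsG {ι : Type} [Fintype ι] (α β τ : ι → ℤ) (D b : ℕ) (hD : 0 < D) (E : Finset ℕ)
    (hEp : ∀ p ∈ E, p.Prime) (x w y₁ y₂ X M len Φ u ω ωE : ℝ) (hx0 : 0 < x) (hxw : x ≤ w)
    (hED : ∀ p : ℕ, p.Prime → w < p → p ∉ E → ¬ p ∣ D)
    (hEα : ∀ p : ℕ, p.Prime → w < p → p ∉ E → ∀ i, ¬ (p : ℤ) ∣ α i)
    (hEdet : ∀ p : ℕ, p.Prime → w < p → p ∉ E → ∀ i j, i ≠ j →
      ¬ (p : ℤ) ∣ α i * β j - α j * β i)
    (hτ : ∀ p : ℕ, w < p → ∀ i j, i ≠ j → ¬ (p : ℤ) ∣ τ i - τ j)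
    (hy : y₁ ≤ y₂) (hxy : x ≤ y₂) (hΦ : 0 ≤ Φ) (hX : 0 ≤ X)
    (hb : ∀ p : ℕ, p.Prime → (p : ℝ) ≤ x → p ∣ D → ¬ p ∣ b)
    (hu : (((univ : Finset ι).filter (fun i => ∀ p : ℕ, p.Prime → (p : ℝ) ≤ x → ¬ p ∣ D →
      ¬ (p : ℤ) ∣ α i * b + β i)).card : ℝ) ≤ u)
    (hω : (((D.primeFactors).filter (fun p : ℕ => x < p)).card : ℝ) ≤ ω)
    (hωE : ((E.filter (fun p : ℕ => w < p)).card : ℝ) ≤ ωE)
    (hcov : ∀ res : ℕ → ((univ : Finset ι).filter (fun i => ∀ p : ℕ, p.Prime → (p : ℝ) ≤ x →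
      ¬ p ∣ D → ¬ (p : ℤ) ∣ α i * b + β i)) → ℤ,
      (∀ p : ℕ, p.Prime → w < p → (p : ℝ) ≤ y₁ → ∀ k l, k ≠ l →
        ¬ ((p : ℤ) ∣ res p k - res p l)) →
      ∀ A B : ℤ, len ≤ (B : ℝ) - A →
      3 / 8 * ((B : ℝ) - A) ≤ (((Ioc A B).filter (fun x : ℤ => ∀ k, ∃ p : ℕ, p.Prime ∧
        w < p ∧ (p : ℝ) ≤ y₁ ∧ (p : ℤ) ∣ x - res p k)).card : ℝ) * Φ)
    (hlen : len ≤ X / (primorial ⌊x⌋₊ : ℝ) - 1) (hPX : (primorial ⌊x⌋₊ : ℝ) ≤ X) :
    3 / 8 * (X / (primorial ⌊x⌋₊ : ℝ) - 1) ≤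
      ((((RG_finite M X y₂ D α β).toFinset).filter
        (fun n : ℤ => ((primorial ⌊x⌋₊ : ℕ) : ℤ) ∣ n - b)).card +
        (ωE * (u * ((X / (primorial ⌊x⌋₊ : ℝ) + 1) / w + 1)) +
          ω * ((X / (primorial ⌊x⌋₊ : ℝ) + 1) / x + 1))) * Φ := by
  set P : ℕ := primorial ⌊x⌋₊ with hPdef
  have hPpos : 0 < P := primorial_pos _
  have hPr : (0 : ℝ) < P := by exact_mod_cast hPpos
  have hw0 : 0 < w := hx0.trans_le hxw
  have hfloor : ∀ p : ℕ, p ≤ ⌊x⌋₊ ↔ (p : ℝ) ≤ x := fun p => Nat.le_floor_iff hx0.le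
  have hndvdP : ∀ p : ℕ, p.Prime → x < p → ¬ p ∣ P := by
    intro p hp hpX h
    have := (hfloor p).1 ((hp.dvd_primorial_iff).1 h)
    linarith
  set U : Finset ι := (univ : Finset ι).filter (fun i => ∀ p : ℕ, p.Prime → (p : ℝ) ≤ x →
      ¬ p ∣ D → ¬ (p : ℤ) ∣ α i * b + β i) with hU
  set A' : ℤ := ⌊(M - b) / P⌋ with hA'
  set B' : ℤ := ⌊(M + X - b) / P⌋ with hB'
  have hsplit : (M + X - b) / P = (M - b) / P + X / P := by
    field_simp
    ring
  have hBA : X / (P : ℝ) - 1 ≤ (B' : ℝ) - A' := by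
    have e1 := Int.floor_le ((M - b) / P)
    have e2 := Int.lt_floor_add_one ((M + X - b) / P)
    linarith
  have hBA2 : (B' : ℝ) - A' ≤ X / (P : ℝ) + 1 := by
    have e1 := Int.lt_floor_add_one ((M - b) / P)
    have e2 := Int.floor_le ((M + X - b) / P)
    linarith
  have hAB : A' ≤ B' := by
    have h1 : (1 : ℝ) ≤ X / P := by
      rw [le_div_iff₀ hPr]
      linarith
    have h2 : (A' : ℝ) ≤ B' := by linarith
    exact_mod_cast h2
  have hgen := gen_class (κ := U) (fun i => α i * (P : ℤ)) (fun i => α i * b + β i)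
    (fun i => τ i) E w y₁ len Φ hEp hΦ hcov
    (by
      intro p hp hp1 _ hpE k h
      have hpi : Prime (p : ℤ) := Nat.prime_iff_prime_int.1 hp
      rcases hpi.dvd_or_dvd h with h | h
      · exact hEα p hp hp1 hpE k h
      · exact hndvdP p hp (lt_of_le_of_lt hxw hp1) (by exact_mod_cast h))
    (by
      intro p hp hp1 hp2 hpE k l hkl h
      have hpi : Prime (p : ℤ) := Nat.prime_iff_prime_int.1 hp
      have e1 : α k * (P : ℤ) * (α l * b + β l) - α l * (P : ℤ) * (α k * b + β k) =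
          (P : ℤ) * (α k * β l - α l * β k) := by ring
      rw [e1] at h
      rcases hpi.dvd_or_dvd h with h | h
      · exact hndvdP p hp (lt_of_le_of_lt hxw hp1) (by exact_mod_cast h)
      · exact hEdet p hp hp1 hpE k l (fun e => hkl (Subtype.ext e)) h)
    (fun p hp hp1 k l hkl => hτ p hp1 k l (fun e => hkl (Subtype.ext e)))
    A' B' hAB (hlen.trans hBA)
  have h38 : 3 / 8 * (X / (P : ℝ) - 1) ≤ 3 / 8 * ((B' : ℝ) - A') := by linarith
  refine h38.trans (hgen.trans (mul_le_mul_of_nonneg_right ?_ hΦ))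
  set C : Finset ℤ := (Ioc A' B').filter (fun m : ℤ => ∀ k : U, ∃ p : ℕ, p.Prime ∧
      w < p ∧ (p : ℝ) ≤ y₁ ∧ p ∉ E ∧ (p : ℤ) ∣ α k * (P : ℤ) * m + (α k * b + β k)) with hC
  set R : Finset ℤ := ((RG_finite M X y₂ D α β).toFinset).filter
        (fun n : ℤ => ((P : ℕ) : ℤ) ∣ n - b) with hR
  have hD0 : 0 ≤ (B' : ℝ) - A' := by
    have : (A' : ℝ) ≤ B' := by exact_mod_cast hAB
    linarith
  -- the second error
  have hCR : (C.card : ℝ) ≤ R.card + ω * ((X / (P : ℝ) + 1) / x + 1) := by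
    have hsub : C ⊆ (C.filter (fun m => ∀ p ∈ D.primeFactors, x < p → ¬ (p : ℤ) ∣ (b : ℤ) + P * m)) ∪
        (D.primeFactors.filter (fun p : ℕ => x < p)).biUnion (fun p =>
          (Ioc A' B').filter (fun m : ℤ => (p : ℤ) ∣ (b : ℤ) + P * m)) := by
      intro m hm
      rw [mem_union]
      by_cases hbad : ∃ p ∈ D.primeFactors, x < p ∧ (p : ℤ) ∣ (b : ℤ) + P * m
      · right
        obtain ⟨p, hpE, hpx, hpd⟩ := hbad
        rw [mem_biUnion]
        exact ⟨p, mem_filter.2 ⟨hpE, hpx⟩, mem_filter.2 ⟨(mem_filter.1 hm).1, hpd⟩⟩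
      · left
        rw [mem_filter]
        refine ⟨hm, fun p hp hpx hpd => hbad ⟨p, hp, hpx, hpd⟩⟩
    have h1 : ((C.filter (fun m => ∀ p ∈ D.primeFactors, x < p →
        ¬ (p : ℤ) ∣ (b : ℤ) + P * m)).card : ℝ) ≤ R.card := by
      have hinj : ((C.filter (fun m => ∀ p ∈ D.primeFactors, x < p →
          ¬ (p : ℤ) ∣ (b : ℤ) + P * m)).image (fun m : ℤ => (b : ℤ) + P * m)).card =
          (C.filter (fun m => ∀ p ∈ D.primeFactors, x < p → ¬ (p : ℤ) ∣ (b : ℤ) + P * m)).card := by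
        apply Finset.card_image_of_injective
        intro m m' h
        have hP0 : (P : ℤ) ≠ 0 := by exact_mod_cast hPpos.ne'
        have h2 : (P : ℤ) * m = P * m' := by
          have : (b : ℤ) + P * m = b + P * m' := h
          linarith
        exact mul_left_cancel₀ hP0 h2
      rw [← hinj]
      refine Nat.cast_le.2 (card_le_card ?_)
      intro n hn
      rw [Finset.mem_image] at hn
      obtain ⟨m, hm, rfl⟩ := hn
      obtain ⟨hmC, hmE⟩ := mem_filter.1 hm
      rw [hC, Finset.mem_filter, Finset.mem_Ioc] at hmC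
      obtain ⟨⟨hmA, hmB⟩, hm⟩ := hmC
      have hm1 : (M - b) / P < m := by
        have := Int.lt_floor_add_one ((M - b) / P)
        have h2 : ((⌊(M - b) / P⌋ : ℤ) : ℝ) + 1 ≤ m := by exact_mod_cast hmA
        linarith
      have hm2 : (m : ℝ) ≤ (M + X - b) / P := by
        have := Int.floor_le ((M + X - b) / P)
        have h2 : (m : ℝ) ≤ ((⌊(M + X - b) / P⌋ : ℤ) : ℝ) := by exact_mod_cast hmB
        linarith
      rw [div_lt_iff₀ hPr] at hm1
      rw [le_div_iff₀ hPr] at hm2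
      rw [hR, Finset.mem_filter, Set.Finite.mem_toFinset]
      refine ⟨⟨?_, ?_, ?_, ?_⟩, ⟨m, by ring⟩⟩
      · push_cast
        linarith
      · push_cast
        linarith
      · apply coprime_of_primes _ _ hD
        intro p hpp hpD hpd
        by_cases hpx : (p : ℝ) ≤ x
        · have hpP : p ∣ P := (hpp.dvd_primorial_iff).2 ((hfloor p).2 hpx)
          have h3 : (p : ℤ) ∣ (P : ℤ) * m := Dvd.dvd.mul_right (by exact_mod_cast hpP) _
          have h4 : (p : ℤ) ∣ (b : ℤ) := by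
            have := dvd_sub hpd h3
            have e : (b : ℤ) + P * m - P * m = b := by ring
            rwa [e] at this
          exact hb p hpp hpx hpD (by exact_mod_cast h4)
        · exact hmE p (Nat.mem_primeFactors.2 ⟨hpp, hpD, hD.ne'⟩) (not_le.1 hpx) hpd
      · intro i
        by_cases hkU : i ∈ U
        · obtain ⟨p, hp, hp1, hp2, hpE, hp3⟩ := hm ⟨i, hkU⟩
          refine ⟨p, hp, hp2.trans hy, hED p hp hp1 hpE, ?_⟩
          have e : α i * ((b : ℤ) + P * m) + β i = α i * (P : ℤ) * m + (α i * b + β i) := by ring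
          rw [e]
          exact hp3
        · rw [hU, mem_filter] at hkU
          push Not at hkU
          obtain ⟨p, hp, hpx, hpD, hpd⟩ := hkU (mem_univ _)
          have hpP : p ∣ P := (hp.dvd_primorial_iff).2 ((hfloor p).2 hpx)
          refine ⟨p, hp, hpx.trans hxy, hpD, ?_⟩
          have h3 : (p : ℤ) ∣ (P : ℤ) * (α i * m) := Dvd.dvd.mul_right (by exact_mod_cast hpP) _
          have h5 : α i * ((b : ℤ) + P * m) + β i = (α i * b + β i) + P * (α i * m) := by ring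
          rw [h5]
          exact dvd_add hpd h3
    have h2 : (((D.primeFactors.filter (fun p : ℕ => x < p)).biUnion (fun p =>
          (Ioc A' B').filter (fun m : ℤ => (p : ℤ) ∣ (b : ℤ) + P * m))).card : ℝ) ≤
        ω * ((X / (P : ℝ) + 1) / x + 1) := by
      refine le_trans (Nat.cast_le.2 card_biUnion_le) ?_
      push_cast
      calc ∑ p ∈ D.primeFactors.filter (fun p : ℕ => x < p),
            (((Ioc A' B').filter (fun m : ℤ => (p : ℤ) ∣ (b : ℤ) + P * m)).card : ℝ)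
          ≤ ∑ _p ∈ D.primeFactors.filter (fun p : ℕ => x < p), ((X / (P : ℝ) + 1) / x + 1) := by
            apply Finset.sum_le_sum
            intro p hp
            obtain ⟨hpE, hpx⟩ := mem_filter.1 hp
            have hpp := Nat.prime_of_mem_primeFactors hpE
            have hpP : ¬ (p : ℤ) ∣ (P : ℤ) := by
              intro h
              exact hndvdP p hpp hpx (by exact_mod_cast h)
            obtain ⟨i, hi⟩ := inv_ex hpp hpP
            have hsub2 : (Ioc A' B').filter (fun m : ℤ => (p : ℤ) ∣ (b : ℤ) + P * m) ⊆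
                (Ioc A' B').filter (fun m : ℤ => (p : ℤ) ∣ m - (-(b * i))) := by
              intro m hm
              obtain ⟨hm1, hm2⟩ := mem_filter.1 hm
              refine mem_filter.2 ⟨hm1, ?_⟩
              obtain ⟨s, hs⟩ := hm2
              obtain ⟨v, hv⟩ := hi
              refine ⟨s * i - m * v, ?_⟩
              linear_combination i * hs - m * hv
            refine le_trans (Nat.cast_le.2 (card_le_card hsub2)) ?_
            refine (cnt_class A' B' _ p hpp.pos hAB).trans ?_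
            have e1 : ((B' : ℝ) - A') / p ≤ ((B' : ℝ) - A') / x :=
              div_le_div_of_nonneg_left hD0 hx0 hpx.le
            have e2 : ((B' : ℝ) - A') / x ≤ (X / (P : ℝ) + 1) / x :=
              div_le_div_of_nonneg_right hBA2 hx0.le
            linarith
        _ = ((D.primeFactors.filter (fun p : ℕ => x < p)).card : ℝ) *
              ((X / (P : ℝ) + 1) / x + 1) := by
            rw [Finset.sum_const, nsmul_eq_mul]
        _ ≤ ω * ((X / (P : ℝ) + 1) / x + 1) := by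
            apply mul_le_mul_of_nonneg_right hω
            positivity
    refine le_trans (Nat.cast_le.2 (card_le_card hsub)) ?_
    refine le_trans (Nat.cast_le.2 (card_union_le _ _)) ?_
    push_cast
    linarith
  -- the first error
  have hE1 : ∑ p ∈ E.filter (fun p : ℕ => w < p), (Fintype.card U : ℝ) * (((B' : ℝ) - A') / p + 1) ≤
      ωE * (u * ((X / (P : ℝ) + 1) / w + 1)) := by
    have hcU : (Fintype.card U : ℝ) ≤ u := by
      rw [Fintype.card_coe]
      exact hu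
    have hu0 : 0 ≤ u := le_trans (Nat.cast_nonneg _) hu
    have hD1 : 0 ≤ (X / (P : ℝ) + 1) / w + 1 := by positivity
    calc ∑ p ∈ E.filter (fun p : ℕ => w < p), (Fintype.card U : ℝ) * (((B' : ℝ) - A') / p + 1)
        ≤ ∑ _p ∈ E.filter (fun p : ℕ => w < p), u * ((X / (P : ℝ) + 1) / w + 1) := by
          apply Finset.sum_le_sum
          intro p hp
          obtain ⟨hpE, hpw⟩ := mem_filter.1 hp
          have e1 : ((B' : ℝ) - A') / p ≤ ((B' : ℝ) - A') / w :=
            div_le_div_of_nonneg_left hD0 hw0 hpw.le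
          have e2 : ((B' : ℝ) - A') / w ≤ (X / (P : ℝ) + 1) / w :=
            div_le_div_of_nonneg_right hBA2 hw0.le
          apply mul_le_mul hcU (by linarith) (by positivity) hu0
      _ = ((E.filter (fun p : ℕ => w < p)).card : ℝ) * (u * ((X / (P : ℝ) + 1) / w + 1)) := by
          rw [Finset.sum_const, nsmul_eq_mul]
      _ ≤ ωE * (u * ((X / (P : ℝ) + 1) / w + 1)) :=
          mul_le_mul_of_nonneg_right hωE (by positivity)
  linarith

end Pool.Agent.N837.LP
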