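import Pool.Agent.N837.LP.SumA

set_option autoImplicit false
set_option linter.unusedVariables false

/-! # The exceptional primes of a family of linear forms -/

namespace Pool.Agent.N837.LP

open Finset

open scoped Classical

/-- the product of `D`, the leading coefficients and the determinants -/
noncomputable def Nall {ι : Type} [Fintype ι] (D : ℕ) (α β : ι → ℤ) : ℕ :=
  D * (∏ i, (α i).natAbs) *
    ∏ z ∈ (univ : Finset ι).offDiag, (α z.1 * β z.2 - α z.2 * β z.1).natAbs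

variable {ι : Type} [Fintype ι] (D : ℕ) (α β : ι → ℤ)

theorem Nall_pos (hD : 0 < D) (hα : ∀ i, α i ≠ 0)
    (hdet : ∀ i j, i ≠ j → α i * β j - α j * β i ≠ 0) : 0 < Nall D α β := by
  unfold Nall
  apply Nat.mul_pos
  · apply Nat.mul_pos hD
    exact Finset.prod_pos fun i _ => Int.natAbs_pos.2 (hα i)
  · apply Finset.prod_pos
    intro z hz
    exact Int.natAbs_pos.2 (hdet z.1 z.2 (mem_offDiag.1 hz).2.2)

theorem dvd_Nall_D : D ∣ Nall D α β := by
  unfold Nall
  exact Dvd.dvd.mul_right (Dvd.intro _ rfl) _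

theorem dvd_Nall_α (i : ι) : (α i).natAbs ∣ Nall D α β := by
  unfold Nall
  apply Dvd.dvd.mul_right
  apply Dvd.dvd.mul_left
  exact Finset.dvd_prod_of_mem (fun i => (α i).natAbs) (mem_univ i)

theorem dvd_Nall_det (i j : ι) (h : i ≠ j) :
    (α i * β j - α j * β i).natAbs ∣ Nall D α β := by
  unfold Nall
  apply Dvd.dvd.mul_left
  exact Finset.dvd_prod_of_mem (fun z : ι × ι => (α z.1 * β z.2 - α z.2 * β z.1).natAbs)
    (mem_offDiag.2 ⟨mem_univ i, mem_univ j, h⟩ : (i, j) ∈ (univ : Finset ι).offDiag)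

theorem log_Nall_le (X K C L : ℝ) (hX : 1 ≤ X) (hL : L = Real.log X) (hL1 : 1 ≤ L)
    (hK : 0 ≤ K) (hC : 0 ≤ C) (hD : 0 < D) (hα : ∀ i, α i ≠ 0)
    (hdet : ∀ i j, i ≠ j → α i * β j - α j * β i ≠ 0)
    (hDX : (D : ℝ) ≤ X ^ C) (hαX : ∀ i, |(α i : ℝ)| ≤ X ^ C) (hβX : ∀ i, |(β i : ℝ)| ≤ X ^ C)
    (hm : (Fintype.card ι : ℝ) ≤ K * L) :
    Real.log (Nall D α β) ≤ (C + K * C + K ^ 2 * (2 * C + 1)) * L ^ 3 := by
  have hX0 : 0 < X := by linarith
  have hlogXC : Real.log (X ^ C) = C * L := by rw [Real.log_rpow hX0, hL]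
  have hXC0 : 0 < X ^ C := Real.rpow_pos_of_pos hX0 _
  have hCL : 0 ≤ C * L := by positivity
  have h1 : Real.log D ≤ C * L := by
    rw [← hlogXC]
    exact Real.log_le_log (by exact_mod_cast hD) hDX
  have hna : ∀ i, (0:ℝ) < ((α i).natAbs : ℝ) := fun i => by
    exact_mod_cast Int.natAbs_pos.2 (hα i)
  have h2 : ∀ i, Real.log ((α i).natAbs : ℝ) ≤ C * L := by
    intro i
    rw [← hlogXC]
    apply Real.log_le_log (hna i)
    rw [Nat.cast_natAbs, Int.cast_abs]
    exact hαX i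
  have hnd : ∀ z ∈ (univ : Finset ι).offDiag,
      (0:ℝ) < ((α z.1 * β z.2 - α z.2 * β z.1).natAbs : ℝ) := by
    intro z hz
    exact_mod_cast Int.natAbs_pos.2 (hdet z.1 z.2 (mem_offDiag.1 hz).2.2)
  have h3 : ∀ z ∈ (univ : Finset ι).offDiag,
      Real.log ((α z.1 * β z.2 - α z.2 * β z.1).natAbs : ℝ) ≤ 2 * C * L + 1 := by
    intro z hz
    have e1 : ((α z.1 * β z.2 - α z.2 * β z.1).natAbs : ℝ) ≤ 2 * (X ^ C * X ^ C) := by
      rw [Nat.cast_natAbs, Int.cast_abs]
      push_cast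
      calc |(α z.1 : ℝ) * β z.2 - α z.2 * β z.1| ≤ |(α z.1 : ℝ) * β z.2| + |(α z.2 : ℝ) * β z.1| :=
            abs_sub _ _
        _ = |(α z.1 : ℝ)| * |(β z.2 : ℝ)| + |(α z.2 : ℝ)| * |(β z.1 : ℝ)| := by
            rw [abs_mul, abs_mul]
        _ ≤ X ^ C * X ^ C + X ^ C * X ^ C := by
            apply add_le_add
            · exact mul_le_mul (hαX _) (hβX _) (abs_nonneg _) hXC0.le
            · exact mul_le_mul (hαX _) (hβX _) (abs_nonneg _) hXC0.le
        _ = 2 * (X ^ C * X ^ C) := by ring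
    calc Real.log ((α z.1 * β z.2 - α z.2 * β z.1).natAbs : ℝ)
        ≤ Real.log (2 * (X ^ C * X ^ C)) := Real.log_le_log (hnd z hz) e1
      _ = Real.log 2 + (C * L + C * L) := by
          rw [Real.log_mul (by norm_num) (by positivity), Real.log_mul hXC0.ne' hXC0.ne', hlogXC]
      _ ≤ 2 * C * L + 1 := by
          have := Real.log_two_lt_d9
          linarith
  have h4 : Real.log (Nall D α β) = Real.log D + (∑ i, Real.log ((α i).natAbs : ℝ)) +
      ∑ z ∈ (univ : Finset ι).offDiag,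
        Real.log ((α z.1 * β z.2 - α z.2 * β z.1).natAbs : ℝ) := by
    unfold Nall
    push_cast
    have p1 : (∏ i, ((α i).natAbs : ℝ)) ≠ 0 := Finset.prod_ne_zero_iff.2 fun i _ => (hna i).ne'
    have p2 : (∏ z ∈ (univ : Finset ι).offDiag,
        ((α z.1 * β z.2 - α z.2 * β z.1).natAbs : ℝ)) ≠ 0 :=
      Finset.prod_ne_zero_iff.2 fun z hz => (hnd z hz).ne'
    have p3 : (D : ℝ) ≠ 0 := by exact_mod_cast hD.ne'
    rw [Real.log_mul (mul_ne_zero p3 p1) p2, Real.log_mul p3 p1,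
      Real.log_prod fun i _ => (hna i).ne', Real.log_prod fun z hz => (hnd z hz).ne']
  set m : ℝ := (Fintype.card ι : ℝ) with hmdef
  have hm0 : 0 ≤ m := Nat.cast_nonneg _
  have h5 : ∑ i, Real.log ((α i).natAbs : ℝ) ≤ m * (C * L) := by
    calc ∑ i, Real.log ((α i).natAbs : ℝ) ≤ ∑ _i : ι, C * L := Finset.sum_le_sum fun i _ => h2 i
      _ = m * (C * L) := by rw [Finset.sum_const, nsmul_eq_mul, card_univ]
  have h6 : ∑ z ∈ (univ : Finset ι).offDiag,
        Real.log ((α z.1 * β z.2 - α z.2 * β z.1).natAbs : ℝ) ≤ m ^ 2 * (2 * C * L + 1) := by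
    calc _ ≤ ∑ _z ∈ (univ : Finset ι).offDiag, (2 * C * L + 1) := Finset.sum_le_sum h3
      _ = ((univ : Finset ι).offDiag.card : ℝ) * (2 * C * L + 1) := by
          rw [Finset.sum_const, nsmul_eq_mul]
      _ ≤ m ^ 2 * (2 * C * L + 1) := by
          apply mul_le_mul_of_nonneg_right _ (by positivity)
          rw [offDiag_card, card_univ, pow_two]
          have : Fintype.card ι * Fintype.card ι - Fintype.card ι ≤
            Fintype.card ι * Fintype.card ι := Nat.sub_le _ _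
          rw [hmdef]
          exact_mod_cast this
  have h7 : m * (C * L) ≤ K * L * (C * L) := mul_le_mul_of_nonneg_right hm hCL
  have h8 : m ^ 2 * (2 * C * L + 1) ≤ (K * L) ^ 2 * ((2 * C + 1) * L) := by
    have e1 : m ^ 2 ≤ (K * L) ^ 2 := pow_le_pow_left₀ hm0 hm 2
    have e2 : 2 * C * L + 1 ≤ (2 * C + 1) * L := by nlinarith
    exact mul_le_mul e1 e2 (by positivity) (by positivity)
  have h9 : C * L ≤ C * L ^ 3 := by
    apply mul_le_mul_of_nonneg_left _ hC
    exact le_self_pow₀ hL1 (by norm_num)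
  have h10 : K * L * (C * L) ≤ K * C * L ^ 3 := by
    have : K * L * (C * L) = K * C * L ^ 2 := by ring
    rw [this]
    apply mul_le_mul_of_nonneg_left _ (by positivity)
    exact pow_le_pow_right₀ hL1 (by norm_num)
  rw [h4]
  have h11 : (K * L) ^ 2 * ((2 * C + 1) * L) = K ^ 2 * (2 * C + 1) * L ^ 3 := by ring
  rw [h11] at h8
  linarith

end Pool.Agent.N837.LP
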