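import Pool.Agent.Y831.RC5.Abund5

set_option autoImplicit false
set_option linter.unusedVariables false

/-! # Numerical conditions for large `L = log d` -/

namespace Pool.Agent.N837.LP

open Finset Filter Pool.Agent.H256R2.SC Pool.Agent.Y831.RC

theorem q_auxa (a A B l : ℝ) (hA : 0 < A) (h : l = A + -B) :
    a * l / A = a * (1 + (-B) / A) := by
  rw [h]
  field_simp

theorem ev_ratio (t a CR : ℝ) (ht : 0 < t) (ha : 1 ≤ a) :
    ∀ᶠ L : ℝ in atTop,
      (a * Real.log L) / Real.log (t / 8 * L) * Real.exp (CR / Real.log (t / 8 * L)) ≤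
        a * (1 + t) := by
  have t1 := Real.tendsto_log_atTop
  have a0 : Tendsto (fun L : ℝ => t / 8 * L) atTop atTop :=
    Filter.Tendsto.const_mul_atTop (by positivity) Filter.tendsto_id
  have a1 : Tendsto (fun L : ℝ => Real.log (t / 8 * L)) atTop atTop := t1.comp a0
  have a2 : Tendsto (fun L : ℝ => Real.exp (CR / Real.log (t / 8 * L))) atTop (nhds 1) := by
    have := (Real.continuous_exp.tendsto 0).comp (a1.const_div_atTop CR)
    rw [Real.exp_zero] at this
    exact this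
  have a3 : Tendsto (fun L : ℝ => 1 + (- Real.log (t / 8)) / Real.log (t / 8 * L)) atTop
      (nhds (1 + 0)) := tendsto_const_nhds.add (a1.const_div_atTop _)
  have a4 := (a3.const_mul a).mul a2
  have a5 : a * (1 + 0) * 1 < a * (1 + t) := by nlinarith
  have a6 := a4.eventually (gt_mem_nhds a5)
  filter_upwards [a6, eventually_gt_atTop (0:ℝ), a1.eventually_gt_atTop 0] with L hL hL0 hl0
  have e1 : Real.log L = Real.log (t / 8 * L) + -Real.log (t / 8) := by
    rw [Real.log_mul (by positivity) hL0.ne']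
    ring
  have e2 : a * Real.log L / Real.log (t / 8 * L) =
      a * (1 + (- Real.log (t / 8)) / Real.log (t / 8 * L)) := q_auxa a _ _ _ hl0 e1
  rw [e2]
  exact hL.le

/-- `WW` at `t L / 8` and at `L ^ a` -/
theorem ev_WW (t a : ℝ) (ht : 0 < t) (ht8 : t ≤ 1 / 8) (ha : 1 ≤ a) :
    ∀ᶠ L : ℝ in atTop, WW (t / 8 * L) ≤ a * (1 + t) * WW (L ^ a) := by
  obtain ⟨CR, hCR0, hWR⟩ := WW_ratio
  filter_upwards [ev_ratio t a CR ht ha, eventually_ge_atTop (16 / t), eventually_ge_atTop (1:ℝ)]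
    with L h1 h2 h3
  have hL0 : 0 < L := by linarith
  have hx : 2 ≤ t / 8 * L := by
    rw [div_le_iff₀ ht] at h2
    linarith
  have hxw : t / 8 * L ≤ L ^ a := by
    have e1 : t / 8 * L ≤ L := by nlinarith
    have e2 : L ≤ L ^ a := by
      calc L = L ^ (1:ℝ) := (Real.rpow_one L).symm
        _ ≤ L ^ a := Real.rpow_le_rpow_of_exponent_le h3 ha
    linarith
  have e1 := hWR _ _ hx hxw
  rw [Real.log_rpow hL0] at e1
  have e2 : WW (L ^ a) * (a * Real.log L / Real.log (t / 8 * L)) *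
      Real.exp (CR / Real.log (t / 8 * L)) =
      ((a * Real.log L) / Real.log (t / 8 * L) * Real.exp (CR / Real.log (t / 8 * L))) *
        WW (L ^ a) := by ring
  rw [e2] at e1
  exact e1.trans (mul_le_mul_of_nonneg_right h1 (WW_pos _).le)

/-- `L * WW (L ^ a)` is large -/
theorem ev_LW (a K : ℝ) (ha : 1 ≤ a) :
    ∀ᶠ L : ℝ in atTop, K ≤ L * WW (L ^ a) := by
  obtain ⟨c, C, hc, hcC, hWb⟩ := WW_bounds
  have h1 : ∀ᶠ L : ℝ in atTop, (K * a / c) * Real.log L ≤ L := by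
    have := (Real.isLittleO_log_id_atTop).def (show (0:ℝ) < 1 / (|K * a / c| + 1) by positivity)
    filter_upwards [this, eventually_ge_atTop (1:ℝ)] with L hL h1
    have hl := Real.log_nonneg h1
    rw [Real.norm_of_nonneg hl, id, Real.norm_of_nonneg (by linarith), div_mul_eq_mul_div,
      one_mul, le_div_iff₀ (by positivity)] at hL
    have e1 : K * a / c * Real.log L ≤ |K * a / c| * Real.log L :=
      mul_le_mul_of_nonneg_right (le_abs_self _) hl
    nlinarith
  filter_upwards [h1, eventually_ge_atTop (3:ℝ)] with L hL h3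
  have hL0 : 0 < L := by linarith
  have hw : L ≤ L ^ a := by
    calc L = L ^ (1:ℝ) := (Real.rpow_one L).symm
      _ ≤ L ^ a := Real.rpow_le_rpow_of_exponent_le (by linarith) ha
  obtain ⟨b1, _⟩ := hWb (L ^ a) (by linarith)
  rw [Real.log_rpow hL0] at b1
  have hl0 : 0 < Real.log L := Real.log_pos (by linarith)
  have hal : 0 < a * Real.log L := by positivity
  have b2 : c / (a * Real.log L) ≤ WW (L ^ a) := by
    rw [div_le_iff₀ hal]
    exact b1
  have b3 : L * (c / (a * Real.log L)) ≤ L * WW (L ^ a) := mul_le_mul_of_nonneg_left b2 hL0.le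
  refine le_trans ?_ b3
  rw [mul_div_assoc', le_div_iff₀ hal]
  have e1 : K * a / c * Real.log L * c ≤ L * c := mul_le_mul_of_nonneg_right hL hc.le
  have e2 : K * a / c * Real.log L * c = K * (a * Real.log L) := by field_simp
  linarith

theorem ev_A (t c lT e Φ a : ℝ) (ht : 0 < t) (ht8 : t ≤ 1 / 8) (hlT : 1 ≤ lT)
    (he : e = (1 - t) * lT) (he1 : 1 ≤ e) (hΦ : 1 ≤ Φ) (hc : 0 < c) (ha : a = 2 + t)
    (hcc : (1 + t) * c * (a * (1 + t)) + t ≤ (1 / 2 - 3 * t) * (1 - t)) :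
    ∃ L₀ : ℝ, ∀ L : ℝ, L₀ ≤ L →
      1 ≤ L ∧ 1 ≤ Real.log L ∧ 3 ≤ t / 8 * L ∧ lT ≤ Real.log L ∧
      c * L * lT + 1 ≤ L ^ a ∧ L ^ (1 + t) ≤ L ^ a ∧ L ^ a ≤ L ^ 8 ∧
      (1 + t) * (c * L * lT * WW (t / 8 * L) + 1) ≤ (1 / 2 - 3 * t) * (e * L * WW (L ^ a)) ∧
      Real.exp ((1 - t) * L) + 1 ≤ Real.exp ((1 - t / 4) * L) ∧
      Φ * (2 * e * L ^ 2 / L ^ a + (L / Real.log (t / 8 * L)) * (2 / (t / 8 * L))) ≤ 1 / 32 ∧
      Φ * (e * L ^ 2 + L) ≤ Real.exp ((1 - t / 4) * L) / 32 ∧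
      32 ≤ Real.exp ((1 - t / 4) * L) := by
  have t1 := Real.tendsto_log_atTop
  have h0 : ∀ᶠ L : ℝ in atTop, 1 ≤ L := eventually_ge_atTop _
  have h1 : ∀ᶠ L : ℝ in atTop, 1 ≤ Real.log L := t1.eventually_ge_atTop _
  have h2 : ∀ᶠ L : ℝ in atTop, 3 ≤ t / 8 * L := by
    filter_upwards [eventually_ge_atTop (24 / t)] with L hL
    rw [div_le_iff₀ ht] at hL
    linarith
  have h3 : ∀ᶠ L : ℝ in atTop, lT ≤ Real.log L := t1.eventually_ge_atTop _
  have h4 : ∀ᶠ L : ℝ in atTop, c * L * lT + 1 ≤ L ^ a := by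
    filter_upwards [eventually_ge_atTop (c * lT + 1), eventually_ge_atTop (1:ℝ)] with L hL hL1
    have e1 : L ^ (2:ℝ) ≤ L ^ a := Real.rpow_le_rpow_of_exponent_le hL1 (by linarith)
    rw [Real.rpow_two] at e1
    nlinarith
  have h5 : ∀ᶠ L : ℝ in atTop, L ^ (1 + t) ≤ L ^ a := by
    filter_upwards [eventually_ge_atTop (1:ℝ)] with L hL1
    exact Real.rpow_le_rpow_of_exponent_le hL1 (by linarith)
  have h6 : ∀ᶠ L : ℝ in atTop, L ^ a ≤ L ^ 8 := by
    filter_upwards [eventually_ge_atTop (1:ℝ)] with L hL1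
    calc L ^ a ≤ L ^ (8:ℝ) := Real.rpow_le_rpow_of_exponent_le hL1 (by linarith)
      _ = L ^ 8 := by norm_cast
  have ha1 : 1 ≤ a := by linarith
  have h7 : ∀ᶠ L : ℝ in atTop,
      (1 + t) * (c * L * lT * WW (t / 8 * L) + 1) ≤ (1 / 2 - 3 * t) * (e * L * WW (L ^ a)) := by
    filter_upwards [ev_WW t a ht ht8 ha1, ev_LW a ((1 + t) / t) ha1, eventually_ge_atTop (1:ℝ)]
      with L hL1 hL2 hL3
    have hW := WW_pos (L ^ a)
    have e1 : (1 + t) ≤ t * (L * WW (L ^ a)) := by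
      rw [div_le_iff₀ ht] at hL2
      linarith
    have e2 : t * (L * WW (L ^ a)) ≤ t * (lT * (L * WW (L ^ a))) := by
      apply mul_le_mul_of_nonneg_left _ ht.le
      have : 0 ≤ L * WW (L ^ a) := by positivity
      nlinarith
    have e3 : c * L * lT * WW (t / 8 * L) ≤ c * L * lT * (a * (1 + t) * WW (L ^ a)) :=
      mul_le_mul_of_nonneg_left hL1 (by positivity)
    have e4 : (1 + t) * (c * L * lT * WW (t / 8 * L)) ≤
        (1 + t) * (c * L * lT * (a * (1 + t) * WW (L ^ a))) :=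
      mul_le_mul_of_nonneg_left e3 (by linarith)
    have e5 : (1 + t) * (c * L * lT * (a * (1 + t) * WW (L ^ a))) =
        ((1 + t) * c * (a * (1 + t))) * (lT * (L * WW (L ^ a))) := by ring
    have e6 : 0 ≤ lT * (L * WW (L ^ a)) := by positivity
    have e7 := mul_le_mul_of_nonneg_right hcc e6
    have e8 : (1 / 2 - 3 * t) * (e * L * WW (L ^ a)) =
        (1 / 2 - 3 * t) * (1 - t) * (lT * (L * WW (L ^ a))) := by rw [he]; ring
    rw [e8]
    linarith
  have h8 : ∀ᶠ L : ℝ in atTop,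
      Real.exp ((1 - t) * L) + 1 ≤ Real.exp ((1 - t / 4) * L) := by
    have a0 : Tendsto (fun L : ℝ => 3 * t / 4 * L) atTop atTop :=
      Filter.Tendsto.const_mul_atTop (by positivity) Filter.tendsto_id
    have a1 := Real.tendsto_exp_atTop.comp a0
    filter_upwards [a1.eventually_ge_atTop 4, eventually_ge_atTop (0:ℝ)] with L hL hL0
    have e1 : Real.exp ((1 - t / 4) * L) = Real.exp ((1 - t) * L) * Real.exp (3 * t / 4 * L) := by
      rw [← Real.exp_add]; congr 1; ring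
    have e2 : 1 ≤ Real.exp ((1 - t) * L) := Real.one_le_exp (by
      have : 0 ≤ 1 - t := by linarith
      positivity)
    have e3 : 4 ≤ Real.exp (3 * t / 4 * L) := hL
    rw [e1]
    nlinarith
  have h9 : ∀ᶠ L : ℝ in atTop,
      Φ * (2 * e * L ^ 2 / L ^ a + (L / Real.log (t / 8 * L)) * (2 / (t / 8 * L))) ≤ 1 / 32 := by
    have b1 : Tendsto (fun L : ℝ => L ^ (-t)) atTop (nhds 0) := tendsto_rpow_neg_atTop ht
    have a0 : Tendsto (fun L : ℝ => t / 8 * L) atTop atTop :=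
      Filter.Tendsto.const_mul_atTop (by positivity) Filter.tendsto_id
    have a1 : Tendsto (fun L : ℝ => Real.log (t / 8 * L)) atTop atTop := t1.comp a0
    have b2 := a1.const_div_atTop (16 / t)
    have b3 := ((b1.const_mul (2 * e)).add b2).const_mul Φ
    have b4 : Φ * (2 * e * 0 + 0) < 1 / 32 := by norm_num
    filter_upwards [b3.eventually (gt_mem_nhds b4), eventually_gt_atTop (0:ℝ),
      a1.eventually_gt_atTop 0] with L hL hL0 hl0
    refine le_trans (le_of_eq ?_) hL.le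
    congr 1
    congr 1
    · have e1 : L ^ a = L ^ 2 * L ^ t := by
        rw [ha, Real.rpow_add hL0, Real.rpow_two]
      rw [e1, Real.rpow_neg hL0.le]
      field_simp
    · field_simp
      norm_num
  have h10 : ∀ᶠ L : ℝ in atTop, Φ * (e * L ^ 2 + L) ≤ Real.exp ((1 - t / 4) * L) / 32 := by
    have e1 := (Real.isLittleO_pow_exp_atTop (n := 2)).comp_tendsto
      (Filter.Tendsto.const_mul_atTop (show (0:ℝ) < 1 - t / 4 by linarith) Filter.tendsto_id)
    have e2 := e1.def (show (0:ℝ) < 1 / (128 * Φ * (e + 1)) by positivity)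
    filter_upwards [e2, eventually_ge_atTop (1:ℝ)] with L hL hL1
    have hL' : ‖((1 - t / 4) * L) ^ 2‖ ≤ 1 / (128 * Φ * (e + 1)) * ‖Real.exp ((1 - t / 4) * L)‖ := hL
    rw [Real.norm_of_nonneg (by positivity), Real.norm_of_nonneg (Real.exp_pos _).le,
      div_mul_eq_mul_div, one_mul, le_div_iff₀ (by positivity)] at hL'
    have e3 : L ^ 2 / 4 ≤ ((1 - t / 4) * L) ^ 2 := by
      rw [mul_pow]
      have : (1:ℝ) / 4 ≤ (1 - t / 4) ^ 2 := by nlinarith
      nlinarith [sq_nonneg L]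
    have e4 : e * L ^ 2 + L ≤ (e + 1) * L ^ 2 := by nlinarith
    have e5 : L ^ 2 / 4 * (128 * Φ * (e + 1)) ≤ Real.exp ((1 - t / 4) * L) :=
      (mul_le_mul_of_nonneg_right e3 (by positivity)).trans hL'
    have e6 : Φ * (e * L ^ 2 + L) ≤ Φ * ((e + 1) * L ^ 2) :=
      mul_le_mul_of_nonneg_left e4 (by linarith)
    have e7 : L ^ 2 / 4 * (128 * Φ * (e + 1)) = 32 * (Φ * ((e + 1) * L ^ 2)) := by ring
    linarith
  have h11 : ∀ᶠ L : ℝ in atTop, 32 ≤ Real.exp ((1 - t / 4) * L) :=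
    (Real.tendsto_exp_atTop.comp (Filter.Tendsto.const_mul_atTop
      (show (0:ℝ) < 1 - t / 4 by linarith) Filter.tendsto_id)).eventually_ge_atTop _
  exact Filter.eventually_atTop.1 (h0.and (h1.and (h2.and (h3.and (h4.and (h5.and (h6.and
    (h7.and (h8.and (h9.and (h10.and h11)))))))))))

end Pool.Agent.N837.LP
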