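import Mathlib

set_option autoImplicit false
set_option linter.unusedVariables false

/-! # First moments over the classes modulo the primorial -/

namespace Pool.Agent.N837.LP

open Finset

open scoped Classical

theorem cop_count (g m : ℕ) : ((range (g * m)).filter (fun b => g.Coprime b)).card =
    m * g.totient := by
  induction m with
  | zero => simp
  | succ m ih =>
    have h1 : range (g * (m + 1)) = range (g * m) ∪ Ico (g * m) (g * m + g) := by
      ext b
      rw [mem_union, mem_range, mem_range, mem_Ico, mul_add, mul_one]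
      omega
    have h2 : Disjoint ((range (g * m)).filter (fun b => g.Coprime b))
        ((Ico (g * m) (g * m + g)).filter (fun b => g.Coprime b)) := by
      rw [Finset.disjoint_left]
      intro b hb hb'
      rw [mem_filter, mem_range] at hb
      rw [mem_filter, mem_Ico] at hb'
      omega
    rw [h1, filter_union, card_union_of_disjoint h2, ih, Nat.filter_coprime_Ico_eq_totient]
    ring

/-- the density of the integers prime to `g` is at least that of the integers prime to a multiple -/
theorem totient_le_of_dvd {g n : ℕ} (hg : g ∣ n) : (n.totient : ℝ) * g ≤ (g.totient : ℝ) * n := by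
  obtain ⟨m, rfl⟩ := hg
  have h1 : (g * m).totient ≤ m * g.totient := by
    rw [← cop_count g m]
    have h2 : (g * m).totient = ((range (g * m)).filter (fun b => (g * m).Coprime b)).card := by
      rw [Nat.totient_eq_card_coprime]
    rw [h2]
    apply card_le_card
    intro b hb
    rw [mem_filter] at hb ⊢
    exact ⟨hb.1, Nat.Coprime.coprime_dvd_left (Dvd.intro m rfl) hb.2⟩
  have h3 : ((g * m).totient : ℝ) ≤ (m : ℝ) * g.totient := by exact_mod_cast h1
  push_cast
  nlinarith [Nat.cast_nonneg (α := ℝ) g, Nat.cast_nonneg (α := ℝ) m]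

theorem sumA (P N d : ℕ) (G₀ : Finset ℕ) (hG : G₀ ⊆ range P) :
    ∑ b ∈ G₀, ((range N).filter (fun k => P.Coprime (b + k * d))).card ≤ N * P.totient := by
  have h1 : ∀ b, ((range N).filter (fun k => P.Coprime (b + k * d))).card =
      ∑ k ∈ range N, if P.Coprime (b + k * d) then 1 else 0 := by
    intro b
    rw [Finset.card_filter]
  rw [Finset.sum_congr rfl fun b _ => h1 b, Finset.sum_comm]
  have h2 : ∀ k ∈ range N, ∑ b ∈ G₀, (if P.Coprime (b + k * d) then 1 else 0) ≤ P.totient := by
    intro k _
    refine le_trans (Finset.sum_le_sum_of_subset hG) ?_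
    rw [← Nat.filter_coprime_Ico_eq_totient P (k * d), ← Finset.card_filter]
    apply Finset.card_le_card_of_injOn (fun b => b + k * d)
    · intro b hb
      rw [Finset.mem_coe, Finset.mem_filter, Finset.mem_range] at hb
      rw [Finset.mem_coe, Finset.mem_filter, Finset.mem_Ico]
      have e : (fun b => b + k * d) b = b + k * d := rfl
      rw [e]
      exact ⟨⟨by omega, by omega⟩, hb.2⟩
    · intro b _ b' _ h
      have : b + k * d = b' + k * d := h
      omega
  refine le_trans (Finset.sum_le_sum h2) ?_
  rw [Finset.sum_const, card_range, smul_eq_mul]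

theorem good_cardG (G₀ : Finset ℕ) (f : ℕ → ℕ) (S t : ℝ) (ht : 0 < t) (hS : 0 < S)
    (hsum : ((∑ b ∈ G₀, f b : ℕ) : ℝ) ≤ G₀.card * S) :
    t / (1 + t) * G₀.card ≤ (G₀.filter (fun b => (f b : ℝ) ≤ (1 + t) * S)).card := by
  set G := G₀.filter (fun b => (f b : ℝ) ≤ (1 + t) * S) with hG
  set Bd := G₀.filter (fun b => ¬ (f b : ℝ) ≤ (1 + t) * S) with hBd
  have h1 : (G.card : ℝ) + Bd.card = G₀.card := by
    have := Finset.card_filter_add_card_filter_not (s := G₀)
      (fun b => (f b : ℝ) ≤ (1 + t) * S)
    exact_mod_cast this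
  have h2 : (Bd.card : ℝ) * ((1 + t) * S) ≤ G₀.card * S := by
    refine le_trans ?_ hsum
    push_cast
    calc (Bd.card : ℝ) * ((1 + t) * S) = ∑ _b ∈ Bd, (1 + t) * S := by
          rw [Finset.sum_const, nsmul_eq_mul]
      _ ≤ ∑ b ∈ Bd, (f b : ℝ) := by
          apply Finset.sum_le_sum
          intro b hb
          exact (not_le.1 (Finset.mem_filter.1 hb).2).le
      _ ≤ ∑ b ∈ G₀, (f b : ℝ) := by
          apply Finset.sum_le_sum_of_subset_of_nonneg (Finset.filter_subset _ _)
          intro b _ _
          positivity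
  have h3 : (Bd.card : ℝ) * (1 + t) ≤ G₀.card := by
    have e1 : ((Bd.card : ℝ) * (1 + t)) * S ≤ G₀.card * S := by linarith
    exact le_of_mul_le_mul_right e1 hS
  rw [div_mul_eq_mul_div, div_le_iff₀ (by linarith)]
  nlinarith

/-- few prime factors larger than `x` -/
theorem card_large_primes (d : ℕ) (hd : 0 < d) (x : ℝ) (hx : 1 < x) :
    (((d.primeFactors).filter (fun p : ℕ => x < p)).card : ℝ) ≤ Real.log d / Real.log x := by
  have hlx : 0 < Real.log x := Real.log_pos hx
  rw [le_div_iff₀ hlx]
  set E := (d.primeFactors).filter (fun p : ℕ => x < p) with hE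
  have h1 : ∏ p ∈ E, p ∣ d := by
    refine dvd_trans (Finset.prod_dvd_prod_of_subset _ _ _ (Finset.filter_subset _ _)) ?_
    exact Nat.prod_primeFactors_dvd d
  have h2 : ((∏ p ∈ E, p : ℕ) : ℝ) ≤ d := by exact_mod_cast Nat.le_of_dvd hd h1
  have h3 : ∑ p ∈ E, Real.log p ≤ Real.log d := by
    have e1 : Real.log ((∏ p ∈ E, p : ℕ) : ℝ) = ∑ p ∈ E, Real.log p := by
      push_cast
      rw [Real.log_prod]
      intro p hp
      have := (Nat.prime_of_mem_primeFactors (Finset.mem_filter.1 hp).1).pos
      positivity
    rw [← e1]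
    apply Real.log_le_log _ h2
    have : 0 < ∏ p ∈ E, p := by
      apply Finset.prod_pos
      intro p hp
      exact (Nat.prime_of_mem_primeFactors (Finset.mem_filter.1 hp).1).pos
    exact_mod_cast this
  refine le_trans ?_ h3
  rw [← nsmul_eq_mul, ← Finset.sum_const]
  apply Finset.sum_le_sum
  intro p hp
  exact Real.log_le_log (by linarith) (Finset.mem_filter.1 hp).2.le

end Pool.Agent.N837.LP
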