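import Pool.Agent.N837.LP.ClsA
import Pool.Agent.N837.LP.SumA
import Pool.Agent.N837.LP.LimA
import Pool.Agent.N837.LP.CovW

set_option autoImplicit false
set_option linter.unusedVariables false

/-! # Every modulus: a positive proportion of the classes has a large least prime -/

namespace Pool.Agent.N837.LP

open Finset Filter Pool.Agent.H256R2.SC Pool.Agent.Y831.RC

open scoped Classical

theorem err_bound (Q w x ω u e L Φ : ℝ) (hQ : 32 ≤ Q) (hL : 1 ≤ L) (he : 1 ≤ e) (hw : 0 < w)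
    (hx : 0 < x) (hΦ : 1 ≤ Φ) (hω0 : 0 ≤ ω) (hωL : ω ≤ L) (hu0 : 0 ≤ u) (hu : u ≤ e * L)
    (h1 : Φ * (2 * e * L ^ 2 / w + ω * (2 / x)) ≤ 1 / 32) (h2 : Φ * (e * L ^ 2 + L) ≤ Q / 32) :
    Q / 4 ≤ 3 / 8 * (Q - 1) - (ω * (u * ((Q + 1) / w + 1)) + ω * ((Q + 1) / x + 1)) * Φ := by
  have a1 : (Q + 1) / w ≤ 2 * Q / w := div_le_div_of_nonneg_right (by linarith) hw.le
  have a2 : (Q + 1) / x ≤ 2 * Q / x := div_le_div_of_nonneg_right (by linarith) hx.le
  have a3 : ω * u ≤ e * L ^ 2 := by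
    calc ω * u ≤ L * (e * L) := mul_le_mul hωL hu hu0 (by linarith)
      _ = e * L ^ 2 := by ring
  have a4 : ω * (u * ((Q + 1) / w + 1)) ≤ e * L ^ 2 * (2 * Q / w + 1) := by
    rw [← mul_assoc]
    apply mul_le_mul a3 (by linarith) (by positivity) (by positivity)
  have a5 : ω * ((Q + 1) / x + 1) ≤ ω * (2 * Q / x) + L := by
    have : ω * ((Q + 1) / x) ≤ ω * (2 * Q / x) := mul_le_mul_of_nonneg_left a2 hω0
    linarith
  have a6 : ω * (u * ((Q + 1) / w + 1)) + ω * ((Q + 1) / x + 1) ≤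
      Q * (2 * e * L ^ 2 / w + ω * (2 / x)) + (e * L ^ 2 + L) := by
    refine (add_le_add a4 a5).trans (le_of_eq ?_)
    field_simp
    ring
  have a7 := mul_le_mul_of_nonneg_right a6 (show 0 ≤ Φ by linarith)
  have a8 : (Q * (2 * e * L ^ 2 / w + ω * (2 / x)) + (e * L ^ 2 + L)) * Φ =
      Q * (Φ * (2 * e * L ^ 2 / w + ω * (2 / x))) + Φ * (e * L ^ 2 + L) := by ring
  rw [a8] at a7
  have a9 : Q * (Φ * (2 * e * L ^ 2 / w + ω * (2 / x))) ≤ Q * (1 / 32) :=
    mul_le_mul_of_nonneg_left h1 (by linarith)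
  linarith

theorem mainA (c δ : ℝ) (hc : 0 < c) (hc4 : c < 1 / 4) (hδ : 0 < δ) :
    ∃ T₀ : ℝ, ∀ T : ℝ, T₀ ≤ T → ∃ d₀ : ℕ, ∀ d : ℕ, d₀ ≤ d → ∀ M : ℝ,
      (d.totient : ℝ) * Real.exp (-T) ≤
        ((RA M d ((d : ℝ) ^ δ) d
          (⌊c * ((d.totient : ℝ) / d) * Real.log d * Real.log T⌋₊ + 1) d.primeFactors).ncard : ℝ) := by
  obtain ⟨t, ht, ht8, htδ, htc⟩ : ∃ t : ℝ, 0 < t ∧ t ≤ 1 / 8 ∧ t ≤ δ ∧
      (1 + t) * c * ((2 + t) * (1 + t)) + t ≤ (1 / 2 - 3 * t) * (1 - t) := by
    refine ⟨min (1 / 8) (min δ ((1 / 2 - 2 * c) / 6)), ?_, min_le_left _ _, ?_, ?_⟩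
    · exact lt_min (by norm_num) (lt_min hδ (by linarith))
    · exact (min_le_right _ _).trans (min_le_left _ _)
    · set t := min (1 / 8) (min δ ((1 / 2 - 2 * c) / 6)) with ht
      have h1 : t ≤ (1 / 2 - 2 * c) / 6 := (min_le_right _ _).trans (min_le_right _ _)
      have h2 : t ≤ 1 / 8 := min_le_left _ _
      have h3 : 0 < t := lt_min (by norm_num) (lt_min hδ (by linarith))
      have h4 : (1 + t) * ((2 + t) * (1 + t)) ≤ 2 + 6 * t := by nlinarith [sq_nonneg t]
      have h5 : (1 + t) * c * ((2 + t) * (1 + t)) ≤ c * (2 + 6 * t) := by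
        calc (1 + t) * c * ((2 + t) * (1 + t)) = c * ((1 + t) * ((2 + t) * (1 + t))) := by ring
          _ ≤ c * (2 + 6 * t) := mul_le_mul_of_nonneg_left h4 hc.le
      have h6 : c * (2 + 6 * t) ≤ 2 * c + 3 / 2 * t := by nlinarith
      have h7 : 1 / 2 - 7 / 2 * t ≤ (1 / 2 - 3 * t) * (1 - t) := by nlinarith
      linarith
  obtain ⟨e₀, X₁, hcov⟩ := covW t ht ht8
  obtain ⟨T₀, hT₀⟩ := ev_T5 t e₀ (Real.log (8 / t)) ht (by linarith)
  refine ⟨max T₀ (Real.exp 1), fun T hT => ?_⟩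
  have hTT₀ : T₀ ≤ T := (le_max_left _ _).trans hT
  have hTe : Real.exp 1 ≤ T := (le_max_right _ _).trans hT
  obtain ⟨g0, g1, g2, g3⟩ := hT₀ T hTT₀
  have hTpos : 0 < T := by linarith
  have hlT : 1 ≤ Real.log T := by
    rw [Real.le_log_iff_exp_le hTpos]
    exact hTe
  set lT := Real.log T with hlTdef
  set e := (1 - t) * lT with he
  set Φ := Real.exp (e ^ 2 * Real.exp e) with hΦdef
  have hΦ1 : 1 ≤ Φ := Real.one_le_exp (by positivity)
  have hΦ0 : 0 < Φ := by linarith
  obtain ⟨L₀, hL₀⟩ := ev_A t c lT e Φ (2 + t) ht ht8 hlT he g2 hΦ1 hc rfl htc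
  refine ⟨⌈max X₁ (Real.exp L₀)⌉₊ + 1, fun d hd M => ?_⟩
  have hdR : max X₁ (Real.exp L₀) ≤ d := by
    have h1 := Nat.le_ceil (max X₁ (Real.exp L₀))
    have h2 : ((⌈max X₁ (Real.exp L₀)⌉₊ : ℕ) : ℝ) ≤ d := by
      exact_mod_cast (Nat.le_succ _).trans hd
    exact h1.trans h2
  have hX1 : X₁ ≤ (d : ℝ) := (le_max_left _ _).trans hdR
  have hXe : Real.exp L₀ ≤ (d : ℝ) := (le_max_right _ _).trans hdR
  have hX0 : (0:ℝ) < d := lt_of_lt_of_le (Real.exp_pos _) hXe
  have hd0 : 0 < d := by exact_mod_cast hX0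
  have hLL : L₀ ≤ Real.log d := by
    rw [Real.le_log_iff_exp_le hX0]
    exact hXe
  obtain ⟨k0, k1, k2, k3, k4, k5, k6, k7, k8, k9, k10, k11⟩ := hL₀ (Real.log d) hLL
  have hXL : Real.exp (Real.log d) = d := Real.exp_log hX0
  set L := Real.log d with hL
  have hL0 : 0 < L := by linarith
  set x := t / 8 * L with hx
  have hx0 : 0 < x := by linarith
  set w := L ^ (2 + t) with hw
  have hw0 : 0 < w := Real.rpow_pos_of_pos hL0 _
  set P : ℕ := primorial ⌊x⌋₊ with hP
  have hPpos : 0 < P := primorial_pos _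
  have hPr : (0:ℝ) < P := by exact_mod_cast hPpos
  have hPx : (P:ℝ) ≤ Real.exp (t / 4 * L) := by
    refine (primorial_le_exp x hx0.le).trans ?_
    apply Real.exp_le_exp.2
    rw [hx]
    linarith
  have hQ : Real.exp ((1 - t / 4) * L) ≤ d / (P : ℝ) := by
    rw [le_div_iff₀ hPr]
    have e3 : Real.exp ((1 - t / 4) * L) * Real.exp (t / 4 * L) = d := by
      rw [← Real.exp_add, ← hXL]
      congr 1
      ring
    calc Real.exp ((1 - t / 4) * L) * P ≤ Real.exp ((1 - t / 4) * L) * Real.exp (t / 4 * L) :=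
          mul_le_mul_of_nonneg_left hPx (Real.exp_pos _).le
      _ = d := e3
  have hQ32 : 32 ≤ d / (P : ℝ) := k11.trans hQ
  have hPd : (P : ℝ) ≤ d := by
    have : (1:ℝ) ≤ d / P := by linarith
    rw [le_div_iff₀ hPr] at this
    linarith
  -- the classes
  set g := P.gcd d with hg
  have hgP : g ∣ P := Nat.gcd_dvd_left _ _
  have hgd : g ∣ d := Nat.gcd_dvd_right _ _
  have hgpos : 0 < g := Nat.gcd_pos_of_pos_left _ hPpos
  have hgr : (0:ℝ) < g := by exact_mod_cast hgpos
  set G₀ := (range P).filter (fun b => g.Coprime b) with hG₀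
  have hG₀c : (G₀.card : ℝ) * g = P * g.totient := by
    obtain ⟨m, hm⟩ := hgP
    have h1 : G₀.card = m * g.totient := by
      rw [hG₀, hm]
      exact cop_count g m
    rw [h1, hm]
    push_cast
    ring
  have hGd : (d.totient : ℝ) * P ≤ G₀.card * d := by
    have h1 := totient_le_of_dvd hgd
    have h2 : (d.totient : ℝ) * P * g ≤ G₀.card * d * g := by
      calc (d.totient : ℝ) * P * g = P * (d.totient * g) := by ring
        _ ≤ P * (g.totient * d) := mul_le_mul_of_nonneg_left h1 hPr.le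
        _ = (P * g.totient) * d := by ring
        _ = G₀.card * d * g := by rw [← hG₀c]; ring
    exact le_of_mul_le_mul_right h2 hgr
  have hGP : (P.totient : ℝ) ≤ G₀.card := by
    have h1 := totient_le_of_dvd hgP
    have h2 : (P.totient : ℝ) * g ≤ G₀.card * g := by
      rw [hG₀c]
      linarith
    exact le_of_mul_le_mul_right h2 hgr
  have hPtot : (P.totient : ℝ) = P * WW x := by
    rw [hP]
    exact tot_prim x
  have hPt0 : (0:ℝ) < P.totient := by exact_mod_cast Nat.totient_pos.2 hPpos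
  have hG₀pos : (0:ℝ) < G₀.card := lt_of_lt_of_le hPt0 hGP
  set J := c * ((d.totient : ℝ) / d) * L * lT with hJ
  have hJ0 : 0 ≤ J := by positivity
  set N := ⌊J⌋₊ + 1 with hN
  have hNJ : (N : ℝ) ≤ J + 1 := by
    rw [hN]
    push_cast
    linarith [Nat.floor_le hJ0]
  have hφd : (d.totient : ℝ) / d ≤ 1 := by
    rw [div_le_one hX0]
    exact_mod_cast Nat.totient_le d
  have hJle : J ≤ c * L * lT := by
    have : c * ((d.totient : ℝ) / d) * L * lT = (c * L * lT) * ((d.totient : ℝ) / d) := by ring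
    rw [hJ, this]
    exact mul_le_of_le_one_right (by positivity) hφd
  have hNw : (N : ℝ) ≤ w := hNJ.trans ((by linarith : J + 1 ≤ c * L * lT + 1).trans k4)
  have hNpos : (0:ℝ) < N := by
    rw [hN]
    push_cast
    positivity
  set S := (N : ℝ) * P.totient / G₀.card with hS
  have hS0 : 0 < S := by positivity
  set f : ℕ → ℕ := fun b => ((range N).filter (fun k => P.Coprime (b + k * d))).card with hf
  have hsum : ((∑ b ∈ G₀, f b : ℕ) : ℝ) ≤ G₀.card * S := by
    have h1 := sumA P N d G₀ (filter_subset _ _)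
    have h2 : ((∑ b ∈ G₀, f b : ℕ) : ℝ) ≤ ((N * P.totient : ℕ) : ℝ) := by exact_mod_cast h1
    refine h2.trans (le_of_eq ?_)
    rw [hS]
    push_cast
    field_simp
  have hSle : S ≤ c * L * lT * WW x + 1 := by
    rw [hS, div_le_iff₀ hG₀pos]
    have hW := WW_pos x
    have h1 : (N : ℝ) * P.totient ≤ (J + 1) * P.totient := mul_le_mul_of_nonneg_right hNJ hPt0.le
    have h2 : J * P.totient ≤ c * L * lT * WW x * G₀.card := by
      rw [hPtot, hJ]
      have h3 : c * ((d.totient : ℝ) / d) * L * lT * (P * WW x) =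
          (c * L * lT * WW x) * ((d.totient : ℝ) * P / d) := by
        field_simp
      rw [h3]
      apply mul_le_mul_of_nonneg_left _ (by positivity)
      rw [div_le_iff₀ hX0]
      exact hGd
    nlinarith
  have hgood := good_cardG G₀ f S t ht hS0 hsum
  set G := G₀.filter (fun b => (f b : ℝ) ≤ (1 + t) * S) with hG
  have hbound : (1 + t) * S ≤ (1 / 2 - 3 * t) * (e * L * WW w) :=
    (mul_le_mul_of_nonneg_left hSle (by linarith)).trans k7
  have hy : Real.exp (t ^ 2 * L / (100 * e)) ≤ (d : ℝ) ^ δ := by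
    rw [Real.rpow_def_of_pos hX0, mul_comm]
    apply Real.exp_le_exp.2
    have he0 : 0 < 100 * e := by linarith only [g2]
    rw [div_le_iff₀ he0]
    have e1 : t ^ 2 ≤ δ * (100 * e) := q_tδ ht ht8 htδ g2
    have e2 := mul_le_mul_of_nonneg_right e1 hL0.le
    linarith only [e2]
  have hxy : x ≤ (d : ℝ) ^ δ := by
    rw [Real.rpow_def_of_pos hX0, mul_comm]
    have e1 := Real.add_one_le_exp (δ * L)
    have e2 : x ≤ δ * L := by
      rw [hx]
      apply mul_le_mul_of_nonneg_right _ hL0.le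
      linarith only [htδ, ht]
    linarith only [e1, e2]
  have hxw : x ≤ w := by
    have e1 : x ≤ L := by
      rw [hx]
      nlinarith
    have e2 : L ≤ L ^ (1 + t) := by
      calc L = L ^ (1:ℝ) := (Real.rpow_one L).symm
        _ ≤ L ^ (1 + t) := Real.rpow_le_rpow_of_exponent_le k0 (by linarith only [ht])
    exact e1.trans (e2.trans k5)
  have hlx1 : 1 ≤ Real.log x := by
    rw [Real.le_log_iff_exp_le hx0]
    have := Real.exp_one_lt_d9
    linarith
  have hωL : L / Real.log x ≤ L := div_le_self hL0.le hlx1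
  have hlen : Real.exp ((1 - t) * L) ≤ (d : ℝ) / (P : ℝ) - 1 := by linarith only [k8, hQ]
  set R : Finset ℤ := (RA_finite M d ((d : ℝ) ^ δ) d N d.primeFactors).toFinset with hR
  set v := 3 / 8 * ((d : ℝ) / P - 1) - (L / Real.log x * (e * L * (((d : ℝ) / P + 1) / w + 1)) +
      L / Real.log x * (((d : ℝ) / P + 1) / x + 1)) * Φ with hv
  have hv4 : (d : ℝ) / P / 4 ≤ v :=
    err_bound ((d : ℝ) / P) w x (L / Real.log x) (e * L) e L Φ hQ32 k0 g2 hw0 hx0 hΦ1
      (by positivity) hωL (by positivity) le_rfl k9 (k10.trans (by linarith only [hQ]))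
  have hclass : ∀ b ∈ G, v ≤ ((R.filter (fun n : ℤ => (P : ℤ) ∣ n - b)).card : ℝ) * Φ := by
    intro b hb
    obtain ⟨hbG₀, hbS⟩ := Finset.mem_filter.1 hb
    obtain ⟨hbP, hbg⟩ := Finset.mem_filter.1 hbG₀
    have hcardU : (f b : ℝ) ≤ (1 / 2 - 3 * t) * (e * L * WW w) := hbS.trans hbound
    have hW1 := WW_le_one w
    have hW0 := WW_pos w
    have hu : (((range N).filter (fun k => (primorial ⌊x⌋₊).Coprime (b + k * d))).card : ℝ) ≤
        e * L := by
      refine hcardU.trans ?_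
      have h1 : 0 ≤ e * L := by positivity
      have h2 : e * L * WW w ≤ e * L := mul_le_of_le_one_right h1 hW1
      have h3 : 0 ≤ e * L * WW w := by positivity
      nlinarith
    have h := clsA d N b hd0 x w (Real.exp (t ^ 2 * L / (100 * e))) ((d : ℝ) ^ δ) d M
      (Real.exp ((1 - t) * L)) Φ (e * L) (L / Real.log x) hx0 hxw hNw hy hxy hΦ0.le hX0.le
      (by
        intro p hp hpx hpd hpb
        have hpP : p ∣ P := (hp.dvd_primorial_iff).2 ((Nat.le_floor_iff hx0.le).2 hpx)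
        have hpg : p ∣ g := Nat.dvd_gcd hpP hpd
        have := Nat.dvd_gcd hpg hpb
        rw [hbg] at this
        exact hp.one_lt.ne' (Nat.dvd_one.1 this))
      hu
      (card_large_primes d hd0 x (by linarith only [k2]))
      (hcov d hX1 e g1 (by
          apply mul_le_mul_of_nonneg_left k3 (by linarith only [ht8])) w k5 k6
        ((range N).filter (fun k => (primorial ⌊x⌋₊).Coprime (b + k * d))) (by
          have e1 : (Fintype.card ((range N).filter
              (fun k => (primorial ⌊x⌋₊).Coprime (b + k * d))) : ℝ) = (f b : ℝ) := by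
            simp only [hf, Fintype.card_coe]
            rfl
          rw [e1]
          exact hcardU))
      hlen hPd
    rw [add_mul] at h
    rw [hv]
    linarith only [h]
  have hfinal := classes_cnt R P hPpos G
    ((Finset.filter_subset _ _).trans (Finset.filter_subset _ _)) v Φ hclass hΦ0.le
  have hcardR : (R.card : ℝ) = ((RA M d ((d : ℝ) ^ δ) d N d.primeFactors).ncard : ℝ) := by
    rw [hR, Set.ncard_eq_toFinset_card _ (RA_finite M d ((d : ℝ) ^ δ) d N d.primeFactors)]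
  rw [hcardR] at hfinal
  have hGt : t / 2 * G₀.card ≤ G.card := by
    refine le_trans ?_ hgood
    apply mul_le_mul_of_nonneg_right _ hG₀pos.le
    have h1t : 0 < 1 + t := by linarith only [ht]
    rw [div_le_div_iff₀ (by norm_num) h1t]
    have : t * t ≤ t * 1 := mul_le_mul_of_nonneg_left (by linarith only [ht8]) ht.le
    linarith only [this]
  have h1 : t / 8 * d.totient ≤ G.card * v := by
    have hv0 : 0 ≤ (d : ℝ) / P / 4 := by positivity
    calc t / 8 * d.totient ≤ t / 8 * (G₀.card * d / P) := by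
          apply mul_le_mul_of_nonneg_left _ (by positivity)
          rw [le_div_iff₀ hPr]
          exact hGd
      _ = t / 2 * G₀.card * ((d : ℝ) / P / 4) := by ring
      _ ≤ G.card * ((d : ℝ) / P / 4) := mul_le_mul_of_nonneg_right hGt hv0
      _ ≤ G.card * v := mul_le_mul_of_nonneg_left hv4 (Nat.cast_nonneg _)
  have h2 := h1.trans hfinal
  have h3 : (d.totient : ℝ) * Real.exp (-T) * Φ ≤ t / 8 * d.totient := by
    have e1 : Real.exp (-T) * Φ ≤ t / 8 := by
      rw [hΦdef, ← Real.exp_add]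
      have e2 : -T + e ^ 2 * Real.exp e ≤ -Real.log (8 / t) := by linarith
      refine (Real.exp_le_exp.2 e2).trans (le_of_eq ?_)
      rw [Real.exp_neg, Real.exp_log (by positivity)]
      field_simp
    calc (d.totient : ℝ) * Real.exp (-T) * Φ = (Real.exp (-T) * Φ) * d.totient := by ring
      _ ≤ t / 8 * d.totient := mul_le_mul_of_nonneg_right e1 (Nat.cast_nonneg _)
  exact le_of_mul_le_mul_right (h3.trans h2) hΦ0

end Pool.Agent.N837.LP
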