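import Pool.Agent.N837.LP.LimA

set_option autoImplicit false
set_option linter.unusedVariables false

/-! # Numerical conditions for large `L = log X`: linear forms -/

namespace Pool.Agent.N837.LP

open Finset Filter Pool.Agent.H256R2.SC Pool.Agent.Y831.RC

theorem ev_G (t K C C2 e Φ a : ℝ) (ht : 0 < t) (ht8 : t ≤ 1 / 16) (hK : 1 ≤ K) (hC : 1 ≤ C)
    (hC2 : 1 ≤ C2) (he1 : 15 * K ≤ e) (hΦ : 1 ≤ Φ) (ha : a = 4 + t) :
    ∃ L₀ : ℝ, ∀ L : ℝ, L₀ ≤ L →
      1 ≤ L ∧ 1 ≤ Real.log L ∧ 3 ≤ t / 8 * L ∧ e ≤ (1 - t) * Real.log L ∧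
      K * L ≤ L ^ a ∧ L ^ (1 + t) ≤ L ^ a ∧ L ^ a ≤ L ^ 8 ∧
      (1 + t) * (K * L * WW (t / 8 * L)) ≤ (1 / 2 - 3 * t) * (e * L * WW (L ^ a)) ∧
      Real.exp ((1 - t) * L) + 1 ≤ Real.exp ((1 - t / 4) * L) ∧
      Φ * (2 * (C2 * e * L ^ 4) / L ^ a + (C * L / Real.log (t / 8 * L)) * (2 / (t / 8 * L))) ≤
        1 / 32 ∧
      Φ * (C2 * e * L ^ 4 + C * L) ≤ Real.exp ((1 - t / 4) * L) / 32 ∧
      32 ≤ Real.exp ((1 - t / 4) * L) := by
  have t1 := Real.tendsto_log_atTop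
  have he0 : 0 < e := by linarith
  have h0 : ∀ᶠ L : ℝ in atTop, 1 ≤ L := eventually_ge_atTop _
  have h1 : ∀ᶠ L : ℝ in atTop, 1 ≤ Real.log L := t1.eventually_ge_atTop _
  have h2 : ∀ᶠ L : ℝ in atTop, 3 ≤ t / 8 * L := by
    filter_upwards [eventually_ge_atTop (24 / t)] with L hL
    rw [div_le_iff₀ ht] at hL
    linarith
  have h3 : ∀ᶠ L : ℝ in atTop, e ≤ (1 - t) * Real.log L := by
    filter_upwards [t1.eventually_ge_atTop (e / (1 - t))] with L hL
    rw [div_le_iff₀ (by linarith)] at hL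
    linarith
  have h4 : ∀ᶠ L : ℝ in atTop, K * L ≤ L ^ a := by
    filter_upwards [eventually_ge_atTop K, eventually_ge_atTop (1:ℝ)] with L hL hL1
    have e1 : L ^ (2:ℝ) ≤ L ^ a := Real.rpow_le_rpow_of_exponent_le hL1 (by linarith)
    rw [Real.rpow_two] at e1
    nlinarith
  have h5 : ∀ᶠ L : ℝ in atTop, L ^ (1 + t) ≤ L ^ a := by
    filter_upwards [eventually_ge_atTop (1:ℝ)] with L hL1
    exact Real.rpow_le_rpow_of_exponent_le hL1 (by linarith)
  have h6 : ∀ᶠ L : ℝ in atTop, L ^ a ≤ L ^ 8 := by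
    filter_upwards [eventually_ge_atTop (1:ℝ)] with L hL1
    calc L ^ a ≤ L ^ (8:ℝ) := Real.rpow_le_rpow_of_exponent_le hL1 (by linarith)
      _ = L ^ 8 := by norm_cast
  have ha1 : 1 ≤ a := by linarith
  have h7 : ∀ᶠ L : ℝ in atTop,
      (1 + t) * (K * L * WW (t / 8 * L)) ≤ (1 / 2 - 3 * t) * (e * L * WW (L ^ a)) := by
    filter_upwards [ev_WW t a ht (by linarith) ha1, eventually_ge_atTop (1:ℝ)] with L hL1 hL3
    have hW := WW_pos (L ^ a)
    have e3 : K * L * WW (t / 8 * L) ≤ K * L * (a * (1 + t) * WW (L ^ a)) :=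
      mul_le_mul_of_nonneg_left hL1 (by positivity)
    have e4 : (1 + t) * (K * L * WW (t / 8 * L)) ≤
        (1 + t) * (K * L * (a * (1 + t) * WW (L ^ a))) :=
      mul_le_mul_of_nonneg_left e3 (by linarith)
    have e5 : (1 + t) * (K * L * (a * (1 + t) * WW (L ^ a))) =
        ((1 + t) * (a * (1 + t)) * K) * (L * WW (L ^ a)) := by ring
    have e6 : 0 ≤ L * WW (L ^ a) := by positivity
    have e7 : (1 + t) * (a * (1 + t)) ≤ (1 / 2 - 3 * t) * 15 := by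
      rw [ha]
      have b1 : (1 + t) * ((4 + t) * (1 + t)) ≤ 459 / 100 := by nlinarith [sq_nonneg t]
      have b2 : 15 * (5 / 16) ≤ (1 / 2 - 3 * t) * 15 := by nlinarith
      linarith
    have e8 : (1 + t) * (a * (1 + t)) * K ≤ (1 / 2 - 3 * t) * e := by
      have b1 := mul_le_mul_of_nonneg_right e7 (show 0 ≤ K by linarith)
      have b2 : (1 / 2 - 3 * t) * (15 * K) ≤ (1 / 2 - 3 * t) * e :=
        mul_le_mul_of_nonneg_left he1 (by linarith)
      linarith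
    have e9 := mul_le_mul_of_nonneg_right e8 e6
    have e10 : (1 / 2 - 3 * t) * (e * L * WW (L ^ a)) =
        (1 / 2 - 3 * t) * e * (L * WW (L ^ a)) := by ring
    rw [e10]
    linarith
  have h8 : ∀ᶠ L : ℝ in atTop,
      Real.exp ((1 - t) * L) + 1 ≤ Real.exp ((1 - t / 4) * L) := by
    have a0 : Tendsto (fun L : ℝ => 3 * t / 4 * L) atTop atTop :=
      Filter.Tendsto.const_mul_atTop (by positivity) Filter.tendsto_id
    have a1 := Real.tendsto_exp_atTop.comp a0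
    filter_upwards [a1.eventually_ge_atTop 4, eventually_ge_atTop (0:ℝ)] with L hL hL0
    have e1 : Real.exp ((1 - t / 4) * L) = Real.exp ((1 - t) * L) * Real.exp (3 * t / 4 * L) := by
      rw [← Real.exp_add]; congr 1; ring
    have e2 : 1 ≤ Real.exp ((1 - t) * L) := Real.one_le_exp (by
      have : 0 ≤ 1 - t := by linarith
      positivity)
    have e3 : 4 ≤ Real.exp (3 * t / 4 * L) := hL
    rw [e1]
    nlinarith
  have h9 : ∀ᶠ L : ℝ in atTop,
      Φ * (2 * (C2 * e * L ^ 4) / L ^ a + (C * L / Real.log (t / 8 * L)) * (2 / (t / 8 * L))) ≤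
        1 / 32 := by
    have b1 : Tendsto (fun L : ℝ => L ^ (-t)) atTop (nhds 0) := tendsto_rpow_neg_atTop ht
    have a0 : Tendsto (fun L : ℝ => t / 8 * L) atTop atTop :=
      Filter.Tendsto.const_mul_atTop (by positivity) Filter.tendsto_id
    have a1 : Tendsto (fun L : ℝ => Real.log (t / 8 * L)) atTop atTop := t1.comp a0
    have b2 := a1.const_div_atTop (16 * C / t)
    have b3 := ((b1.const_mul (2 * (C2 * e))).add b2).const_mul Φ
    have b4 : Φ * (2 * (C2 * e) * 0 + 0) < 1 / 32 := by norm_num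
    filter_upwards [b3.eventually (gt_mem_nhds b4), eventually_gt_atTop (0:ℝ),
      a1.eventually_gt_atTop 0] with L hL hL0 hl0
    refine le_trans (le_of_eq ?_) hL.le
    congr 1
    congr 1
    · have e1 : L ^ a = L ^ 4 * L ^ t := by
        rw [ha, Real.rpow_add hL0]
        norm_cast
      rw [e1, Real.rpow_neg hL0.le]
      field_simp
    · field_simp
      norm_num
  have h10 : ∀ᶠ L : ℝ in atTop,
      Φ * (C2 * e * L ^ 4 + C * L) ≤ Real.exp ((1 - t / 4) * L) / 32 := by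
    have e1 := (Real.isLittleO_pow_exp_atTop (n := 4)).comp_tendsto
      (Filter.Tendsto.const_mul_atTop (show (0:ℝ) < 1 - t / 4 by linarith) Filter.tendsto_id)
    have e2 := e1.def (show (0:ℝ) < 1 / (512 * Φ * (C2 * e + C)) by positivity)
    filter_upwards [e2, eventually_ge_atTop (1:ℝ)] with L hL hL1
    have hL' : ‖((1 - t / 4) * L) ^ 4‖ ≤
      1 / (512 * Φ * (C2 * e + C)) * ‖Real.exp ((1 - t / 4) * L)‖ := hL
    rw [Real.norm_of_nonneg (by positivity), Real.norm_of_nonneg (Real.exp_pos _).le,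
      div_mul_eq_mul_div, one_mul, le_div_iff₀ (by positivity)] at hL'
    have e3 : L ^ 4 / 16 ≤ ((1 - t / 4) * L) ^ 4 := by
      rw [mul_pow]
      have b1 : (1:ℝ) / 2 ≤ 1 - t / 4 := by linarith
      have b2 : ((1:ℝ) / 2) ^ 4 ≤ (1 - t / 4) ^ 4 := pow_le_pow_left₀ (by norm_num) b1 4
      have b3 : 0 ≤ L ^ 4 := by positivity
      nlinarith
    have e4 : C2 * e * L ^ 4 + C * L ≤ (C2 * e + C) * L ^ 4 := by
      have b1 : L ≤ L ^ 4 := le_self_pow₀ hL1 (by norm_num)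
      nlinarith
    have e5 : L ^ 4 / 16 * (512 * Φ * (C2 * e + C)) ≤ Real.exp ((1 - t / 4) * L) :=
      (mul_le_mul_of_nonneg_right e3 (by positivity)).trans hL'
    have e6 : Φ * (C2 * e * L ^ 4 + C * L) ≤ Φ * ((C2 * e + C) * L ^ 4) :=
      mul_le_mul_of_nonneg_left e4 (by linarith)
    have e7 : L ^ 4 / 16 * (512 * Φ * (C2 * e + C)) = 32 * (Φ * ((C2 * e + C) * L ^ 4)) := by ring
    linarith
  have h11 : ∀ᶠ L : ℝ in atTop, 32 ≤ Real.exp ((1 - t / 4) * L) :=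
    (Real.tendsto_exp_atTop.comp (Filter.Tendsto.const_mul_atTop
      (show (0:ℝ) < 1 - t / 4 by linarith) Filter.tendsto_id)).eventually_ge_atTop _
  exact Filter.eventually_atTop.1 (h0.and (h1.and (h2.and (h3.and (h4.and (h5.and (h6.and
    (h7.and (h8.and (h9.and (h10.and h11)))))))))))

theorem err_boundG (Q w x ω ωE u e L Φ C C2 : ℝ) (hQ : 32 ≤ Q) (hL : 1 ≤ L) (he : 1 ≤ e)
    (hw : 0 < w) (hx : 0 < x) (hΦ : 1 ≤ Φ) (hω0 : 0 ≤ ω) (hωL : ω ≤ C * L)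
    (hu0 : 0 ≤ u) (hu : u ≤ e * L) (hωE0 : 0 ≤ ωE) (hωE : ωE ≤ C2 * L ^ 3) (hC2 : 0 ≤ C2)
    (h1 : Φ * (2 * (C2 * e * L ^ 4) / w + ω * (2 / x)) ≤ 1 / 32)
    (h2 : Φ * (C2 * e * L ^ 4 + C * L) ≤ Q / 32) :
    Q / 4 ≤ 3 / 8 * (Q - 1) - (ωE * (u * ((Q + 1) / w + 1)) + ω * ((Q + 1) / x + 1)) * Φ := by
  have a1 : (Q + 1) / w ≤ 2 * Q / w := div_le_div_of_nonneg_right (by linarith) hw.le
  have a2 : (Q + 1) / x ≤ 2 * Q / x := div_le_div_of_nonneg_right (by linarith) hx.le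
  have a3 : ωE * u ≤ C2 * e * L ^ 4 := by
    calc ωE * u ≤ (C2 * L ^ 3) * (e * L) := mul_le_mul hωE hu hu0 (by positivity)
      _ = C2 * e * L ^ 4 := by ring
  have a4 : ωE * (u * ((Q + 1) / w + 1)) ≤ C2 * e * L ^ 4 * (2 * Q / w + 1) := by
    rw [← mul_assoc]
    apply mul_le_mul a3 (by linarith) (by positivity) (by positivity)
  have a5 : ω * ((Q + 1) / x + 1) ≤ ω * (2 * Q / x) + C * L := by
    have : ω * ((Q + 1) / x) ≤ ω * (2 * Q / x) := mul_le_mul_of_nonneg_left a2 hω0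
    linarith
  have a6 : ωE * (u * ((Q + 1) / w + 1)) + ω * ((Q + 1) / x + 1) ≤
      Q * (2 * (C2 * e * L ^ 4) / w + ω * (2 / x)) + (C2 * e * L ^ 4 + C * L) := by
    refine (add_le_add a4 a5).trans (le_of_eq ?_)
    field_simp
    ring
  have a7 := mul_le_mul_of_nonneg_right a6 (show 0 ≤ Φ by linarith)
  have a8 : (Q * (2 * (C2 * e * L ^ 4) / w + ω * (2 / x)) + (C2 * e * L ^ 4 + C * L)) * Φ =
      Q * (Φ * (2 * (C2 * e * L ^ 4) / w + ω * (2 / x))) + Φ * (C2 * e * L ^ 4 + C * L) := by ring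
  rw [a8] at a7
  have a9 : Q * (Φ * (2 * (C2 * e * L ^ 4) / w + ω * (2 / x))) ≤ Q * (1 / 32) :=
    mul_le_mul_of_nonneg_left h1 (by linarith)
  linarith

end Pool.Agent.N837.LP
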