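import Pool.Agent.N837.LP.SumA

set_option autoImplicit false
set_option linter.unusedVariables false

/-! # First moments over the classes modulo the primorial: linear forms -/

namespace Pool.Agent.N837.LP

open Finset

open scoped Classical

theorem cnt_surv (g q P2 : ℕ) (hg : 0 < g) (hq : 0 < q) (hP2 : 0 < P2)
    (hgq : g.Coprime q) (hgP : (g * q).Coprime P2) (α β : ℤ)
    (hα : IsCoprime (P2 : ℤ) α) :
    ((range (g * q * P2)).filter (fun b : ℕ => g.Coprime b ∧ IsCoprime (α * b + β) (P2 : ℤ))).card ≤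
      g.totient * (q * P2.totient) := by
  have hgz : (g : ℤ) ≠ 0 := by exact_mod_cast hg.ne'
  have hPz : (0 : ℤ) < P2 := by exact_mod_cast hP2
  have ht : (((range g).filter (fun b => g.Coprime b)) ×ˢ ((range q) ×ˢ
      ((range P2).filter (fun b => P2.Coprime b)))).card = g.totient * (q * P2.totient) := by
    rw [card_product, card_product, card_range, ← Nat.totient_eq_card_coprime,
      ← Nat.totient_eq_card_coprime]
  rw [← ht]
  apply Finset.card_le_card_of_injOn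
    (fun b => (b % g, (b % q, ((α * b + β) % (P2 : ℤ)).toNat)))
  · intro b hb
    rw [Finset.mem_coe, Finset.mem_filter] at hb
    obtain ⟨_, hb1, hb2⟩ := hb
    have e : (fun b : ℕ => (b % g, (b % q, ((α * b + β) % (P2 : ℤ)).toNat))) b =
      (b % g, (b % q, ((α * b + β) % (P2 : ℤ)).toNat)) := rfl
    rw [e, Finset.mem_coe, mem_product, mem_product, mem_filter, mem_range, mem_range, mem_filter,
      mem_range]
    have h0 : 0 ≤ (α * b + β) % (P2 : ℤ) := Int.emod_nonneg _ hPz.ne'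
    have h1 : (α * b + β) % (P2 : ℤ) < P2 := Int.emod_lt_of_pos _ hPz
    refine ⟨⟨Nat.mod_lt _ hg, ?_⟩, Nat.mod_lt _ hq, ?_, ?_⟩
    · rw [Nat.Coprime, Nat.gcd_comm, ← Nat.gcd_rec]
      exact hb1
    · change ((α * b + β) % (P2 : ℤ)).toNat < P2
      omega
    · change P2.Coprime ((α * b + β) % (P2 : ℤ)).toNat
      rw [Nat.coprime_iff_gcd_eq_one]
      have h2 : IsCoprime ((α * b + β) % (P2 : ℤ)) (P2 : ℤ) := by
        have h3 : (α * b + β) = (α * b + β) % (P2 : ℤ) + P2 * ((α * b + β) / (P2 : ℤ)) :=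
          (Int.emod_add_mul_ediv _ _).symm
        rw [h3] at hb2
        exact (IsCoprime.add_mul_left_left_iff).1 hb2
      rw [Int.isCoprime_iff_gcd_eq_one] at h2
      have h4 : (((α * b + β) % (P2 : ℤ)).toNat : ℤ) = (α * b + β) % (P2 : ℤ) := Int.toNat_of_nonneg h0
      rw [Nat.gcd_comm]
      rw [← h4] at h2
      exact_mod_cast h2
  · intro b hb b' hb' h
    rw [Finset.mem_coe, Finset.mem_filter, mem_range] at hb hb'
    have h' : (b % g, (b % q, ((α * b + β) % (P2 : ℤ)).toNat)) =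
      (b' % g, (b' % q, ((α * b' + β) % (P2 : ℤ)).toNat)) := h
    rw [Prod.mk.injEq, Prod.mk.injEq] at h'
    obtain ⟨h1, h2, h3⟩ := h'
    have h0 : 0 ≤ (α * b + β) % (P2 : ℤ) := Int.emod_nonneg _ hPz.ne'
    have h0' : 0 ≤ (α * b' + β) % (P2 : ℤ) := Int.emod_nonneg _ hPz.ne'
    have h4 : (α * b + β) % (P2 : ℤ) = (α * b' + β) % (P2 : ℤ) := by omega
    have d1 : (g : ℤ) ∣ (b : ℤ) - b' := by
      have := (Nat.modEq_iff_dvd (n := g) (a := b') (b := b)).1 h1.symm
      exact this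
    have d2 : (q : ℤ) ∣ (b : ℤ) - b' := (Nat.modEq_iff_dvd (n := q) (a := b') (b := b)).1 h2.symm
    have d3 : (P2 : ℤ) ∣ (b : ℤ) - b' := by
      have e1 : (P2 : ℤ) ∣ (α * b + β) - (α * b' + β) :=
        Int.ModEq.dvd (n := (P2 : ℤ)) h4.symm
      have e2 : (α * b + β) - (α * b' + β) = α * ((b : ℤ) - b') := by ring
      rw [e2] at e1
      exact hα.dvd_of_dvd_mul_left e1
    have c1 : IsCoprime (g : ℤ) (q : ℤ) := Nat.isCoprime_iff_coprime.2 hgq
    have c2 : IsCoprime ((g : ℤ) * q) (P2 : ℤ) := by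
      have := Nat.isCoprime_iff_coprime.2 hgP
      push_cast at this
      exact this
    have d4 : ((g : ℤ) * q) * P2 ∣ (b : ℤ) - b' := c2.mul_dvd (c1.mul_dvd d1 d2) d3
    have d5 : (b : ℤ) - b' = 0 := by
      apply Int.eq_zero_of_abs_lt_dvd d4
      have e1 : ((g : ℤ) * q) * P2 = ((g * q * P2 : ℕ) : ℤ) := by push_cast; ring
      rw [e1, abs_lt]
      constructor <;> omega
    omega

/-- the classes prime to `D` in which a given linear form survives the sieve by the primes up to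
`x` that do not divide `D` -/
theorem surv_le (x : ℝ) (hx : 0 ≤ x) (D : ℕ) (hD : 0 < D) (α β : ℤ) (hα : α ≠ 0) :
    ((((range (primorial ⌊x⌋₊)).filter
      (fun b => ((primorial ⌊x⌋₊).gcd D).Coprime b)).filter
      (fun b : ℕ => ∀ p : ℕ, p.Prime → (p : ℝ) ≤ x → ¬ p ∣ D → ¬ (p : ℤ) ∣ α * b + β)).card : ℝ) ≤
      ((primorial ⌊x⌋₊).totient : ℝ) * ((α.natAbs : ℝ) / (α.natAbs.totient : ℝ)) := by
  set P := primorial ⌊x⌋₊ with hP
  have hPpos : 0 < P := primorial_pos _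
  have hsq : Squarefree P := squarefree_primorial _
  set g := P.gcd D with hg
  have hgpos : 0 < g := Nat.gcd_pos_of_pos_left _ hPpos
  obtain ⟨r, hr⟩ : g ∣ P := Nat.gcd_dvd_left _ _
  have hrpos : 0 < r := by
    rcases Nat.eq_zero_or_pos r with h | h
    · rw [h, mul_zero] at hr
      omega
    · exact h
  have hsq' : Squarefree (g * r) := hr ▸ hsq
  have hgr : g.Coprime r := Nat.coprime_of_squarefree_mul hsq'
  have hsr : Squarefree r := (Nat.squarefree_mul_iff.1 hsq').2.2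
  set q := r.gcd α.natAbs with hq
  have hqpos : 0 < q := Nat.gcd_pos_of_pos_left _ hrpos
  obtain ⟨P2, hP2⟩ : q ∣ r := Nat.gcd_dvd_left _ _
  have hP2pos : 0 < P2 := by
    rcases Nat.eq_zero_or_pos P2 with h | h
    · rw [h, mul_zero] at hP2
      omega
    · exact h
  have hsq2 : Squarefree (q * P2) := hP2 ▸ hsr
  have hqP : q.Coprime P2 := Nat.coprime_of_squarefree_mul hsq2
  have hPeq : P = g * q * P2 := by rw [hr, hP2]; ring
  have hgq : g.Coprime q := Nat.Coprime.coprime_dvd_right (Dvd.intro P2 hP2.symm) hgr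
  have hgP2 : g.Coprime P2 := Nat.Coprime.coprime_dvd_right (Dvd.intro_left q hP2.symm) hgr
  have hgqP : (g * q).Coprime P2 := Nat.Coprime.mul_left hgP2 hqP
  have hαP : IsCoprime (P2 : ℤ) α := by
    rw [Int.isCoprime_iff_gcd_eq_one]
    by_contra hne
    obtain ⟨p, hp, hpd⟩ := Nat.exists_prime_and_dvd hne
    have h1 : (p : ℤ) ∣ (P2 : ℤ) := (Int.natCast_dvd_natCast.2 hpd).trans (Int.gcd_dvd_left _ _)
    have h2 : (p : ℤ) ∣ α := (Int.natCast_dvd_natCast.2 hpd).trans (Int.gcd_dvd_right _ _)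
    have h1' : p ∣ P2 := by exact_mod_cast h1
    have h2' : p ∣ α.natAbs := Int.natCast_dvd.1 h2
    have h3 : p ∣ r := by rw [hP2]; exact Dvd.dvd.mul_left h1' _
    have h4 : p ∣ q := Nat.dvd_gcd h3 h2'
    have h5 := Nat.dvd_gcd h4 h1'
    rw [hqP] at h5
    exact hp.one_lt.ne' (Nat.dvd_one.1 h5)
  have hαpos : 0 < α.natAbs := Int.natAbs_pos.2 hα
  have hcard := cnt_surv g q P2 hgpos hqpos hP2pos hgq hgqP α β hαP
  rw [← hPeq] at hcard
  have hsub : ((range P).filter (fun b => g.Coprime b)).filter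
      (fun b : ℕ => ∀ p : ℕ, p.Prime → (p : ℝ) ≤ x → ¬ p ∣ D → ¬ (p : ℤ) ∣ α * b + β) ⊆
      (range P).filter (fun b : ℕ => g.Coprime b ∧ IsCoprime (α * b + β) (P2 : ℤ)) := by
    intro b hb
    rw [mem_filter, mem_filter] at hb
    obtain ⟨⟨hb1, hb2⟩, hb3⟩ := hb
    rw [mem_filter]
    refine ⟨hb1, hb2, ?_⟩
    rw [Int.isCoprime_iff_gcd_eq_one]
    by_contra hne
    obtain ⟨p, hp, hpd⟩ := Nat.exists_prime_and_dvd hne
    have h1 : (p : ℤ) ∣ (P2 : ℤ) := (Int.natCast_dvd_natCast.2 hpd).trans (Int.gcd_dvd_right _ _)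
    have h2 : (p : ℤ) ∣ α * b + β := (Int.natCast_dvd_natCast.2 hpd).trans (Int.gcd_dvd_left _ _)
    have h1' : p ∣ P2 := by exact_mod_cast h1
    have h3 : p ∣ r := by rw [hP2]; exact Dvd.dvd.mul_left h1' _
    have h4 : p ∣ P := by rw [hr]; exact Dvd.dvd.mul_left h3 _
    have h5 : (p : ℝ) ≤ x := (Nat.le_floor_iff hx).1 ((hp.dvd_primorial_iff).1 h4)
    have h6 : ¬ p ∣ D := by
      intro h
      have h7 : p ∣ g := Nat.dvd_gcd h4 h
      have h8 := Nat.dvd_gcd h7 h3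
      rw [hgr] at h8
      exact hp.one_lt.ne' (Nat.dvd_one.1 h8)
    exact hb3 p hp h5 h6 h2
  have h1 : ((((range P).filter (fun b => g.Coprime b)).filter
      (fun b : ℕ => ∀ p : ℕ, p.Prime → (p : ℝ) ≤ x → ¬ p ∣ D →
        ¬ (p : ℤ) ∣ α * b + β)).card : ℝ) ≤ ((g.totient * (q * P2.totient) : ℕ) : ℝ) := by
    exact_mod_cast (card_le_card hsub).trans hcard
  refine h1.trans ?_
  have hφα : (0:ℝ) < α.natAbs.totient := by exact_mod_cast Nat.totient_pos.2 hαpos
  have hPt : P.totient = g.totient * q.totient * P2.totient := by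
    rw [hPeq, Nat.totient_mul hgqP, Nat.totient_mul hgq]
  have h2 := totient_le_of_dvd (g := q) (n := α.natAbs) (Nat.gcd_dvd_right _ _)
  rw [mul_div_assoc', le_div_iff₀ hφα, hPt]
  push_cast
  have h3 : (0:ℝ) ≤ (g.totient : ℝ) * P2.totient := by positivity
  calc (g.totient : ℝ) * (q * P2.totient) * α.natAbs.totient =
        (g.totient : ℝ) * P2.totient * (α.natAbs.totient * q) := by ring
    _ ≤ (g.totient : ℝ) * P2.totient * (q.totient * α.natAbs) := mul_le_mul_of_nonneg_left h2 h3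
    _ = _ := by ring

/-- the first moment of the number of surviving forms -/
theorem sumG {ι : Type} [Fintype ι] (x : ℝ) (hx : 0 ≤ x) (D : ℕ) (hD : 0 < D) (α β : ι → ℤ)
    (hα : ∀ i, α i ≠ 0) :
    ((∑ b ∈ (range (primorial ⌊x⌋₊)).filter (fun b => ((primorial ⌊x⌋₊).gcd D).Coprime b),
      ((univ : Finset ι).filter (fun i => ∀ p : ℕ, p.Prime → (p : ℝ) ≤ x → ¬ p ∣ D →
        ¬ (p : ℤ) ∣ α i * b + β i)).card : ℕ) : ℝ) ≤
      ((primorial ⌊x⌋₊).totient : ℝ) *
        ∑ i, (((α i).natAbs : ℝ) / ((α i).natAbs.totient : ℝ)) := by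
  have h1 : ∀ b : ℕ, ((univ : Finset ι).filter (fun i => ∀ p : ℕ, p.Prime → (p : ℝ) ≤ x →
      ¬ p ∣ D → ¬ (p : ℤ) ∣ α i * b + β i)).card = ∑ i : ι, if (∀ p : ℕ, p.Prime →
        (p : ℝ) ≤ x → ¬ p ∣ D → ¬ (p : ℤ) ∣ α i * b + β i) then 1 else 0 := by
    intro b
    rw [Finset.card_filter]
  rw [Finset.sum_congr rfl fun b _ => h1 b, Finset.sum_comm, Finset.mul_sum]
  push_cast
  apply Finset.sum_le_sum
  intro i _
  have h2 := surv_le x hx D hD (α i) (β i) (hα i)
  refine le_trans (le_of_eq ?_) h2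
  rw [Finset.card_filter]
  push_cast
  rfl

end Pool.Agent.N837.LP
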