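import Pool.Agent.N837.LP.ClsG
import Pool.Agent.N837.LP.SumG
import Pool.Agent.N837.LP.LimG
import Pool.Agent.N837.LP.ExcE
import Pool.Agent.N837.LP.CovW

set_option autoImplicit false
set_option linter.unusedVariables false

/-! # Families of linear forms: a positive proportion of common non-primality -/

namespace Pool.Agent.N837.LP

open Finset Filter Pool.Agent.H256R2.SC Pool.Agent.Y831.RC

open scoped Classical

theorem q_const (K s t : ℝ) (hK : 1 ≤ K) (hs : 0 ≤ s) (ht : 0 < t) :
    (15 * K + s) ^ 2 * Real.exp (15 * K + s) + Real.log (8 / t) ≤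
      Real.exp (16 * K + Real.log (2 * (15 + s) ^ 2 * Real.exp s + 8 / t)) := by
  have h1 : (15 * K + s) ^ 2 ≤ ((15 + s) * K) ^ 2 := by
    apply pow_le_pow_left₀ (by positivity)
    nlinarith
  have h2 : K ^ 2 ≤ 2 * Real.exp K := by
    have := Real.quadratic_le_exp_of_nonneg (show 0 ≤ K by linarith)
    nlinarith
  have h3 : (15 * K + s) ^ 2 * Real.exp (15 * K + s) ≤
      2 * (15 + s) ^ 2 * Real.exp s * Real.exp (16 * K) := by
    have e1 : Real.exp (15 * K + s) = Real.exp (15 * K) * Real.exp s := Real.exp_add _ _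
    have e2 : Real.exp (16 * K) = Real.exp (15 * K) * Real.exp K := by
      rw [← Real.exp_add]; congr 1; ring
    rw [e1, e2]
    calc (15 * K + s) ^ 2 * (Real.exp (15 * K) * Real.exp s) ≤
        ((15 + s) * K) ^ 2 * (Real.exp (15 * K) * Real.exp s) :=
          mul_le_mul_of_nonneg_right h1 (by positivity)
      _ = (15 + s) ^ 2 * Real.exp s * Real.exp (15 * K) * K ^ 2 := by ring
      _ ≤ (15 + s) ^ 2 * Real.exp s * Real.exp (15 * K) * (2 * Real.exp K) :=
          mul_le_mul_of_nonneg_left h2 (by positivity)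
      _ = _ := by ring
  have h4 : Real.log (8 / t) ≤ 8 / t * Real.exp (16 * K) := by
    have e1 : Real.log (8 / t) ≤ 8 / t := by
      have := Real.log_le_sub_one_of_pos (show 0 < 8 / t by positivity)
      linarith
    have e2 : 1 ≤ Real.exp (16 * K) := Real.one_le_exp (by linarith)
    have e3 : 0 < 8 / t := by positivity
    nlinarith
  rw [Real.exp_add (16 * K), Real.exp_log (by positivity)]
  nlinarith

theorem mainG (δ : ℝ) (hδ : 0 < δ) : ∃ C₀ : ℝ, 0 ≤ C₀ ∧ ∀ K C : ℝ, 1 ≤ K → 1 ≤ C →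
    ∃ X₀ : ℝ, ∀ X : ℝ, X₀ ≤ X → ∀ (ι : Type) [Fintype ι] (α β : ι → ℤ) (D : ℕ), 0 < D →
    (D : ℝ) ≤ X ^ C → (∀ i, α i ≠ 0) → (∀ i, |(α i : ℝ)| ≤ X ^ C) →
    (∀ i, |(β i : ℝ)| ≤ X ^ C) → (∀ i j, i ≠ j → α i * β j - α j * β i ≠ 0) →
    ∑ i, (((α i).natAbs : ℝ) / ((α i).natAbs.totient : ℝ)) ≤
      K * ((D.totient : ℝ) / D) * Real.log X →
    ∀ M : ℝ, (D.totient : ℝ) / D * X * Real.exp (-Real.exp (16 * K + C₀)) ≤
      ((RG M X (X ^ δ) D α β).ncard : ℝ) := by
  set t : ℝ := min (1 / 16) δ with htdef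
  have ht : 0 < t := lt_min (by norm_num) hδ
  have ht16 : t ≤ 1 / 16 := min_le_left _ _
  have ht8 : t ≤ 1 / 8 := by linarith
  have htδ : t ≤ δ := min_le_right _ _
  obtain ⟨e₀, X₁, hcov⟩ := covW t ht ht8
  set s : ℝ := |e₀| + 1 with hs
  have hs0 : 0 ≤ s := by positivity
  refine ⟨Real.log (2 * (15 + s) ^ 2 * Real.exp s + 8 / t), ?_, ?_⟩
  · apply Real.log_nonneg
    have h1 : 1 ≤ Real.exp s := Real.one_le_exp hs0
    have h2 : 0 < 8 / t := by positivity
    nlinarith [sq_nonneg s]
  intro K C hK hC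
  have hK0 : 0 < K := by linarith
  have hC0 : 0 < C := by linarith
  set C2 : ℝ := C + K * C + K ^ 2 * (2 * C + 1) with hC2def
  have hC2 : 1 ≤ C2 := by
    have h1 : 0 ≤ K * C := by positivity
    have h2 : 0 ≤ K ^ 2 * (2 * C + 1) := by positivity
    linarith
  set e : ℝ := 15 * K + s with he
  have he15 : 15 * K ≤ e := by linarith
  have he1 : 1 ≤ e := by linarith
  have hee₀ : e₀ ≤ e := by
    have := le_abs_self e₀
    linarith
  have he0 : 0 < e := by linarith
  set Φ := Real.exp (e ^ 2 * Real.exp e) with hΦdef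
  have hΦ1 : 1 ≤ Φ := Real.one_le_exp (by positivity)
  have hΦ0 : 0 < Φ := by linarith
  obtain ⟨L₀, hL₀⟩ := ev_G t K C C2 e Φ (4 + t) ht ht16 hK hC hC2 he15 hΦ1 rfl
  refine ⟨max X₁ (Real.exp L₀), fun X hX ι _ α β D hD hDX hα hαX hβX hdet hsumα M => ?_⟩
  have hX1 : X₁ ≤ X := (le_max_left _ _).trans hX
  have hXe : Real.exp L₀ ≤ X := (le_max_right _ _).trans hX
  have hX0 : 0 < X := lt_of_lt_of_le (Real.exp_pos _) hXe
  have hLL : L₀ ≤ Real.log X := by
    rw [Real.le_log_iff_exp_le hX0]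
    exact hXe
  obtain ⟨k0, k1, k2, k3, k4, k5, k6, k7, k8, k9, k10, k11⟩ := hL₀ (Real.log X) hLL
  have hXL : Real.exp (Real.log X) = X := Real.exp_log hX0
  set L := Real.log X with hL
  have hL0 : 0 < L := by linarith
  have hXone : 1 ≤ X := by
    rw [← hXL]
    exact Real.one_le_exp hL0.le
  set x := t / 8 * L with hx
  have hx0 : 0 < x := by linarith
  set w := L ^ (4 + t) with hw
  have hw0 : 0 < w := Real.rpow_pos_of_pos hL0 _
  set P : ℕ := primorial ⌊x⌋₊ with hP
  have hPpos : 0 < P := primorial_pos _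
  have hPr : (0:ℝ) < P := by exact_mod_cast hPpos
  have hPx : (P:ℝ) ≤ Real.exp (t / 4 * L) := by
    refine (primorial_le_exp x hx0.le).trans ?_
    apply Real.exp_le_exp.2
    rw [hx]
    linarith
  have hQ : Real.exp ((1 - t / 4) * L) ≤ X / (P : ℝ) := by
    rw [le_div_iff₀ hPr]
    have e3 : Real.exp ((1 - t / 4) * L) * Real.exp (t / 4 * L) = X := by
      rw [← Real.exp_add, ← hXL]
      congr 1
      ring
    calc Real.exp ((1 - t / 4) * L) * P ≤ Real.exp ((1 - t / 4) * L) * Real.exp (t / 4 * L) :=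
          mul_le_mul_of_nonneg_left hPx (Real.exp_pos _).le
      _ = X := e3
  have hQ32 : 32 ≤ X / (P : ℝ) := k11.trans hQ
  have hPd : (P : ℝ) ≤ X := by
    have : (1:ℝ) ≤ X / P := by linarith
    rw [le_div_iff₀ hPr] at this
    linarith
  have hDr : (0:ℝ) < D := by exact_mod_cast hD
  have hφD : (D.totient : ℝ) / D ≤ 1 := by
    rw [div_le_one hDr]
    exact_mod_cast Nat.totient_le D
  have hφD0 : 0 ≤ (D.totient : ℝ) / D := by positivity
  -- the number of forms
  have hm : (Fintype.card ι : ℝ) ≤ K * L := by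
    have h1 : (Fintype.card ι : ℝ) ≤ ∑ i, (((α i).natAbs : ℝ) / ((α i).natAbs.totient : ℝ)) := by
      have e1 : (Fintype.card ι : ℝ) = ∑ _i : ι, (1:ℝ) := by
        rw [Finset.sum_const, nsmul_eq_mul, mul_one, card_univ]
      rw [e1]
      apply Finset.sum_le_sum
      intro i _
      have e2 : (0:ℝ) < ((α i).natAbs.totient : ℝ) := by
        exact_mod_cast Nat.totient_pos.2 (Int.natAbs_pos.2 (hα i))
      rw [le_div_iff₀ e2, one_mul]
      exact_mod_cast Nat.totient_le _
    refine h1.trans (hsumα.trans ?_)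
    have h2 : K * ((D.totient : ℝ) / D) * L = K * L * ((D.totient : ℝ) / D) := by ring
    rw [h2]
    exact mul_le_of_le_one_right (by positivity) hφD
  have hmw : (Fintype.card ι : ℝ) ≤ w := hm.trans k4
  -- the exceptional primes
  set E : Finset ℕ := (Nall D α β).primeFactors with hE
  have hNpos : 0 < Nall D α β := Nall_pos D α β hD hα hdet
  have hlogN : Real.log (Nall D α β) ≤ C2 * L ^ 3 :=
    log_Nall_le D α β X K C L hXone hL k0 hK0.le hC0.le hD hα hdet hDX hαX hβX hm
  have hw1 : 1 < w := by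
    have h1 : 1 < L := by
      have := Real.add_one_le_exp (1:ℝ)
      have h2 : Real.exp 1 ≤ L := by
        rw [← Real.le_log_iff_exp_le hL0]
        exact k1
      linarith
    exact Real.one_lt_rpow h1 (by linarith)
  have hlogw : 1 ≤ Real.log w := by
    rw [hw, Real.log_rpow hL0]
    nlinarith
  have hωE : ((E.filter (fun p : ℕ => w < p)).card : ℝ) ≤ C2 * L ^ 3 := by
    have h1 := card_large_primes (Nall D α β) hNpos w hw1
    refine h1.trans ?_
    refine le_trans (div_le_self ?_ hlogw) hlogN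
    apply Real.log_nonneg
    exact_mod_cast hNpos
  have hlx1 : 1 ≤ Real.log x := by
    rw [Real.le_log_iff_exp_le hx0]
    have := Real.exp_one_lt_d9
    linarith
  have hω : (((D.primeFactors).filter (fun p : ℕ => x < p)).card : ℝ) ≤ C * L / Real.log x := by
    have h1 := card_large_primes D hD x (by linarith only [k2])
    refine h1.trans ?_
    apply div_le_div_of_nonneg_right _ (by linarith)
    rw [hL, ← Real.log_rpow hX0]
    exact Real.log_le_log hDr hDX
  have hωL : C * L / Real.log x ≤ C * L := div_le_self (by positivity) hlx1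
  -- the classes
  set g := P.gcd D with hg
  have hgP : g ∣ P := Nat.gcd_dvd_left _ _
  have hgd : g ∣ D := Nat.gcd_dvd_right _ _
  have hgpos : 0 < g := Nat.gcd_pos_of_pos_left _ hPpos
  have hgr : (0:ℝ) < g := by exact_mod_cast hgpos
  set G₀ := (range P).filter (fun b => g.Coprime b) with hG₀
  have hG₀c : (G₀.card : ℝ) * g = P * g.totient := by
    obtain ⟨m, hm⟩ := hgP
    have h1 : G₀.card = m * g.totient := by
      rw [hG₀, hm]
      exact cop_count g m
    rw [h1, hm]
    push_cast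
    ring
  have hGd : (D.totient : ℝ) * P ≤ G₀.card * D := by
    have h1 := totient_le_of_dvd hgd
    have h2 : (D.totient : ℝ) * P * g ≤ G₀.card * D * g := by
      calc (D.totient : ℝ) * P * g = P * (D.totient * g) := by ring
        _ ≤ P * (g.totient * D) := mul_le_mul_of_nonneg_left h1 hPr.le
        _ = (P * g.totient) * D := by ring
        _ = G₀.card * D * g := by rw [← hG₀c]; ring
    exact le_of_mul_le_mul_right h2 hgr
  have hGd' : (D.totient : ℝ) / D * P ≤ G₀.card := by
    rw [div_mul_eq_mul_div, div_le_iff₀ hDr]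
    exact hGd
  have hφDpos : 0 < (D.totient : ℝ) / D := by
    have : (0:ℝ) < D.totient := by exact_mod_cast Nat.totient_pos.2 hD
    positivity
  have hPtot : (P.totient : ℝ) = P * WW x := by
    rw [hP]
    exact tot_prim x
  have hG₀pos : (0:ℝ) < G₀.card := lt_of_lt_of_le (by positivity) hGd'
  have hWx := WW_pos x
  set S := K * L * WW x with hS
  have hS0 : 0 < S := by positivity
  set f : ℕ → ℕ := fun b => ((univ : Finset ι).filter (fun i => ∀ p : ℕ, p.Prime → (p : ℝ) ≤ x →
      ¬ p ∣ D → ¬ (p : ℤ) ∣ α i * b + β i)).card with hf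
  have hsum : ((∑ b ∈ G₀, f b : ℕ) : ℝ) ≤ G₀.card * S := by
    have h1 := sumG x hx0.le D hD α β hα
    refine h1.trans ?_
    calc (P.totient : ℝ) * ∑ i, (((α i).natAbs : ℝ) / ((α i).natAbs.totient : ℝ)) ≤
          (P.totient : ℝ) * (K * ((D.totient : ℝ) / D) * L) :=
          mul_le_mul_of_nonneg_left hsumα (Nat.cast_nonneg _)
      _ = ((D.totient : ℝ) / D * P) * S := by rw [hPtot, hS]; ring
      _ ≤ G₀.card * S := mul_le_mul_of_nonneg_right hGd' hS0.le
  have hgood := good_cardG G₀ f S t ht hS0 hsum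
  set G := G₀.filter (fun b => (f b : ℝ) ≤ (1 + t) * S) with hG
  have hbound : (1 + t) * S ≤ (1 / 2 - 3 * t) * (e * L * WW w) := k7
  have hy : Real.exp (t ^ 2 * L / (100 * e)) ≤ X ^ δ := by
    rw [Real.rpow_def_of_pos hX0, mul_comm]
    apply Real.exp_le_exp.2
    have he0 : 0 < 100 * e := by linarith only [he1]
    rw [div_le_iff₀ he0]
    have e1 : t ^ 2 ≤ δ * (100 * e) := q_tδ ht ht8 htδ he1
    have e2 := mul_le_mul_of_nonneg_right e1 hL0.le
    linarith only [e2]
  have hxy : x ≤ X ^ δ := by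
    rw [Real.rpow_def_of_pos hX0, mul_comm]
    have e1 := Real.add_one_le_exp (δ * L)
    have e2 : x ≤ δ * L := by
      rw [hx]
      apply mul_le_mul_of_nonneg_right _ hL0.le
      linarith only [htδ, ht]
    linarith only [e1, e2]
  have hxw : x ≤ w := by
    have e1 : x ≤ L := by
      rw [hx]
      nlinarith
    have e2 : L ≤ L ^ (1 + t) := by
      calc L = L ^ (1:ℝ) := (Real.rpow_one L).symm
        _ ≤ L ^ (1 + t) := Real.rpow_le_rpow_of_exponent_le k0 (by linarith only [ht])
    exact e1.trans (e2.trans k5)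
  have hlen : Real.exp ((1 - t) * L) ≤ X / (P : ℝ) - 1 := by linarith only [k8, hQ]
  set τ : ι → ℤ := fun i => ((Fintype.equivFin ι i : ℕ) : ℤ) with hτdef
  have hτ : ∀ p : ℕ, w < p → ∀ i j, i ≠ j → ¬ (p : ℤ) ∣ τ i - τ j := by
    intro p hp i j hij hdvd
    have hmp : Fintype.card ι < p := by
      have : (Fintype.card ι : ℝ) < p := lt_of_le_of_lt hmw hp
      exact_mod_cast this
    have hi := (Fintype.equivFin ι i).isLt
    have hj := (Fintype.equivFin ι j).isLt
    have hne : τ i - τ j ≠ 0 := by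
      intro h
      apply hij
      apply (Fintype.equivFin ι).injective
      apply Fin.ext
      have h2 : τ i = τ j := by linarith
      simp only [hτdef] at h2
      exact_mod_cast h2
    have habs := Int.le_of_dvd (abs_pos.2 hne) ((dvd_abs _ _).2 hdvd)
    have h3 : |τ i - τ j| < p := by
      rw [abs_lt]
      simp only [hτdef]
      constructor <;> omega
    omega
  set R : Finset ℤ := (RG_finite M X (X ^ δ) D α β).toFinset with hR
  set v := 3 / 8 * (X / P - 1) - (C2 * L ^ 3 * (e * L * ((X / P + 1) / w + 1)) +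
      C * L / Real.log x * ((X / P + 1) / x + 1)) * Φ with hv
  have hv4 : X / P / 4 ≤ v :=
    err_boundG (X / P) w x (C * L / Real.log x) (C2 * L ^ 3) (e * L) e L Φ C C2 hQ32 k0 he1
      hw0 hx0 hΦ1 (by positivity) hωL (by positivity) le_rfl (by positivity) le_rfl
      (by linarith) k9 (k10.trans (by linarith only [hQ]))
  have hclass : ∀ b ∈ G, v ≤ ((R.filter (fun n : ℤ => (P : ℤ) ∣ n - b)).card : ℝ) * Φ := by
    intro b hb
    obtain ⟨hbG₀, hbS⟩ := Finset.mem_filter.1 hb
    obtain ⟨hbP, hbg⟩ := Finset.mem_filter.1 hbG₀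
    have hcardU : (f b : ℝ) ≤ (1 / 2 - 3 * t) * (e * L * WW w) := hbS.trans hbound
    have hW1 := WW_le_one w
    have hW0 := WW_pos w
    have hu : (((univ : Finset ι).filter (fun i => ∀ p : ℕ, p.Prime → (p : ℝ) ≤ x → ¬ p ∣ D →
        ¬ (p : ℤ) ∣ α i * b + β i)).card : ℝ) ≤ e * L := by
      refine hcardU.trans ?_
      have h1 : 0 ≤ e * L := by positivity
      have h2 : e * L * WW w ≤ e * L := mul_le_of_le_one_right h1 hW1
      have h3 : 0 ≤ e * L * WW w := by positivity
      nlinarith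
    have h := clsG α β τ D b hD E (fun p hp => Nat.prime_of_mem_primeFactors hp) x w
      (Real.exp (t ^ 2 * L / (100 * e))) (X ^ δ) X M
      (Real.exp ((1 - t) * L)) Φ (e * L) (C * L / Real.log x) (C2 * L ^ 3) hx0 hxw
      (fun p hp _ hpE hpd => hpE (Nat.mem_primeFactors.2
        ⟨hp, hpd.trans (dvd_Nall_D D α β), hNpos.ne'⟩))
      (fun p hp _ hpE i hpd => hpE (Nat.mem_primeFactors.2
        ⟨hp, (Int.natCast_dvd.1 hpd).trans (dvd_Nall_α D α β i), hNpos.ne'⟩))
      (fun p hp _ hpE i j hij hpd => hpE (Nat.mem_primeFactors.2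
        ⟨hp, (Int.natCast_dvd.1 hpd).trans (dvd_Nall_det D α β i j hij), hNpos.ne'⟩))
      hτ hy hxy hΦ0.le hX0.le
      (by
        intro p hp hpx hpd hpb
        have hpP : p ∣ P := (hp.dvd_primorial_iff).2 ((Nat.le_floor_iff hx0.le).2 hpx)
        have hpg : p ∣ g := Nat.dvd_gcd hpP hpd
        have := Nat.dvd_gcd hpg hpb
        rw [hbg] at this
        exact hp.one_lt.ne' (Nat.dvd_one.1 this))
      hu hω hωE
      (hcov X hX1 e hee₀ k3 w k5 k6
        ((univ : Finset ι).filter (fun i => ∀ p : ℕ, p.Prime → (p : ℝ) ≤ x → ¬ p ∣ D →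
          ¬ (p : ℤ) ∣ α i * b + β i)) (by
          have e1 : (Fintype.card ((univ : Finset ι).filter (fun i => ∀ p : ℕ, p.Prime →
              (p : ℝ) ≤ x → ¬ p ∣ D → ¬ (p : ℤ) ∣ α i * b + β i)) : ℝ) = (f b : ℝ) := by
            simp only [hf, Fintype.card_coe]
          rw [e1]
          exact hcardU))
      hlen hPd
    rw [add_mul] at h
    rw [hv]
    linarith only [h]
  have hfinal := classes_cnt R P hPpos G
    ((Finset.filter_subset _ _).trans (Finset.filter_subset _ _)) v Φ hclass hΦ0.le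
  have hcardR : (R.card : ℝ) = ((RG M X (X ^ δ) D α β).ncard : ℝ) := by
    rw [hR, Set.ncard_eq_toFinset_card _ (RG_finite M X (X ^ δ) D α β)]
  rw [hcardR] at hfinal
  have hGt : t / 2 * G₀.card ≤ G.card := by
    refine le_trans ?_ hgood
    apply mul_le_mul_of_nonneg_right _ hG₀pos.le
    have h1t : 0 < 1 + t := by linarith only [ht]
    rw [div_le_div_iff₀ (by norm_num) h1t]
    have : t * t ≤ t * 1 := mul_le_mul_of_nonneg_left (by linarith only [ht8]) ht.le
    linarith only [this]
  have h1 : t / 8 * ((D.totient : ℝ) / D * X) ≤ G.card * v := by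
    have hv0 : 0 ≤ X / P / 4 := by positivity
    calc t / 8 * ((D.totient : ℝ) / D * X) = t / 2 * ((D.totient : ℝ) / D * P) * (X / P / 4) := by
          field_simp
          ring
      _ ≤ t / 2 * G₀.card * (X / P / 4) := by
          apply mul_le_mul_of_nonneg_right _ hv0
          exact mul_le_mul_of_nonneg_left hGd' (by positivity)
      _ ≤ G.card * (X / P / 4) := mul_le_mul_of_nonneg_right hGt hv0
      _ ≤ G.card * v := mul_le_mul_of_nonneg_left hv4 (Nat.cast_nonneg _)
  have h2 := h1.trans hfinal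
  have hcst := q_const K s t hK hs0 ht
  have h3 : (D.totient : ℝ) / D * X * Real.exp (-Real.exp (16 * K +
      Real.log (2 * (15 + s) ^ 2 * Real.exp s + 8 / t))) * Φ ≤
      t / 8 * ((D.totient : ℝ) / D * X) := by
    have e1 : Real.exp (-Real.exp (16 * K +
        Real.log (2 * (15 + s) ^ 2 * Real.exp s + 8 / t))) * Φ ≤ t / 8 := by
      rw [hΦdef, ← Real.exp_add]
      have e2 : -Real.exp (16 * K + Real.log (2 * (15 + s) ^ 2 * Real.exp s + 8 / t)) +
        e ^ 2 * Real.exp e ≤ -Real.log (8 / t) := by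
        rw [he]
        linarith
      refine (Real.exp_le_exp.2 e2).trans (le_of_eq ?_)
      rw [Real.exp_neg, Real.exp_log (by positivity)]
      field_simp
    calc (D.totient : ℝ) / D * X * Real.exp (-Real.exp (16 * K +
        Real.log (2 * (15 + s) ^ 2 * Real.exp s + 8 / t))) * Φ =
        (Real.exp (-Real.exp (16 * K +
        Real.log (2 * (15 + s) ^ 2 * Real.exp s + 8 / t))) * Φ) * ((D.totient : ℝ) / D * X) := by
          ring
      _ ≤ t / 8 * ((D.totient : ℝ) / D * X) := mul_le_mul_of_nonneg_right e1 (by positivity)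
  exact le_of_mul_le_mul_right (h3.trans h2) hΦ0

end Pool.Agent.N837.LP
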