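import Mathlib

set_option autoImplicit false
set_option linter.unusedVariables false

/-! # Covering a family of linear forms by the values divisible by medium primes -/

namespace Pool.Agent.N837.LP

open Finset

open scoped Classical

/-- the number of integers of a class in an interval -/
theorem cnt_class (A B r : ℤ) (p : ℕ) (hp : 0 < p) (hAB : A ≤ B) :
    (((Ioc A B).filter (fun m : ℤ => (p : ℤ) ∣ m - r)).card : ℝ) ≤ ((B : ℝ) - A) / p + 1 := by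
  have hp' : (0 : ℤ) < p := by exact_mod_cast hp
  have hpr : (0 : ℝ) < p := by exact_mod_cast hp
  have h1 : ((Ioc A B).filter (fun m : ℤ => (p : ℤ) ∣ m - r)) =
      (Ioc A B).filter (fun m : ℤ => m ≡ r [ZMOD p]) := by
    apply Finset.filter_congr
    intro m _
    rw [Int.modEq_comm, Int.modEq_iff_dvd]
  rw [h1]
  have h2 := Int.Ioc_filter_modEq_card A B hp' r
  set N := ((Ioc A B).filter (fun m : ℤ => m ≡ r [ZMOD p])).card with hN
  have h3 : ((N : ℤ) : ℝ) ≤ ((B : ℝ) - A) / p + 1 := by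
    rw [h2]
    have e0 : (0:ℝ) ≤ ((B : ℝ) - A) / p + 1 := by
      have : (0:ℝ) ≤ (B:ℝ) - A := by
        have : (A:ℝ) ≤ B := by exact_mod_cast hAB
        linarith
      positivity
    rw [Int.cast_max]
    apply max_le _ (by simpa using e0)
    have e1 := Int.floor_le (((B : ℚ) - r) / ((p : ℤ) : ℚ))
    have e2 := Int.lt_floor_add_one (((A : ℚ) - r) / ((p : ℤ) : ℚ))
    have e3 : ((⌊((B : ℚ) - r) / ((p : ℤ) : ℚ)⌋ : ℤ) : ℝ) ≤ ((B : ℝ) - r) / p := by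
      have := (Rat.cast_le (K := ℝ)).2 e1
      push_cast at this
      exact this
    have e4 : ((A : ℝ) - r) / p < ((⌊((A : ℚ) - r) / ((p : ℤ) : ℚ)⌋ : ℤ) : ℝ) + 1 := by
      have := (Rat.cast_lt (K := ℝ)).2 e2
      push_cast at this
      exact this
    rw [Int.cast_sub]
    have e5 : ((B : ℝ) - r) / p - ((A : ℝ) - r) / p = ((B : ℝ) - A) / p := by
      field_simp
      ring
    linarith
  exact_mod_cast h3

theorem inv_ex {p : ℕ} (hp : p.Prime) {a : ℤ} (ha : ¬ (p : ℤ) ∣ a) :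
    ∃ i : ℤ, (p : ℤ) ∣ a * i - 1 := by
  have hpi : Prime (p : ℤ) := Nat.prime_iff_prime_int.1 hp
  have hc : IsCoprime (p : ℤ) a := (Prime.coprime_iff_not_dvd hpi).2 ha
  obtain ⟨u, v, huv⟩ := hc
  refine ⟨v, -u, ?_⟩
  linear_combination huv

/-- the covering theorem for linear forms, with a set `E` of forbidden primes -/
theorem gen_class {κ : Type} [Fintype κ] (α β τ : κ → ℤ) (E : Finset ℕ)
    (w y₁ len Φ : ℝ) (hE : ∀ p ∈ E, p.Prime) (hΦ : 0 ≤ Φ)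
    (hcov : ∀ res : ℕ → κ → ℤ,
      (∀ p : ℕ, p.Prime → w < p → (p : ℝ) ≤ y₁ → ∀ k l, k ≠ l →
        ¬ ((p : ℤ) ∣ res p k - res p l)) →
      ∀ A B : ℤ, len ≤ (B : ℝ) - A →
      3 / 8 * ((B : ℝ) - A) ≤ (((Ioc A B).filter (fun x : ℤ => ∀ k, ∃ p : ℕ, p.Prime ∧
        w < p ∧ (p : ℝ) ≤ y₁ ∧ (p : ℤ) ∣ x - res p k)).card : ℝ) * Φ)
    (hα : ∀ p : ℕ, p.Prime → w < p → (p : ℝ) ≤ y₁ → p ∉ E → ∀ k, ¬ (p : ℤ) ∣ α k)
    (hdet : ∀ p : ℕ, p.Prime → w < p → (p : ℝ) ≤ y₁ → p ∉ E → ∀ k l, k ≠ l →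
      ¬ (p : ℤ) ∣ α k * β l - α l * β k)
    (hτ : ∀ p ∈ E, w < p → ∀ k l, k ≠ l → ¬ (p : ℤ) ∣ τ k - τ l)
    (A B : ℤ) (hAB : A ≤ B) (hlen : len ≤ (B : ℝ) - A) :
    3 / 8 * ((B : ℝ) - A) ≤ ((((Ioc A B).filter (fun m : ℤ => ∀ k, ∃ p : ℕ, p.Prime ∧
      w < p ∧ (p : ℝ) ≤ y₁ ∧ p ∉ E ∧ (p : ℤ) ∣ α k * m + β k)).card : ℝ) +
      ∑ p ∈ E.filter (fun p : ℕ => w < p), (Fintype.card κ : ℝ) * (((B : ℝ) - A) / p + 1)) * Φ := by
  have hinv : ∀ (p : ℕ) (k : κ), ∃ i : ℤ, p.Prime → ¬ (p : ℤ) ∣ α k → (p : ℤ) ∣ α k * i - 1 := by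
    intro p k
    by_cases h : p.Prime ∧ ¬ (p : ℤ) ∣ α k
    · obtain ⟨i, hi⟩ := inv_ex h.1 h.2
      exact ⟨i, fun _ _ => hi⟩
    · exact ⟨0, fun h1 h2 => absurd ⟨h1, h2⟩ h⟩
  choose ip hip using hinv
  set res : ℕ → κ → ℤ := fun p k => if p ∈ E then τ k else - (β k * ip p k) with hres
  have hc := hcov res (by
    intro p hp hp1 hp2 k l hkl hd
    by_cases hpE : p ∈ E
    · simp only [hres, if_pos hpE] at hd
      exact hτ p hpE hp1 k l hkl hd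
    · simp only [hres, if_neg hpE] at hd
      have h1 := hip p k hp (hα p hp hp1 hp2 hpE k)
      have h2 := hip p l hp (hα p hp hp1 hp2 hpE l)
      apply hdet p hp hp1 hp2 hpE k l hkl
      obtain ⟨u, hu⟩ := h1
      obtain ⟨v, hv⟩ := h2
      obtain ⟨s, hs⟩ := hd
      refine ⟨α k * α l * s + β k * α l * u - β l * α k * v, ?_⟩
      linear_combination (α k * α l) * hs + (β k * α l) * hu - (β l * α k) * hv) A B hlen
  refine hc.trans (mul_le_mul_of_nonneg_right ?_ hΦ)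
  have hsub : (Ioc A B).filter (fun x : ℤ => ∀ k, ∃ p : ℕ, p.Prime ∧
        w < p ∧ (p : ℝ) ≤ y₁ ∧ (p : ℤ) ∣ x - res p k) ⊆
      (Ioc A B).filter (fun m : ℤ => ∀ k, ∃ p : ℕ, p.Prime ∧
        w < p ∧ (p : ℝ) ≤ y₁ ∧ p ∉ E ∧ (p : ℤ) ∣ α k * m + β k) ∪
      (E.filter (fun p : ℕ => w < p)).biUnion (fun p =>
        (univ : Finset κ).biUnion (fun k => (Ioc A B).filter (fun m : ℤ => (p : ℤ) ∣ m - τ k))) := by
    intro m hm
    rw [mem_filter] at hm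
    rw [mem_union]
    by_cases hbad : ∃ p ∈ E, w < p ∧ ∃ k, (p : ℤ) ∣ m - τ k
    · right
      obtain ⟨p, hpE, hpw, k, hk⟩ := hbad
      rw [mem_biUnion]
      refine ⟨p, mem_filter.2 ⟨hpE, hpw⟩, ?_⟩
      rw [mem_biUnion]
      exact ⟨k, mem_univ _, mem_filter.2 ⟨hm.1, hk⟩⟩
    · left
      rw [mem_filter]
      refine ⟨hm.1, fun k => ?_⟩
      obtain ⟨p, hp, hp1, hp2, hp3⟩ := hm.2 k
      have hpE : p ∉ E := by
        intro hpE
        apply hbad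
        refine ⟨p, hpE, hp1, k, ?_⟩
        simpa only [hres, if_pos hpE] using hp3
      refine ⟨p, hp, hp1, hp2, hpE, ?_⟩
      simp only [hres, if_neg hpE] at hp3
      obtain ⟨u, hu⟩ := hip p k hp (hα p hp hp1 hp2 hpE k)
      obtain ⟨s, hs⟩ := hp3
      refine ⟨α k * s - β k * u, ?_⟩
      linear_combination (α k) * hs - (β k) * hu
  have h1 := card_le_card hsub
  have h2 : (((E.filter (fun p : ℕ => w < p)).biUnion (fun p =>
        (univ : Finset κ).biUnion (fun k => (Ioc A B).filter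
          (fun m : ℤ => (p : ℤ) ∣ m - τ k)))).card : ℝ) ≤
      ∑ p ∈ E.filter (fun p : ℕ => w < p), (Fintype.card κ : ℝ) * (((B : ℝ) - A) / p + 1) := by
    refine le_trans (Nat.cast_le.2 card_biUnion_le) ?_
    push_cast
    apply Finset.sum_le_sum
    intro p hp
    have hp0 : 0 < p := (hE p (mem_filter.1 hp).1).pos
    refine le_trans (Nat.cast_le.2 card_biUnion_le) ?_
    push_cast
    calc ∑ k : κ, (((Ioc A B).filter (fun m : ℤ => (p : ℤ) ∣ m - τ k)).card : ℝ)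
        ≤ ∑ _k : κ, (((B : ℝ) - A) / p + 1) :=
          Finset.sum_le_sum (fun k _ => cnt_class A B (τ k) p hp0 hAB)
      _ = (Fintype.card κ : ℝ) * (((B : ℝ) - A) / p + 1) := by
          rw [Finset.sum_const, nsmul_eq_mul, card_univ]
  calc (((Ioc A B).filter (fun x : ℤ => ∀ k, ∃ p : ℕ, p.Prime ∧
        w < p ∧ (p : ℝ) ≤ y₁ ∧ (p : ℤ) ∣ x - res p k)).card : ℝ) ≤
      (((Ioc A B).filter (fun m : ℤ => ∀ k, ∃ p : ℕ, p.Prime ∧
        w < p ∧ (p : ℝ) ≤ y₁ ∧ p ∉ E ∧ (p : ℤ) ∣ α k * m + β k) ∪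
      (E.filter (fun p : ℕ => w < p)).biUnion (fun p =>
        (univ : Finset κ).biUnion (fun k => (Ioc A B).filter
          (fun m : ℤ => (p : ℤ) ∣ m - τ k)))).card : ℝ) := by exact_mod_cast h1
    _ ≤ _ := by
      refine le_trans (Nat.cast_le.2 (card_union_le _ _)) ?_
      push_cast
      linarith

end Pool.Agent.N837.LP
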