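import Pool.Agent.N837.LP.GenV

set_option autoImplicit false
set_option linter.unusedVariables false

/-! # Several multiples at the same time: forms `j n + c` with bounded `j` -/

namespace Pool.Agent.N837.LP

open Finset Filter

open scoped Classical

/-- natural numbers of the parity of `r` in `(X, X + W]` such that every `j n + c` is composite with a
prime factor at most `y` -/
def JM (X W y : ℝ) (r : ℤ) (F : Finset (ℕ × ℤ)) : Set ℕ :=
  {n : ℕ | X < n ∧ (n : ℝ) ≤ X + W ∧ (n : ℤ) % 2 = r % 2 ∧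
    ∀ s ∈ F, ∃ q : ℕ, q.Prime ∧ (q : ℝ) ≤ y ∧ (q : ℤ) ∣ s.1 * n + s.2 ∧ (q : ℤ) < s.1 * n + s.2}

theorem JM_finite (X W y : ℝ) (r : ℤ) (F : Finset (ℕ × ℤ)) : (JM X W y r F).Finite := by
  apply (Set.finite_Iic ⌊X + W⌋₊).subset
  intro a ha
  obtain ⟨_, h2, _⟩ := ha
  rw [Set.mem_Iic]
  exact Nat.le_floor h2

theorem genM (δ : ℝ) (hδ : 0 < δ) : ∃ C : ℝ, 0 < C ∧ ∀ (J : ℕ) (A η : ℝ), 1 ≤ J → 1 ≤ A → 0 < η →
    η ≤ 1 → ∃ X₀ : ℝ, ∀ X : ℝ, X₀ ≤ X → ∀ F : Finset (ℕ × ℤ), (F.card : ℝ) ≤ A * Real.log X →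
    (∀ s ∈ F, 1 ≤ s.1 ∧ s.1 ≤ J ∧ IsCoprime (s.1 : ℤ) s.2 ∧ |(s.2 : ℝ)| ≤ X / 2) → ∀ r : ℤ,
    X ^ η * Real.exp (-Real.exp (C * J * A / η)) ≤
      ((JM X (X ^ η) (X ^ (η * δ)) r F).ncard : ℝ) := by
  set δ' : ℝ := min δ (1 / 2) with hδ'def
  have hδ' : 0 < δ' := lt_min hδ (by norm_num)
  have hδδ : δ' ≤ δ := min_le_left _ _
  have hδ2 : δ' ≤ 1 / 2 := min_le_right _ _
  obtain ⟨C₀, hC₀, hG⟩ := mainG δ' hδ'
  refine ⟨64 + C₀ + 1, by linarith, fun J A η hJ hA hη hη1 => ?_⟩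
  have hJR : (1:ℝ) ≤ J := by exact_mod_cast hJ
  set K : ℝ := J * A / η with hK
  have hK1 : 1 ≤ K := by
    rw [hK, le_div_iff₀ hη]
    nlinarith
  have hη2 : 1 ≤ 4 / η := by
    rw [le_div_iff₀ hη]
    linarith
  obtain ⟨X₀, hX₀⟩ := hG (4 * K) (4 / η) (by linarith) hη2
  have h1 : ∀ᶠ X : ℝ in atTop, 2 * max X₀ 1 ≤ X ^ η := (tendsto_rpow_atTop hη).eventually_ge_atTop _
  have h2 : ∀ᶠ X : ℝ in atTop, (2:ℝ) ≤ X ^ (η / 2) :=
    (tendsto_rpow_atTop (half_pos hη)).eventually_ge_atTop _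
  have h3 : ∀ᶠ X : ℝ in atTop, (2:ℝ) < X ^ (1 / 2 : ℝ) :=
    (tendsto_rpow_atTop (by norm_num)).eventually_gt_atTop _
  obtain ⟨X₁, hX₁⟩ := Filter.eventually_atTop.1 (h1.and (h2.and (h3.and
    (eventually_ge_atTop (max 16 (2 * (J:ℝ)))))))
  refine ⟨X₁, fun X hX F hF hFX r => ?_⟩
  obtain ⟨g1, g2, g3, g4⟩ := hX₁ X hX
  have hX16 : 16 ≤ X := (le_max_left _ _).trans g4
  have hXJ : 2 * (J:ℝ) ≤ X := (le_max_right _ _).trans g4
  have hX0 : 0 < X := by linarith
  set Y : ℝ := X ^ η / 2 with hY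
  have hY1 : 1 ≤ Y := by
    have := (le_max_right X₀ 1)
    linarith
  have hYX₀ : X₀ ≤ Y := by
    have := (le_max_left X₀ 1)
    linarith
  have hY0 : 0 < Y := by linarith
  have hYlow : X ^ (η / 2) ≤ Y := by
    have e1 : X ^ η = X ^ (η / 2) * X ^ (η / 2) := by
      rw [← Real.rpow_add hX0]
      ring_nf
    rw [hY, e1]
    nlinarith
  have hYup : Y ≤ X ^ η := by
    rw [hY]
    have : 0 < X ^ η := by positivity
    linarith
  have hlog0 : 0 ≤ Real.log X := Real.log_nonneg (by linarith)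
  have hlogY : η / 2 * Real.log X ≤ Real.log Y := by
    rw [← Real.log_rpow hX0]
    exact Real.log_le_log (by positivity) hYlow
  have hpow : X * X ≤ Y ^ (4 / η) := by
    calc X * X = (X ^ (η / 2)) ^ (4 / η) := by
          rw [← Real.rpow_mul hX0.le]
          have : η / 2 * (4 / η) = 2 := by field_simp; norm_num
          rw [this, show (2:ℝ) = ((2:ℕ):ℝ) by norm_num, Real.rpow_natCast]
          ring
      _ ≤ _ := Real.rpow_le_rpow (by positivity) hYlow (by positivity)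
  have hy : (X ^ η) ^ δ' < X / 2 := by
    have e1 : (X ^ η) ^ δ' ≤ X ^ (1 / 2 : ℝ) := by
      rw [← Real.rpow_mul hX0.le]
      apply Real.rpow_le_rpow_of_exponent_le (by linarith)
      nlinarith
    have e2 : X ^ (1 / 2 : ℝ) * X ^ (1 / 2 : ℝ) = X := by
      rw [← Real.rpow_add hX0]
      norm_num
    nlinarith
  set r' : ℤ := r % 2 with hr'
  have hr0 : 0 ≤ r' := Int.emod_nonneg _ (by norm_num)
  have hr1 : r' < 2 := Int.emod_lt_of_pos _ (by norm_num)
  have hr0R : (0:ℝ) ≤ r' := by exact_mod_cast hr0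
  have hr1R : (r':ℝ) ≤ 1 := by
    have : r' ≤ 1 := by omega
    exact_mod_cast this
  have hmain := hX₀ Y hYX₀ {s : ℕ × ℤ // s ∈ F} (fun s => 2 * (s.1.1 : ℤ))
    (fun s => (s.1.1 : ℤ) * r' + s.1.2) 1 one_pos
    (by
      rw [Nat.cast_one]
      apply Real.one_le_rpow hY1 (by positivity))
    (fun s => by
      have := (hFX s.1 s.2).1
      have : (0:ℤ) < s.1.1 := by exact_mod_cast this
      linarith)
    (fun s => by
      have e1 := (hFX s.1 s.2).2.1
      have e2 : (s.1.1 : ℝ) ≤ J := by exact_mod_cast e1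
      have e0 : (0:ℝ) ≤ s.1.1 := Nat.cast_nonneg _
      push_cast
      rw [abs_of_nonneg (by positivity)]
      refine le_trans ?_ hpow
      nlinarith)
    (fun s => by
      have e1 := (hFX s.1 s.2).2.1
      have e2 : (s.1.1 : ℝ) ≤ J := by exact_mod_cast e1
      have e0 : (0:ℝ) ≤ s.1.1 := Nat.cast_nonneg _
      have e3 := (hFX s.1 s.2).2.2.2
      push_cast
      refine le_trans (abs_add_le _ _) (le_trans ?_ hpow)
      rw [abs_of_nonneg (mul_nonneg e0 hr0R)]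
      nlinarith)
    (fun i j hij => by
      intro h
      apply hij
      apply Subtype.ext
      obtain ⟨a1, a2, a3, a4⟩ := hFX i.1 i.2
      obtain ⟨b1, b2, b3, b4⟩ := hFX j.1 j.2
      have h2 : (i.1.1 : ℤ) * j.1.2 = j.1.1 * i.1.2 := by linarith
      have d1 : (i.1.1 : ℤ) ∣ j.1.1 := by
        have : (i.1.1 : ℤ) ∣ j.1.1 * i.1.2 := ⟨_, h2.symm⟩
        exact a3.dvd_of_dvd_mul_right this
      have d2 : (j.1.1 : ℤ) ∣ i.1.1 := by
        have : (j.1.1 : ℤ) ∣ i.1.1 * j.1.2 := ⟨_, h2⟩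
        exact b3.dvd_of_dvd_mul_right this
      have d3 : i.1.1 = j.1.1 := Nat.dvd_antisymm (by exact_mod_cast d1) (by exact_mod_cast d2)
      have d4 : (0:ℤ) < j.1.1 := by exact_mod_cast b1
      rw [d3] at h2
      have d5 := mul_left_cancel₀ d4.ne' h2
      exact Prod.ext d3 d5.symm)
    (by
      simp only [Nat.totient_one, Nat.cast_one, div_one, mul_one]
      have hterm : ∀ s ∈ (Finset.univ : Finset {s : ℕ × ℤ // s ∈ F}),
          ((((2 * (s.1.1 : ℤ)).natAbs : ℕ) : ℝ) / (((2 * (s.1.1 : ℤ)).natAbs.totient : ℕ) : ℝ)) ≤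
            2 * (J : ℝ) := by
        intro s _
        obtain ⟨a1, a2, _, _⟩ := hFX s.1 s.2
        have e1 : (2 * (s.1.1 : ℤ)).natAbs = 2 * s.1.1 := by
          rw [Int.natAbs_mul]
          simp
        rw [e1]
        have e2 : 1 ≤ (2 * s.1.1).totient := Nat.totient_pos.2 (by omega)
        have e3 : (1:ℝ) ≤ ((2 * s.1.1).totient : ℝ) := by exact_mod_cast e2
        have e4 : ((2 * s.1.1 : ℕ) : ℝ) ≤ 2 * J := by exact_mod_cast (by omega : 2 * s.1.1 ≤ 2 * J)
        calc ((2 * s.1.1 : ℕ) : ℝ) / ((2 * s.1.1).totient : ℝ) ≤ ((2 * s.1.1 : ℕ) : ℝ) :=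
              div_le_self (Nat.cast_nonneg _) e3
          _ ≤ _ := e4
      refine (Finset.sum_le_sum hterm).trans ?_
      rw [Finset.sum_const, Finset.card_univ, Fintype.card_coe, nsmul_eq_mul]
      calc (F.card : ℝ) * (2 * J) ≤ (A * Real.log X) * (2 * J) :=
            mul_le_mul_of_nonneg_right hF (by positivity)
        _ = 4 * K * (η / 2 * Real.log X) := by
            rw [hK]
            field_simp
            ring
        _ ≤ 4 * K * Real.log Y := mul_le_mul_of_nonneg_left hlogY (by linarith))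
    ((X - r') / 2)
  simp only [Nat.totient_one, Nat.cast_one, div_one, one_mul] at hmain
  set R : Set ℤ := RG ((X - r') / 2) Y (Y ^ δ') 1 (fun s : {s : ℕ × ℤ // s ∈ F} => 2 * (s.1.1 : ℤ))
    (fun s => (s.1.1 : ℤ) * r' + s.1.2) with hR
  have hinj : (R.ncard : ℝ) ≤ ((JM X (X ^ η) (X ^ (η * δ)) r F).ncard : ℝ) := by
    have hpos : ∀ x ∈ R, X < ((2 * x + r' : ℤ) : ℝ) ∧ ((2 * x + r' : ℤ) : ℝ) ≤ X + X ^ η := by
      intro x hx
      obtain ⟨q1, q2, _⟩ := hx
      push_cast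
      rw [hY] at q2
      constructor <;> linarith
    refine Nat.cast_le.2 (Set.ncard_le_ncard_of_injOn (fun x : ℤ => (2 * x + r').toNat) ?_ ?_
      (JM_finite _ _ _ _ _))
    · intro x hx
      obtain ⟨w1, w2⟩ := hpos x hx
      obtain ⟨q1, q2, q3, q4⟩ := hx
      have hx0 : 0 < 2 * x + r' := by
        have : (0:ℝ) < ((2 * x + r' : ℤ) : ℝ) := by linarith
        exact_mod_cast this
      have hxn : (((2 * x + r').toNat : ℕ) : ℤ) = 2 * x + r' := Int.toNat_of_nonneg hx0.le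
      have hxr : (((2 * x + r').toNat : ℕ) : ℝ) = ((2 * x + r' : ℤ) : ℝ) := by exact_mod_cast hxn
      refine ⟨?_, ?_, ?_, ?_⟩
      · show X < (((2 * x + r').toNat : ℕ) : ℝ)
        rw [hxr]
        exact w1
      · show (((2 * x + r').toNat : ℕ) : ℝ) ≤ X + X ^ η
        rw [hxr]
        exact w2
      · show (((2 * x + r').toNat : ℕ) : ℤ) % 2 = r % 2
        rw [hxn]
        omega
      · intro s hs
        obtain ⟨q, p1, p2, p3, p4⟩ := q4 ⟨s, hs⟩
        have hq : (q : ℝ) ≤ (X ^ η) ^ δ' := p2.trans (Real.rpow_le_rpow hY0.le hYup hδ'.le)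
        refine ⟨q, p1, ?_, ?_, ?_⟩
        · refine hq.trans ?_
          rw [← Real.rpow_mul hX0.le]
          apply Real.rpow_le_rpow_of_exponent_le (by linarith)
          exact mul_le_mul_of_nonneg_left hδδ hη.le
        · show (q : ℤ) ∣ s.1 * (((2 * x + r').toNat : ℕ) : ℤ) + s.2
          rw [hxn]
          have : (s.1 : ℤ) * (2 * x + r') + s.2 = 2 * (s.1 : ℤ) * x + ((s.1 : ℤ) * r' + s.2) := by
            ring
          rw [this]
          exact p4
        · show (q : ℤ) < s.1 * (((2 * x + r').toNat : ℕ) : ℤ) + s.2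
          rw [hxn]
          obtain ⟨a1, a2, a3, a4⟩ := hFX s hs
          have e1 : (1:ℝ) ≤ s.1 := by exact_mod_cast a1
          have e2 := (abs_le.1 a4).1
          have e3 : (q : ℝ) < ((s.1 * (2 * x + r') + s.2 : ℤ) : ℝ) := by
            rw [Int.cast_add, Int.cast_mul]
            have e4 : ((2 * x + r' : ℤ) : ℝ) ≤ ((s.1 : ℤ) : ℝ) * ((2 * x + r' : ℤ) : ℝ) := by
              rw [Int.cast_natCast]
              nlinarith
            linarith
          exact_mod_cast e3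
    · intro x hx x' hx' hxy
      obtain ⟨w1, _⟩ := hpos x hx
      obtain ⟨w1', _⟩ := hpos x' hx'
      have hx0 : 0 < 2 * x + r' := by
        have : (0:ℝ) < ((2 * x + r' : ℤ) : ℝ) := by linarith
        exact_mod_cast this
      have hx0' : 0 < 2 * x' + r' := by
        have : (0:ℝ) < ((2 * x' + r' : ℤ) : ℝ) := by linarith
        exact_mod_cast this
      have : (2 * x + r').toNat = (2 * x' + r').toNat := hxy
      omega
  refine le_trans ?_ (hmain.trans hinj)
  have e0 : Y * Real.exp (-Real.exp (16 * (4 * K) + C₀)) =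
      X ^ η * (Real.exp (-Real.exp (16 * (4 * K) + C₀)) * (1 / 2)) := by
    rw [hY]
    ring
  rw [e0]
  apply mul_le_mul_of_nonneg_left _ (by positivity)
  have e3 : Real.exp (-1) ≤ 1 / 2 := by
    rw [Real.exp_neg, one_div]
    have a1 : 2 ≤ Real.exp 1 := by
      have := Real.add_one_le_exp (1:ℝ)
      linarith
    exact inv_anti₀ (by norm_num) a1
  refine le_trans ?_ (mul_le_mul_of_nonneg_left e3 (Real.exp_pos _).le)
  rw [← Real.exp_add]
  apply Real.exp_le_exp.2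
  have e4 : (64 + C₀ + 1) * J * A / η = 16 * (4 * K) + C₀ * K + K := by
    rw [hK]
    ring
  have e5 : C₀ ≤ C₀ * K := le_mul_of_one_le_right hC₀ hK1
  have e6 : Real.exp (16 * (4 * K) + C₀) + 1 ≤ Real.exp ((64 + C₀ + 1) * J * A / η) := by
    have e7 : Real.exp (16 * (4 * K) + C₀ + 1) ≤ Real.exp ((64 + C₀ + 1) * J * A / η) := by
      apply Real.exp_le_exp.2
      rw [e4]
      linarith
    refine le_trans ?_ e7
    rw [Real.exp_add _ 1]
    have a1 : 2 ≤ Real.exp 1 := by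
      have := Real.add_one_le_exp (1:ℝ)
      linarith
    have a2 : 1 ≤ Real.exp (16 * (4 * K) + C₀) := Real.one_le_exp (by linarith)
    nlinarith
  linarith

end Pool.Agent.N837.LP
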