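import Pool.Agent.N837.LP.GenW

set_option autoImplicit false
set_option linter.unusedVariables false

/-! # Arbitrary sparse sets of shifts, numbers of a residue class, short windows -/

namespace Pool.Agent.N837.LP

open Finset Filter

open scoped Classical

/-- natural numbers `≡ r (mod Q)` in `(X, X + W]` such that every `|n - b|` is composite with
a prime factor at most `y` -/
def JQ (X W y : ℝ) (Q : ℕ) (r : ℤ) (B : Finset ℤ) : Set ℕ :=
  {n : ℕ | X < n ∧ (n : ℝ) ≤ X + W ∧ (Q : ℤ) ∣ n - r ∧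
    ∀ b ∈ B, ∃ q : ℕ, q.Prime ∧ (q : ℝ) ≤ y ∧ (q : ℤ) ∣ n - b ∧ (q : ℤ) < |(n : ℤ) - b|}

theorem JQ_finite (X W y : ℝ) (Q : ℕ) (r : ℤ) (B : Finset ℤ) : (JQ X W y Q r B).Finite := by
  apply (Set.finite_Iic ⌊X + W⌋₊).subset
  intro a ha
  obtain ⟨_, h2, _⟩ := ha
  rw [Set.mem_Iic]
  exact Nat.le_floor h2

/-- arbitrary sets of at most `A log X` shifts `|b| ≤ X ^ E`, numbers `≡ r (mod Q)` -/
theorem genQ (δ : ℝ) (hδ : 0 < δ) : ∃ C : ℝ, 0 < C ∧ ∀ A η E κ : ℝ, 1 ≤ A → 0 < η → η ≤ 1 → 1 ≤ E →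
    1 ≤ κ → ∃ X₀ : ℝ, ∀ X : ℝ, X₀ ≤ X → ∀ Q : ℕ, 0 < Q → (Q : ℝ) ≤ X ^ (η / 2) →
    (Q : ℝ) ≤ κ * Q.totient → ∀ B : Finset ℤ, (B.card : ℝ) ≤ A * Real.log X →
    (∀ b ∈ B, |(b : ℝ)| ≤ X ^ E) → ∀ r : ℤ,
    X ^ η / Q * Real.exp (-Real.exp (C * A * κ / η)) ≤
      ((JQ X (X ^ η) (X ^ (η * δ)) Q r B).ncard : ℝ) := by
  set δ' : ℝ := min δ (1 / 4) with hδ'def
  have hδ' : 0 < δ' := lt_min hδ (by norm_num)
  have hδδ : δ' ≤ δ := min_le_left _ _
  have hδ2 : δ' ≤ 1 / 4 := min_le_right _ _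
  obtain ⟨C₀, hC₀, hG⟩ := mainG δ' hδ'
  refine ⟨32 + C₀ + 1, by linarith, fun A η E κ hA hη hη1 hE hκ1 => ?_⟩
  have hAη : 1 ≤ A / η := by
    rw [le_div_iff₀ hη]
    linarith
  have hAκη : 1 ≤ A * κ / η := by
    rw [le_div_iff₀ hη]
    nlinarith
  have hη2 : 1 ≤ E / η := by
    rw [le_div_iff₀ hη]
    linarith
  obtain ⟨X₀, hX₀⟩ := hG (2 * (A * κ / η)) (4 * (E / η)) (by linarith) (by linarith)
  set lam : ℝ := Real.exp (-Real.exp (16 * (2 * (A * κ / η)) + C₀)) with hlam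
  have hlam0 : 0 < lam := Real.exp_pos _
  have h1 : ∀ᶠ X : ℝ in atTop, max X₀ 1 ≤ X ^ (η / 2) :=
    (tendsto_rpow_atTop (half_pos hη)).eventually_ge_atTop _
  have h3 : ∀ᶠ X : ℝ in atTop, Real.log X * (6 * A / lam) ≤ X ^ (η / 4) := by
    have h0 := (isLittleO_log_rpow_atTop (show 0 < η / 4 by positivity)).bound
      (show (0:ℝ) < 1 / (6 * A / lam) by positivity)
    filter_upwards [h0, eventually_ge_atTop 1] with X hX hX1
    rw [Real.norm_of_nonneg (Real.log_nonneg hX1), Real.norm_of_nonneg (by positivity),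
      one_div, ← div_eq_inv_mul, le_div_iff₀ (by positivity)] at hX
    exact hX
  obtain ⟨X₁, hX₁⟩ := Filter.eventually_atTop.1 (h1.and (h3.and (eventually_ge_atTop 4)))
  refine ⟨X₁, fun X hX Q hQ hQX hQφ B hB hBX r => ?_⟩
  obtain ⟨g2, g3, g4⟩ := hX₁ X hX
  have hX0 : 0 < X := by linarith
  have hQ0 : (0:ℝ) < Q := by exact_mod_cast hQ
  have hQ1 : (1:ℝ) ≤ Q := by exact_mod_cast hQ
  have hφ0 : (0:ℝ) < Q.totient := by exact_mod_cast Nat.totient_pos.2 hQ
  have hlog0 : 0 ≤ Real.log X := Real.log_nonneg (by linarith)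
  have hXh : 1 ≤ X ^ (η / 2) := (le_max_right _ _).trans g2
  have hXX : X ^ η = X ^ (η / 2) * X ^ (η / 2) := by
    rw [← Real.rpow_add hX0]
    ring_nf
  have hXη1 : 1 ≤ X ^ η := by nlinarith
  set Y : ℝ := X ^ η / Q with hY
  have hYlow : X ^ (η / 2) ≤ Y := by
    rw [hY, le_div_iff₀ hQ0, hXX]
    exact mul_le_mul_of_nonneg_left hQX (by linarith)
  have hYup : Y ≤ X ^ η := div_le_self (by linarith) hQ1
  have hY0 : 0 < Y := by linarith
  have hlogY : η / 2 * Real.log X ≤ Real.log Y := by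
    rw [← Real.log_rpow hX0]
    exact Real.log_le_log (by positivity) hYlow
  -- the residue
  set r' : ℤ := r % (Q : ℤ) with hr'
  have hQZ : (0:ℤ) < Q := by exact_mod_cast hQ
  have hr0 : 0 ≤ r' := Int.emod_nonneg _ hQZ.ne'
  have hr1 : r' < Q := Int.emod_lt_of_pos _ hQZ
  have hr0R : (0:ℝ) ≤ r' := by exact_mod_cast hr0
  have hr1R : (r':ℝ) ≤ Q := by exact_mod_cast hr1.le
  have hrr : (Q : ℤ) ∣ r' - r := by
    refine ⟨-(r / Q), ?_⟩
    have := Int.emod_add_mul_ediv r (Q : ℤ)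
    rw [hr']
    linarith
  have hE2 : X ^ (2 * E) ≤ Y ^ (4 * (E / η)) := by
    calc X ^ (2 * E) = (X ^ (η / 2)) ^ (4 * (E / η)) := by
          rw [← Real.rpow_mul hX0.le]
          congr 1
          field_simp
          ring
      _ ≤ _ := Real.rpow_le_rpow (by linarith) hYlow (by positivity)
  have hXE : X ≤ X ^ E := by
    calc X = X ^ (1:ℝ) := (Real.rpow_one X).symm
      _ ≤ X ^ E := Real.rpow_le_rpow_of_exponent_le (by linarith) hE
  have hXE2 : X ^ E + X ^ E ≤ X ^ (2 * E) := by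
    have e1 : X ^ (2 * E) = X ^ E * X ^ E := by
      rw [← Real.rpow_add hX0]
      ring_nf
    rw [e1]
    nlinarith
  have hQXE : (Q : ℝ) ≤ X ^ E := by
    refine hQX.trans (Real.rpow_le_rpow_of_exponent_le (by linarith) (by linarith))
  have hmain := hX₀ Y ((le_max_left _ _).trans (g2.trans hYlow)) {b : ℤ // b ∈ B} (fun _ => (Q : ℤ))
    (fun b => r' - b.1) 1 one_pos
    (by
      rw [Nat.cast_one]
      apply Real.one_le_rpow (by linarith) (by positivity))
    (fun _ => by exact_mod_cast hQZ.ne')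
    (fun _ => by
      have e1 : (|((Q:ℤ):ℝ)|) = Q := by
        rw [Int.cast_natCast]
        exact abs_of_pos hQ0
      rw [e1]
      linarith)
    (fun b => by
      have e1 := hBX b.1 b.2
      have e2 : |((r' - b.1 : ℤ) : ℝ)| ≤ Q + |(b.1 : ℝ)| := by
        push_cast
        refine (abs_sub _ _).trans ?_
        rw [abs_of_nonneg hr0R]
        linarith
      linarith)
    (fun i j hij => by
      intro h
      apply hij
      apply Subtype.ext
      have h2 : (Q : ℤ) * (i.1 - j.1) = 0 := by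
        linarith
      rcases mul_eq_zero.1 h2 with h3 | h3
      · exact absurd h3 hQZ.ne'
      · linarith)
    (by
      rw [Finset.sum_const, Finset.card_univ, Fintype.card_coe, nsmul_eq_mul]
      simp only [Nat.totient_one, Nat.cast_one, div_one, mul_one, Int.natAbs_natCast]
      have e1 : (Q : ℝ) / (Q.totient : ℝ) ≤ κ := by
        rw [div_le_iff₀ hφ0]
        exact hQφ
      calc (B.card : ℝ) * ((Q : ℝ) / (Q.totient : ℝ)) ≤ (A * Real.log X) * κ :=
            mul_le_mul hB e1 (by positivity) (by positivity)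
        _ = 2 * (A * κ / η) * (η / 2 * Real.log X) := by field_simp
        _ ≤ 2 * (A * κ / η) * Real.log Y := mul_le_mul_of_nonneg_left hlogY (by linarith))
    ((X - r') / Q)
  simp only [Nat.totient_one, Nat.cast_one, div_one, one_mul] at hmain
  set y : ℝ := Y ^ δ' with hy
  have hy1 : 1 ≤ y := Real.one_le_rpow (by linarith) hδ'.le
  have hyη : y ≤ X ^ (η / 4) := by
    calc y ≤ (X ^ η) ^ δ' := Real.rpow_le_rpow hY0.le hYup hδ'.le
      _ = X ^ (η * δ') := by rw [← Real.rpow_mul hX0.le]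
      _ ≤ _ := by
          apply Real.rpow_le_rpow_of_exponent_le (by linarith)
          nlinarith
  set f : ℤ → ℤ := fun x => (Q : ℤ) * x + r' with hf
  have hfinj : Function.Injective f := by
    intro x z hxz
    have : (Q : ℤ) * (x - z) = 0 := by
      simp only [hf] at hxz
      linarith
    rcases mul_eq_zero.1 this with h3 | h3
    · exact absurd h3 hQZ.ne'
    · linarith
  -- the bad integers
  set Bad : Finset ℤ := B.biUnion (fun b => (Finset.Icc (b - ⌊y⌋) (b + ⌊y⌋))) with hBad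
  have hBadc : (Bad.card : ℝ) ≤ A * Real.log X * (3 * y) := by
    have e1 : Bad.card ≤ ∑ b ∈ B, (Finset.Icc (b - ⌊y⌋) (b + ⌊y⌋)).card := Finset.card_biUnion_le
    have e2 : ((∑ b ∈ B, (Finset.Icc (b - ⌊y⌋) (b + ⌊y⌋)).card : ℕ) : ℝ) ≤ ∑ b ∈ B, (3 * y) := by
      rw [Nat.cast_sum]
      apply Finset.sum_le_sum
      intro b _
      rw [Int.card_Icc]
      have e3 : (0:ℤ) ≤ b + ⌊y⌋ + 1 - (b - ⌊y⌋) := by
        have : (0:ℤ) ≤ ⌊y⌋ := Int.floor_nonneg.2 (by linarith)
        linarith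
      have e4 : (((b + ⌊y⌋ + 1 - (b - ⌊y⌋)).toNat : ℕ) : ℝ) =
          ((b + ⌊y⌋ + 1 - (b - ⌊y⌋) : ℤ) : ℝ) := by
        exact_mod_cast Int.toNat_of_nonneg e3
      rw [e4]
      push_cast
      have := Int.floor_le y
      linarith
    calc (Bad.card : ℝ) ≤ ((∑ b ∈ B, (Finset.Icc (b - ⌊y⌋) (b + ⌊y⌋)).card : ℕ) : ℝ) := by
          exact_mod_cast e1
      _ ≤ _ := e2
      _ = B.card * (3 * y) := by rw [Finset.sum_const, nsmul_eq_mul]
      _ ≤ _ := mul_le_mul_of_nonneg_right hB (by positivity)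
  set R : Set ℤ := RG ((X - r') / Q) Y y 1 (fun _ : {b : ℤ // b ∈ B} => (Q:ℤ)) (fun b => r' - b.1)
    with hR
  have hRfin : R.Finite := by
    apply (Set.finite_Icc ⌊(X - r') / Q⌋ ⌈(X - r') / Q + Y⌉).subset
    intro a ha
    obtain ⟨h1, h2, _⟩ := ha
    rw [Set.mem_Icc]
    constructor
    · have := Int.floor_le ((X - r') / Q)
      have h3 : ((⌊(X - r') / Q⌋ : ℤ) : ℝ) < a := by linarith
      exact_mod_cast h3.le
    · have := Int.le_ceil ((X - r') / Q + Y)
      have h3 : (a : ℝ) ≤ ((⌈(X - r') / Q + Y⌉ : ℤ) : ℝ) := by linarith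
      exact_mod_cast h3
  have himg : ((f '' R).ncard : ℝ) = (R.ncard : ℝ) := by
    rw [Set.ncard_image_of_injective _ hfinj]
  have hinj : ((f '' R \ (Bad : Set ℤ)).ncard : ℝ) ≤
      ((JQ X (X ^ η) (X ^ (η * δ)) Q r B).ncard : ℝ) := by
    have hpos : ∀ x ∈ R, X < ((f x : ℤ) : ℝ) ∧ ((f x : ℤ) : ℝ) ≤ X + X ^ η := by
      intro x hx
      obtain ⟨q1, q2, _⟩ := hx
      rw [div_lt_iff₀ hQ0] at q1
      have e2 : (x : ℝ) * Q ≤ (X - r') + X ^ η := by
        have : (x : ℝ) * Q ≤ ((X - r') / Q + Y) * Q := mul_le_mul_of_nonneg_right q2 hQ0.le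
        have e3 : ((X - r') / Q + Y) * Q = (X - r') + X ^ η := by
          rw [hY]
          field_simp
        linarith
      simp only [hf]
      push_cast
      constructor <;> nlinarith
    refine Nat.cast_le.2 (Set.ncard_le_ncard_of_injOn (fun x : ℤ => x.toNat) ?_ ?_
      (JQ_finite _ _ _ _ _ _))
    · rintro z ⟨⟨x, hx, rfl⟩, hbad⟩
      obtain ⟨w1, w2⟩ := hpos x hx
      obtain ⟨q1, q2, q3, q4⟩ := hx
      have hx0 : 0 < f x := by
        have : (0:ℝ) < (f x : ℤ) := by linarith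
        exact_mod_cast this
      have hxn : (((f x).toNat : ℕ) : ℤ) = f x := Int.toNat_of_nonneg hx0.le
      have hxr : (((f x).toNat : ℕ) : ℝ) = ((f x : ℤ) : ℝ) := by exact_mod_cast hxn
      refine ⟨?_, ?_, ?_, ?_⟩
      · show X < (((f x).toNat : ℕ) : ℝ)
        rw [hxr]
        exact w1
      · show (((f x).toNat : ℕ) : ℝ) ≤ X + X ^ η
        rw [hxr]
        exact w2
      · show (Q : ℤ) ∣ (((f x).toNat : ℕ) : ℤ) - r
        rw [hxn]
        have : f x - r = (Q : ℤ) * x + (r' - r) := by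
          simp only [hf]
          ring
        rw [this]
        exact (Dvd.intro _ rfl).add hrr
      · intro b hb
        obtain ⟨q, p1, p2, p3, p4⟩ := q4 ⟨b, hb⟩
        have e1 : (q : ℝ) ≤ X ^ (η * δ') := by
          refine p2.trans ?_
          rw [Real.rpow_mul hX0.le]
          exact Real.rpow_le_rpow hY0.le hYup hδ'.le
        refine ⟨q, p1, e1.trans ?_, ?_, ?_⟩
        · apply Real.rpow_le_rpow_of_exponent_le (by linarith)
          exact mul_le_mul_of_nonneg_left hδδ hη.le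
        · show (q : ℤ) ∣ (((f x).toNat : ℕ) : ℤ) - b
          rw [hxn]
          have : f x - b = (Q : ℤ) * x + (r' - b) := by
            simp only [hf]
            ring
          rw [this]
          exact p4
        · show (q : ℤ) < |(((f x).toNat : ℕ) : ℤ) - b|
          rw [hxn]
          by_contra hcon
          push Not at hcon
          apply hbad
          rw [Finset.mem_coe, hBad, Finset.mem_biUnion]
          have hqy : (q : ℤ) ≤ ⌊y⌋ := by
            rw [Int.le_floor]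
            exact_mod_cast p2
          have h5 := abs_le.1 (hcon.trans hqy)
          refine ⟨b, hb, ?_⟩
          rw [Finset.mem_Icc]
          constructor <;> linarith [h5.1, h5.2]
    · rintro z ⟨⟨x, hx, rfl⟩, _⟩ z' ⟨⟨x', hx', rfl⟩, _⟩ hxy
      obtain ⟨w1, _⟩ := hpos x hx
      obtain ⟨w1', _⟩ := hpos x' hx'
      have hx0 : 0 < f x := by
        have : (0:ℝ) < (f x : ℤ) := by linarith
        exact_mod_cast this
      have hy0 : 0 < f x' := by
        have : (0:ℝ) < (f x' : ℤ) := by linarith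
        exact_mod_cast this
      have : (f x).toNat = (f x').toNat := hxy
      omega
  have hdiff : (R.ncard : ℝ) - Bad.card ≤ ((f '' R \ (Bad : Set ℤ)).ncard : ℝ) := by
    have e1 := Set.ncard_le_ncard_sdiff_add_ncard (f '' R) (Bad : Set ℤ)
      (Finset.finite_toSet _)
    rw [Set.ncard_coe_finset] at e1
    have e2 : ((f '' R).ncard : ℝ) ≤
        ((f '' R \ (Bad : Set ℤ)).ncard : ℝ) + (Bad.card : ℝ) := by exact_mod_cast e1
    rw [himg] at e2
    linarith
  have hhalf : (Bad.card : ℝ) ≤ Y * lam / 2 := by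
    refine hBadc.trans ?_
    have e1 : A * Real.log X * (3 * y) ≤ A * Real.log X * (3 * X ^ (η / 4)) := by
      apply mul_le_mul_of_nonneg_left _ (by positivity)
      linarith
    refine e1.trans ?_
    have e2 : X ^ (η / 2) = X ^ (η / 4) * X ^ (η / 4) := by
      rw [← Real.rpow_add hX0]
      ring_nf
    have e3 : Real.log X * (6 * A) ≤ X ^ (η / 4) * lam := by
      have : Real.log X * (6 * A / lam) * lam ≤ X ^ (η / 4) * lam :=
        mul_le_mul_of_nonneg_right g3 hlam0.le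
      have e4 : Real.log X * (6 * A / lam) * lam = Real.log X * (6 * A) := by field_simp
      rwa [e4] at this
    have e5 : 0 ≤ X ^ (η / 4) := by positivity
    have e6 : X ^ (η / 4) * X ^ (η / 4) * lam / 2 ≤ Y * lam / 2 := by
      rw [← e2]
      have := mul_le_mul_of_nonneg_right hYlow hlam0.le
      linarith
    nlinarith [mul_le_mul_of_nonneg_left e3 e5]
  have hfin : Y * lam / 2 ≤ ((JQ X (X ^ η) (X ^ (η * δ)) Q r B).ncard : ℝ) := by
    linarith
  refine le_trans ?_ hfin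
  have e1 : Y * lam / 2 = Y * (lam * (1 / 2)) := by ring
  rw [e1]
  apply mul_le_mul_of_nonneg_left _ hY0.le
  have e3 : Real.exp (-1) ≤ 1 / 2 := by
    rw [Real.exp_neg, one_div]
    have a1 : 2 ≤ Real.exp 1 := by
      have := Real.add_one_le_exp (1:ℝ)
      linarith
    exact inv_anti₀ (by norm_num) a1
  refine le_trans ?_ (mul_le_mul_of_nonneg_left e3 hlam0.le)
  rw [hlam, ← Real.exp_add]
  apply Real.exp_le_exp.2
  have e4 : (32 + C₀ + 1) * A * κ / η =
      16 * (2 * (A * κ / η)) + C₀ * (A * κ / η) + A * κ / η := by ring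
  have e5 : C₀ ≤ C₀ * (A * κ / η) := le_mul_of_one_le_right hC₀ hAκη
  have e6 : Real.exp (16 * (2 * (A * κ / η)) + C₀) + 1 ≤ Real.exp ((32 + C₀ + 1) * A * κ / η) := by
    have e7 : Real.exp (16 * (2 * (A * κ / η)) + C₀ + 1) ≤
        Real.exp ((32 + C₀ + 1) * A * κ / η) := by
      apply Real.exp_le_exp.2
      rw [e4]
      linarith
    refine le_trans ?_ e7
    rw [Real.exp_add _ 1]
    have a1 : 2 ≤ Real.exp 1 := by
      have := Real.add_one_le_exp (1:ℝ)
      linarith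
    have a2 : 1 ≤ Real.exp (16 * (2 * (A * κ / η)) + C₀) := by
      apply Real.one_le_exp
      linarith
    nlinarith
  linarith

/-- the values of an arbitrary function at the first elements of an arbitrary set -/
theorem genQF (δ : ℝ) (hδ : 0 < δ) : ∃ C : ℝ, 0 < C ∧ ∀ A η E κ : ℝ, 1 ≤ A → 0 < η → η ≤ 1 → 1 ≤ E →
    1 ≤ κ → ∃ X₀ : ℝ, ∀ X : ℝ, X₀ ≤ X → ∀ Q : ℕ, 0 < Q → (Q : ℝ) ≤ X ^ (η / 2) →
    (Q : ℝ) ≤ κ * Q.totient → ∀ (T : ℕ → Prop) (G : ℕ → ℤ) (r : ℤ),
    X ^ η / Q * Real.exp (-Real.exp (C * A * κ / η)) ≤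
      (({n : ℕ | X < n ∧ (n : ℝ) ≤ X + X ^ η ∧ (Q : ℤ) ∣ n - r ∧
        ∀ t : ℕ, T t → (((Finset.range t).filter T).card : ℝ) ≤ A * Real.log X →
          |(G t : ℝ)| ≤ X ^ E →
          ∃ q : ℕ, q.Prime ∧ (q : ℝ) ≤ X ^ (η * δ) ∧ (q : ℤ) ∣ n - G t ∧
            (q : ℤ) < |(n : ℤ) - G t|}).ncard : ℝ) := by
  obtain ⟨C, hC, h⟩ := genQ δ hδ
  refine ⟨2 * C, by positivity, fun A η E κ hA hη hη1 hE hκ => ?_⟩
  obtain ⟨X₀, hX₀⟩ := h (2 * A) η E κ (by linarith) hη hη1 hE hκ
  refine ⟨max X₀ 4, fun X hX Q hQ hQX hQφ T G r => ?_⟩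
  have hX4 : 4 ≤ X := (le_max_right _ _).trans hX
  have hX0 : 0 < X := by linarith
  have hL : 1 ≤ Real.log X := by
    rw [Real.le_log_iff_exp_le hX0]
    have := Real.exp_one_lt_d9
    linarith
  have key : ∀ a b : ℕ, T a → a < b →
      ((Finset.range a).filter T).card < ((Finset.range b).filter T).card := by
    intro a b ha hab
    apply Finset.card_lt_card
    rw [Finset.ssubset_iff_of_subset]
    · refine ⟨a, ?_, ?_⟩
      · rw [Finset.mem_filter, Finset.mem_range]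
        exact ⟨hab, ha⟩
      · rw [Finset.mem_filter, Finset.mem_range]
        intro h
        omega
    · intro x hx
      rw [Finset.mem_filter, Finset.mem_range] at hx ⊢
      exact ⟨by omega, hx.2⟩
  set TS : Set ℕ := {t : ℕ | T t ∧ (((Finset.range t).filter T).card : ℝ) ≤ A * Real.log X} with hTS
  have hinj : Set.InjOn (fun s => ((Finset.range s).filter T).card) TS := by
    intro s hs t ht hst
    rcases lt_trichotomy s t with h1 | h1 | h1
    · have := key s t hs.1 h1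
      simp only at hst
      omega
    · exact h1
    · have := key t s ht.1 h1
      simp only at hst
      omega
  have hmaps : ∀ s ∈ TS, ((Finset.range s).filter T).card ∈
      ((Finset.range (⌊A * Real.log X⌋₊ + 1) : Finset ℕ) : Set ℕ) := by
    intro s hs
    rw [Finset.mem_coe, Finset.mem_range]
    exact Nat.lt_succ_of_le (Nat.le_floor hs.2)
  have hfin : TS.Finite := Set.Finite.of_injOn hmaps hinj (Finset.finite_toSet _)
  set S : Finset ℤ := (hfin.toFinset.image G).filter (fun b => |(b : ℝ)| ≤ X ^ E) with hS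
  have hScard : (S.card : ℝ) ≤ 2 * A * Real.log X := by
    have e1 : S.card ≤ TS.ncard := by
      refine (Finset.card_filter_le _ _).trans (Finset.card_image_le.trans ?_)
      rw [Set.ncard_eq_toFinset_card _ hfin]
    have e2 : TS.ncard ≤ ⌊A * Real.log X⌋₊ + 1 := by
      have := Set.ncard_le_ncard_of_injOn _ hmaps hinj (Finset.finite_toSet _)
      rwa [Set.ncard_coe_finset, Finset.card_range] at this
    have e3 : (S.card : ℝ) ≤ (⌊A * Real.log X⌋₊ : ℝ) + 1 := by exact_mod_cast e1.trans e2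
    have e4 : (⌊A * Real.log X⌋₊ : ℝ) ≤ A * Real.log X := Nat.floor_le (by positivity)
    have e5 : 1 ≤ A * Real.log X := by nlinarith
    linarith
  have h1 := hX₀ X ((le_max_left _ _).trans hX) Q hQ hQX hQφ S hScard
    (by
      intro b hb
      rw [hS, Finset.mem_filter] at hb
      exact hb.2) r
  have h2 : C * (2 * A) * κ / η = 2 * C * A * κ / η := by ring
  rw [h2] at h1
  refine h1.trans (Nat.cast_le.2 (Set.ncard_le_ncard ?_ ?_))
  · intro n hn
    obtain ⟨q1, q2, q3, q4⟩ := hn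
    refine ⟨q1, q2, q3, fun t ht hc hG => q4 _ ?_⟩
    rw [hS, Finset.mem_filter, Finset.mem_image]
    exact ⟨⟨t, by rw [Set.Finite.mem_toFinset]; exact ⟨ht, hc⟩, rfl⟩, hG⟩
  · apply (Set.finite_Iic ⌊X + X ^ η⌋₊).subset
    intro a ha
    obtain ⟨_, h2, _⟩ := ha
    rw [Set.mem_Iic]
    exact Nat.le_floor h2

end Pool.Agent.N837.LP
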