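import Pool.Agent.N837.LP.GenQ

set_option autoImplicit false
set_option linter.unusedVariables false

/-! # Arbitrary sparse sets of shifts, numbers of a residue class, prime factors prime to the modulus -/

namespace Pool.Agent.N837.LP

open Finset Filter

open scoped Classical

/-- natural numbers `≡ r (mod Q)` in `(X, X + W]` such that every `|n - b|` has a prime factor
at most `y`, not dividing `Q` and smaller than `|n - b| / Q` -/
def JR (X W y : ℝ) (Q : ℕ) (r : ℤ) (B : Finset ℤ) : Set ℕ :=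
  {n : ℕ | X < n ∧ (n : ℝ) ≤ X + W ∧ (Q : ℤ) ∣ n - r ∧
    ∀ b ∈ B, ∃ q : ℕ, q.Prime ∧ (q : ℝ) ≤ y ∧ ¬ q ∣ Q ∧ (q : ℤ) ∣ n - b ∧
      (q : ℤ) * Q < |(n : ℤ) - b|}

theorem JR_finite (X W y : ℝ) (Q : ℕ) (r : ℤ) (B : Finset ℤ) : (JR X W y Q r B).Finite := by
  apply (Set.finite_Iic ⌊X + W⌋₊).subset
  intro a ha
  obtain ⟨_, h2, _⟩ := ha
  rw [Set.mem_Iic]
  exact Nat.le_floor h2

/-- arbitrary sets of at most `A log X` shifts `|b| ≤ X ^ E`, numbers `≡ r (mod Q)` -/
theorem genR (δ : ℝ) (hδ : 0 < δ) : ∃ C : ℝ, 0 < C ∧ ∀ A η E κ : ℝ, 1 ≤ A → 0 < η → η ≤ 1 → 1 ≤ E →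
    1 ≤ κ → ∃ X₀ : ℝ, ∀ X : ℝ, X₀ ≤ X → ∀ Q : ℕ, 0 < Q → (Q : ℝ) ≤ X ^ (η / 2) →
    (Q : ℝ) ≤ κ * Q.totient → ∀ B : Finset ℤ, (B.card : ℝ) ≤ A * Real.log X →
    (∀ b ∈ B, |(b : ℝ)| ≤ X ^ E) → ∀ r : ℤ,
    X ^ η / Q * Real.exp (-Real.exp (C * A * κ ^ 2 / η)) ≤
      ((JR X (X ^ η) (X ^ (η * δ)) Q r B).ncard : ℝ) := by
  set δ' : ℝ := min δ (1 / 4) with hδ'def
  have hδ' : 0 < δ' := lt_min hδ (by norm_num)
  have hδδ : δ' ≤ δ := min_le_left _ _
  have hδ2 : δ' ≤ 1 / 4 := min_le_right _ _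
  obtain ⟨C₀, hC₀, hG⟩ := mainG δ' hδ'
  refine ⟨32 + C₀ + 2, by linarith, fun A η E κ hA hη hη1 hE hκ1 => ?_⟩
  have hAη : 1 ≤ A / η := by
    rw [le_div_iff₀ hη]
    linarith
  have hκκ : κ ≤ A * κ ^ 2 / η := by
    rw [le_div_iff₀ hη]
    have h1 : κ * η ≤ κ * 1 := mul_le_mul_of_nonneg_left hη1 (by linarith)
    have h2 : κ ≤ κ ^ 2 := by nlinarith
    nlinarith
  have hAκη : 1 ≤ A * κ ^ 2 / η := hκ1.trans hκκ
  have hη2 : 1 ≤ E / η := by
    rw [le_div_iff₀ hη]
    linarith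
  obtain ⟨X₀, hX₀⟩ := hG (2 * (A * κ ^ 2 / η)) (4 * (E / η)) (by linarith) (by linarith)
  set lam : ℝ := Real.exp (-Real.exp (16 * (2 * (A * κ ^ 2 / η)) + C₀)) with hlam
  have hlam0 : 0 < lam := Real.exp_pos _
  have h1 : ∀ᶠ X : ℝ in atTop, max X₀ 1 ≤ X ^ (η / 2) :=
    (tendsto_rpow_atTop (half_pos hη)).eventually_ge_atTop _
  have h3 : ∀ᶠ X : ℝ in atTop, Real.log X * (10 * A * κ / lam) ≤ X ^ (η / 4) := by
    have h0 := (isLittleO_log_rpow_atTop (show 0 < η / 4 by positivity)).bound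
      (show (0:ℝ) < 1 / (10 * A * κ / lam) by positivity)
    filter_upwards [h0, eventually_ge_atTop 1] with X hX hX1
    rw [Real.norm_of_nonneg (Real.log_nonneg hX1), Real.norm_of_nonneg (by positivity),
      one_div, ← div_eq_inv_mul, le_div_iff₀ (by positivity)] at hX
    exact hX
  obtain ⟨X₁, hX₁⟩ := Filter.eventually_atTop.1 (h1.and (h3.and (eventually_ge_atTop 4)))
  refine ⟨X₁, fun X hX Q hQ hQX hQφ B hB hBX r => ?_⟩
  obtain ⟨g2, g3, g4⟩ := hX₁ X hX
  have hX0 : 0 < X := by linarith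
  have hQ0 : (0:ℝ) < Q := by exact_mod_cast hQ
  have hQ1 : (1:ℝ) ≤ Q := by exact_mod_cast hQ
  have hφ0 : (0:ℝ) < Q.totient := by exact_mod_cast Nat.totient_pos.2 hQ
  have hφQ : 1 / κ ≤ (Q.totient : ℝ) / Q := by
    rw [div_le_div_iff₀ (by linarith) hQ0]
    linarith
  have hlog0 : 0 ≤ Real.log X := Real.log_nonneg (by linarith)
  have hXh : 1 ≤ X ^ (η / 2) := (le_max_right _ _).trans g2
  have hXX : X ^ η = X ^ (η / 2) * X ^ (η / 2) := by
    rw [← Real.rpow_add hX0]
    ring_nf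
  have hXη1 : 1 ≤ X ^ η := by nlinarith
  set Y : ℝ := X ^ η / Q with hY
  have hYlow : X ^ (η / 2) ≤ Y := by
    rw [hY, le_div_iff₀ hQ0, hXX]
    exact mul_le_mul_of_nonneg_left hQX (by linarith)
  have hYup : Y ≤ X ^ η := div_le_self (by linarith) hQ1
  have hY0 : 0 < Y := by linarith
  have hlogY : η / 2 * Real.log X ≤ Real.log Y := by
    rw [← Real.log_rpow hX0]
    exact Real.log_le_log (by positivity) hYlow
  -- the residue
  set r' : ℤ := r % (Q : ℤ) with hr'
  have hQZ : (0:ℤ) < Q := by exact_mod_cast hQ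
  have hr0 : 0 ≤ r' := Int.emod_nonneg _ hQZ.ne'
  have hr1 : r' < Q := Int.emod_lt_of_pos _ hQZ
  have hr0R : (0:ℝ) ≤ r' := by exact_mod_cast hr0
  have hr1R : (r':ℝ) ≤ Q := by exact_mod_cast hr1.le
  have hrr : (Q : ℤ) ∣ r' - r := by
    refine ⟨-(r / Q), ?_⟩
    have := Int.emod_add_mul_ediv r (Q : ℤ)
    rw [hr']
    linarith
  have hE2 : X ^ (2 * E) ≤ Y ^ (4 * (E / η)) := by
    calc X ^ (2 * E) = (X ^ (η / 2)) ^ (4 * (E / η)) := by
          rw [← Real.rpow_mul hX0.le]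
          congr 1
          field_simp
          ring
      _ ≤ _ := Real.rpow_le_rpow (by linarith) hYlow (by positivity)
  have hXE : X ≤ X ^ E := by
    calc X = X ^ (1:ℝ) := (Real.rpow_one X).symm
      _ ≤ X ^ E := Real.rpow_le_rpow_of_exponent_le (by linarith) hE
  have hXE2 : X ^ E + X ^ E ≤ X ^ (2 * E) := by
    have e1 : X ^ (2 * E) = X ^ E * X ^ E := by
      rw [← Real.rpow_add hX0]
      ring_nf
    rw [e1]
    nlinarith
  have hQXE : (Q : ℝ) ≤ X ^ E := by
    refine hQX.trans (Real.rpow_le_rpow_of_exponent_le (by linarith) (by linarith))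
  have hmain := hX₀ Y ((le_max_left _ _).trans (g2.trans hYlow)) {b : ℤ // b ∈ B} (fun _ => (Q : ℤ))
    (fun b => r' - b.1) Q hQ
    (by linarith)
    (fun _ => by exact_mod_cast hQZ.ne')
    (fun _ => by
      have e1 : (|((Q:ℤ):ℝ)|) = Q := by
        rw [Int.cast_natCast]
        exact abs_of_pos hQ0
      rw [e1]
      linarith)
    (fun b => by
      have e1 := hBX b.1 b.2
      have e2 : |((r' - b.1 : ℤ) : ℝ)| ≤ Q + |(b.1 : ℝ)| := by
        push_cast
        refine (abs_sub _ _).trans ?_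
        rw [abs_of_nonneg hr0R]
        linarith
      linarith)
    (fun i j hij => by
      intro h
      apply hij
      apply Subtype.ext
      have h2 : (Q : ℤ) * (i.1 - j.1) = 0 := by
        linarith
      rcases mul_eq_zero.1 h2 with h3 | h3
      · exact absurd h3 hQZ.ne'
      · linarith)
    (by
      rw [Finset.sum_const, Finset.card_univ, Fintype.card_coe, nsmul_eq_mul]
      simp only [Int.natAbs_natCast]
      have e1 : (Q : ℝ) / (Q.totient : ℝ) ≤ κ := by
        rw [div_le_iff₀ hφ0]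
        exact hQφ
      calc (B.card : ℝ) * ((Q : ℝ) / (Q.totient : ℝ)) ≤ (A * Real.log X) * κ :=
            mul_le_mul hB e1 (by positivity) (by positivity)
        _ = 2 * (A * κ ^ 2 / η) * (1 / κ) * (η / 2 * Real.log X) := by field_simp
        _ ≤ 2 * (A * κ ^ 2 / η) * ((Q.totient : ℝ) / Q) * (η / 2 * Real.log X) := by
            apply mul_le_mul_of_nonneg_right _ (by positivity)
            exact mul_le_mul_of_nonneg_left hφQ (by linarith)
        _ ≤ 2 * (A * κ ^ 2 / η) * ((Q.totient : ℝ) / Q) * Real.log Y := by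
            apply mul_le_mul_of_nonneg_left hlogY (by positivity))
    ((X - r') / Q)
  set y : ℝ := Y ^ δ' with hy
  have hy1 : 1 ≤ y := Real.one_le_rpow (by linarith) hδ'.le
  have hyη : y ≤ X ^ (η / 4) := by
    calc y ≤ (X ^ η) ^ δ' := Real.rpow_le_rpow hY0.le hYup hδ'.le
      _ = X ^ (η * δ') := by rw [← Real.rpow_mul hX0.le]
      _ ≤ _ := by
          apply Real.rpow_le_rpow_of_exponent_le (by linarith)
          nlinarith
  set f : ℤ → ℤ := fun x => (Q : ℤ) * x + r' with hf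
  -- the bad integers
  set Bad : Finset ℤ := B.biUnion (fun b => (Finset.Icc ((b - r') / Q - ⌊y⌋) ((b - r') / Q + ⌊y⌋ + 1)))
    with hBad
  have hBadc : (Bad.card : ℝ) ≤ A * Real.log X * (5 * y) := by
    have e1 : Bad.card ≤ ∑ b ∈ B, (Finset.Icc ((b - r') / Q - ⌊y⌋) ((b - r') / Q + ⌊y⌋ + 1)).card :=
      Finset.card_biUnion_le
    have e2 : ((∑ b ∈ B, (Finset.Icc ((b - r') / Q - ⌊y⌋) ((b - r') / Q + ⌊y⌋ + 1)).card : ℕ) : ℝ) ≤
        ∑ b ∈ B, (5 * y) := by
      rw [Nat.cast_sum]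
      apply Finset.sum_le_sum
      intro b _
      rw [Int.card_Icc]
      have e3 : (0:ℤ) ≤ (b - r') / Q + ⌊y⌋ + 1 + 1 - ((b - r') / Q - ⌊y⌋) := by
        have : (0:ℤ) ≤ ⌊y⌋ := Int.floor_nonneg.2 (by linarith)
        linarith
      have e5 : (b - r') / Q + ⌊y⌋ + 1 + 1 - ((b - r') / Q - ⌊y⌋) = 2 * ⌊y⌋ + 2 := by ring
      rw [e5] at e3 ⊢
      have e4 : (((2 * ⌊y⌋ + 2 : ℤ).toNat : ℕ) : ℝ) = ((2 * ⌊y⌋ + 2 : ℤ) : ℝ) := by
        exact_mod_cast Int.toNat_of_nonneg e3
      rw [e4]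
      push_cast
      have := Int.floor_le y
      linarith
    calc (Bad.card : ℝ) ≤ _ := by exact_mod_cast e1
      _ ≤ _ := e2
      _ = B.card * (5 * y) := by rw [Finset.sum_const, nsmul_eq_mul]
      _ ≤ _ := mul_le_mul_of_nonneg_right hB (by positivity)
  set R : Set ℤ := RG ((X - r') / Q) Y y Q (fun _ : {b : ℤ // b ∈ B} => (Q:ℤ)) (fun b => r' - b.1)
    with hR
  have hinj : ((R \ (Bad : Set ℤ)).ncard : ℝ) ≤
      ((JR X (X ^ η) (X ^ (η * δ)) Q r B).ncard : ℝ) := by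
    have hpos : ∀ x ∈ R, X < ((f x : ℤ) : ℝ) ∧ ((f x : ℤ) : ℝ) ≤ X + X ^ η := by
      intro x hx
      obtain ⟨q1, q2, _⟩ := hx
      rw [div_lt_iff₀ hQ0] at q1
      have e2 : (x : ℝ) * Q ≤ (X - r') + X ^ η := by
        have : (x : ℝ) * Q ≤ ((X - r') / Q + Y) * Q := mul_le_mul_of_nonneg_right q2 hQ0.le
        have e3 : ((X - r') / Q + Y) * Q = (X - r') + X ^ η := by
          rw [hY]
          field_simp
        linarith
      simp only [hf]
      push_cast
      constructor <;> nlinarith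
    refine Nat.cast_le.2 (Set.ncard_le_ncard_of_injOn (fun x : ℤ => (f x).toNat) ?_ ?_
      (JR_finite _ _ _ _ _ _))
    · rintro x ⟨hx, hbad⟩
      obtain ⟨w1, w2⟩ := hpos x hx
      obtain ⟨q1, q2, q3, q4⟩ := hx
      have hx0 : 0 < f x := by
        have : (0:ℝ) < (f x : ℤ) := by linarith
        exact_mod_cast this
      have hxn : (((f x).toNat : ℕ) : ℤ) = f x := Int.toNat_of_nonneg hx0.le
      have hxr : (((f x).toNat : ℕ) : ℝ) = ((f x : ℤ) : ℝ) := by exact_mod_cast hxn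
      refine ⟨?_, ?_, ?_, ?_⟩
      · show X < (((f x).toNat : ℕ) : ℝ)
        rw [hxr]
        exact w1
      · show (((f x).toNat : ℕ) : ℝ) ≤ X + X ^ η
        rw [hxr]
        exact w2
      · show (Q : ℤ) ∣ (((f x).toNat : ℕ) : ℤ) - r
        rw [hxn]
        have : f x - r = (Q : ℤ) * x + (r' - r) := by
          simp only [hf]
          ring
        rw [this]
        exact (Dvd.intro _ rfl).add hrr
      · intro b hb
        obtain ⟨q, p1, p2, p3, p4⟩ := q4 ⟨b, hb⟩
        have e1 : (q : ℝ) ≤ X ^ (η * δ') := by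
          refine p2.trans ?_
          rw [Real.rpow_mul hX0.le]
          exact Real.rpow_le_rpow hY0.le hYup hδ'.le
        have efb : f x - b = (Q : ℤ) * x + (r' - b) := by
          simp only [hf]
          ring
        refine ⟨q, p1, e1.trans ?_, p3, ?_, ?_⟩
        · apply Real.rpow_le_rpow_of_exponent_le (by linarith)
          exact mul_le_mul_of_nonneg_left hδδ hη.le
        · show (q : ℤ) ∣ (((f x).toNat : ℕ) : ℤ) - b
          rw [hxn, efb]
          exact p4
        · show (q : ℤ) * Q < |(((f x).toNat : ℕ) : ℤ) - b|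
          rw [hxn]
          by_contra hcon
          push Not at hcon
          apply hbad
          rw [Finset.mem_coe, hBad, Finset.mem_biUnion]
          have hqy : (q : ℤ) ≤ ⌊y⌋ := by
            rw [Int.le_floor]
            exact_mod_cast p2
          have h5 := abs_le.1 (hcon.trans (mul_le_mul_of_nonneg_right hqy hQZ.le))
          refine ⟨b, hb, ?_⟩
          rw [Finset.mem_Icc]
          rw [efb] at h5
          have e6 : (b - r') / Q * Q ≤ b - r' := Int.ediv_mul_le _ hQZ.ne'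
          have e7 : b - r' < (b - r') / Q * Q + Q := by
            have := Int.lt_ediv_add_one_mul_self (b - r') hQZ
            linarith
          constructor
          · by_contra hc
            push Not at hc
            have : (x + 1) * Q ≤ ((b - r') / Q - ⌊y⌋) * Q :=
              mul_le_mul_of_nonneg_right (by linarith) hQZ.le
            nlinarith [h5.1]
          · by_contra hc
            push Not at hc
            have : ((b - r') / Q + ⌊y⌋ + 1 + 1) * Q ≤ x * Q :=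
              mul_le_mul_of_nonneg_right (by linarith) hQZ.le
            nlinarith [h5.2]
    · rintro x ⟨hx, _⟩ x' ⟨hx', _⟩ hxy
      obtain ⟨w1, _⟩ := hpos x hx
      obtain ⟨w1', _⟩ := hpos x' hx'
      have hx0 : 0 < f x := by
        have : (0:ℝ) < (f x : ℤ) := by linarith
        exact_mod_cast this
      have hy0 : 0 < f x' := by
        have : (0:ℝ) < (f x' : ℤ) := by linarith
        exact_mod_cast this
      have h5 : (f x).toNat = (f x').toNat := hxy
      have h6 : f x = f x' := by omega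
      simp only [hf] at h6
      have h7 : (Q : ℤ) * (x - x') = 0 := by linarith
      rcases mul_eq_zero.1 h7 with h3 | h3
      · exact absurd h3 hQZ.ne'
      · linarith
  have hdiff : (R.ncard : ℝ) - Bad.card ≤ ((R \ (Bad : Set ℤ)).ncard : ℝ) := by
    have e1 := Set.ncard_le_ncard_sdiff_add_ncard R (Bad : Set ℤ)
      (Finset.finite_toSet _)
    rw [Set.ncard_coe_finset] at e1
    have e2 : (R.ncard : ℝ) ≤
        ((R \ (Bad : Set ℤ)).ncard : ℝ) + (Bad.card : ℝ) := by exact_mod_cast e1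
    linarith
  have hmain2 : Y * lam * (1 / κ) ≤ (R.ncard : ℝ) := by
    refine le_trans ?_ hmain
    have : (Q.totient : ℝ) / Q * Y * lam = Y * lam * ((Q.totient : ℝ) / Q) := by ring
    rw [this]
    exact mul_le_mul_of_nonneg_left hφQ (by positivity)
  have hhalf : (Bad.card : ℝ) ≤ Y * lam * (1 / κ) / 2 := by
    refine hBadc.trans ?_
    have e1 : A * Real.log X * (5 * y) ≤ A * Real.log X * (5 * X ^ (η / 4)) := by
      apply mul_le_mul_of_nonneg_left _ (by positivity)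
      linarith
    refine e1.trans ?_
    have e2 : X ^ (η / 2) = X ^ (η / 4) * X ^ (η / 4) := by
      rw [← Real.rpow_add hX0]
      ring_nf
    have e3 : Real.log X * (10 * A) ≤ X ^ (η / 4) * (lam * (1 / κ)) := by
      have : Real.log X * (10 * A * κ / lam) * (lam * (1 / κ)) ≤ X ^ (η / 4) * (lam * (1 / κ)) :=
        mul_le_mul_of_nonneg_right g3 (by positivity)
      have e4 : Real.log X * (10 * A * κ / lam) * (lam * (1 / κ)) = Real.log X * (10 * A) := by
        field_simp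
      rwa [e4] at this
    have e5 : 0 ≤ X ^ (η / 4) := by positivity
    have e6 : X ^ (η / 4) * X ^ (η / 4) * (lam * (1 / κ)) / 2 ≤ Y * lam * (1 / κ) / 2 := by
      rw [← e2]
      have := mul_le_mul_of_nonneg_right hYlow (show 0 ≤ lam * (1 / κ) by positivity)
      linarith
    nlinarith [mul_le_mul_of_nonneg_left e3 e5]
  have hfin : Y * lam * (1 / κ) / 2 ≤ ((JR X (X ^ η) (X ^ (η * δ)) Q r B).ncard : ℝ) := by
    linarith
  refine le_trans ?_ hfin
  have e1 : Y * lam * (1 / κ) / 2 = Y * (lam * (1 / (2 * κ))) := by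
    field_simp
  rw [e1]
  apply mul_le_mul_of_nonneg_left _ hY0.le
  have e3 : Real.exp (-(2 * κ)) ≤ 1 / (2 * κ) := by
    rw [Real.exp_neg, one_div]
    have a1 : 2 * κ ≤ Real.exp (2 * κ) := by
      have := Real.add_one_le_exp (2 * κ)
      linarith
    exact inv_anti₀ (by linarith) a1
  refine le_trans ?_ (mul_le_mul_of_nonneg_left e3 hlam0.le)
  rw [hlam, ← Real.exp_add]
  apply Real.exp_le_exp.2
  have e4 : (32 + C₀ + 2) * A * κ ^ 2 / η =
      16 * (2 * (A * κ ^ 2 / η)) + C₀ * (A * κ ^ 2 / η) + 2 * (A * κ ^ 2 / η) := by ring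
  have e5 : C₀ ≤ C₀ * (A * κ ^ 2 / η) := le_mul_of_one_le_right hC₀ hAκη
  have e6 : Real.exp (16 * (2 * (A * κ ^ 2 / η)) + C₀) + 2 * κ ≤
      Real.exp ((32 + C₀ + 2) * A * κ ^ 2 / η) := by
    have e7 : Real.exp (16 * (2 * (A * κ ^ 2 / η)) + C₀ + 2 * κ) ≤
        Real.exp ((32 + C₀ + 2) * A * κ ^ 2 / η) := by
      apply Real.exp_le_exp.2
      rw [e4]
      linarith
    refine le_trans ?_ e7
    rw [Real.exp_add _ (2 * κ)]
    have a1 : 1 + 2 * κ ≤ Real.exp (2 * κ) := by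
      have := Real.add_one_le_exp (2 * κ)
      linarith
    have a2 : 1 ≤ Real.exp (16 * (2 * (A * κ ^ 2 / η)) + C₀) := by
      apply Real.one_le_exp
      linarith
    nlinarith
  linarith

end Pool.Agent.N837.LP
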