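import Pool.Agent.N837.LP.GenQ

set_option autoImplicit false
set_option linter.unusedVariables false

/-! # Every modulus `d`, arbitrary sparse sets of terms of the progressions modulo `d` -/

namespace Pool.Agent.N837.LP

open Finset Filter

open scoped Classical

theorem genS (δ : ℝ) (hδ : 0 < δ) : ∃ C₀ : ℝ, 0 ≤ C₀ ∧ ∀ K C : ℝ, 1 ≤ K → 1 ≤ C →
    ∃ d₀ : ℕ, ∀ d : ℕ, d₀ ≤ d → ∀ T : Finset ℤ,
    (T.card : ℝ) ≤ K * ((d.totient : ℝ) / d) * Real.log d → (∀ k ∈ T, |(k : ℝ)| ≤ (d : ℝ) ^ C) →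
    (d.totient : ℝ) * Real.exp (-Real.exp (16 * K + C₀)) ≤
      (({a : ℕ | 1 ≤ a ∧ a ≤ d ∧ a.Coprime d ∧ ∀ k ∈ T, ∃ p : ℕ, p.Prime ∧
        (p : ℝ) ≤ (d : ℝ) ^ δ ∧ (p : ℤ) ∣ a + k * d ∧ (p : ℤ) < |(a : ℤ) + k * d|}).ncard : ℝ) := by
  set δ' : ℝ := min δ (1 / 2) with hδ'def
  have hδ' : 0 < δ' := lt_min hδ (by norm_num)
  have hδδ : δ' ≤ δ := min_le_left _ _
  have hδ2 : δ' ≤ 1 / 2 := min_le_right _ _
  obtain ⟨C₀, hC₀, hG⟩ := mainG δ' hδ'
  refine ⟨C₀ + 1, by linarith, fun K C hK hC => ?_⟩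
  obtain ⟨X₀, hX₀⟩ := hG K (C + 1) hK (by linarith)
  set lam : ℝ := Real.exp (-Real.exp (16 * K + C₀)) with hlam
  have hlam0 : 0 < lam := Real.exp_pos _
  obtain ⟨X₁, hX11, hX₁⟩ := ev_pow (lam / 4) δ' 2 (by positivity) (by linarith) (by norm_num)
  refine ⟨⌈max X₀ (max X₁ 16)⌉₊, fun d hd T hT hTC => ?_⟩
  have hdX : max X₀ (max X₁ 16) ≤ d := (Nat.le_ceil _).trans (by exact_mod_cast hd)
  have hd16 : (16:ℝ) ≤ d := (le_max_right _ _).trans ((le_max_right _ _).trans hdX)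
  have hdX₁ : X₁ ≤ d := (le_max_left _ _).trans ((le_max_right _ _).trans hdX)
  have hdX₀ : X₀ ≤ d := (le_max_left _ _).trans hdX
  have hd0R : (0:ℝ) < d := by linarith
  have hd0 : 0 < d := by exact_mod_cast hd0R
  have hdZ : (0:ℤ) < d := by exact_mod_cast hd0
  have hd1 : (1:ℝ) ≤ d := by linarith
  have hd2 : (2:ℝ) ≤ d := by linarith
  set y : ℝ := (d : ℝ) ^ δ' with hy
  have hy1 : 1 ≤ y := Real.one_le_rpow hd1 hδ'.le
  have hysq : y ≤ (d : ℝ) / 4 := by
    have e1 : y ≤ (d : ℝ) ^ (1 / 2 : ℝ) := Real.rpow_le_rpow_of_exponent_le hd1 hδ2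
    have e2 : (d : ℝ) ^ (1 / 2 : ℝ) * (d : ℝ) ^ (1 / 2 : ℝ) = d := by
      rw [← Real.rpow_add hd0R]
      norm_num
    have e3 : (0:ℝ) < (d : ℝ) ^ (1 / 2 : ℝ) := by positivity
    have e4 : 4 ≤ (d : ℝ) ^ (1 / 2 : ℝ) := by
      by_contra hcon
      push Not at hcon
      nlinarith
    nlinarith
  have hyφ : y + 1 ≤ lam / 4 * d.totient := by
    have h1 := hX₁ d hdX₁
    have h2 := totient_lower d hd0
    have hl : 0 < 2 * (1 + Real.log d) := by
      have := Real.log_nonneg hd1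
      linarith
    have h3 : (y + 1) * (2 * (1 + Real.log d)) ≤ lam / 4 * d.totient * (2 * (1 + Real.log d)) := by
      calc (y + 1) * (2 * (1 + Real.log d)) = 2 * (y + 1) * (1 + Real.log d) := by ring
        _ ≤ lam / 4 * d := h1
        _ ≤ lam / 4 * (d.totient * (2 * (1 + Real.log d))) :=
            mul_le_mul_of_nonneg_left h2 (by positivity)
        _ = _ := by ring
    exact le_of_mul_le_mul_right h3 hl
  have hdC : (d : ℝ) ^ (C + 1) = (d : ℝ) ^ C * d := by
    rw [Real.rpow_add hd0R, Real.rpow_one]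
  have hdC1 : (1:ℝ) ≤ (d : ℝ) ^ C := Real.one_le_rpow hd1 (by linarith)
  have hmain := hX₀ d hdX₀ {k : ℤ // k ∈ T} (fun _ => 1) (fun k => k.1 * d) d hd0
    (by rw [hdC]; nlinarith)
    (fun _ => by norm_num)
    (fun _ => by
      rw [hdC]
      simp only [Int.cast_one, abs_one]
      nlinarith)
    (fun k => by
      have e1 := hTC k.1 k.2
      rw [hdC]
      push_cast
      rw [abs_mul, abs_of_pos hd0R]
      exact mul_le_mul_of_nonneg_right e1 hd0R.le)
    (fun i j hij => by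
      intro h
      apply hij
      apply Subtype.ext
      have h2 : (i.1 - j.1) * (d : ℤ) = 0 := by
        linarith
      rcases mul_eq_zero.1 h2 with h3 | h3
      · linarith
      · exact absurd h3 hdZ.ne')
    (by
      rw [Finset.sum_const, Finset.card_univ, Fintype.card_coe, nsmul_eq_mul]
      simpa using hT)
    0
  set R : Set ℤ := RG 0 d y d (fun _ : {k : ℤ // k ∈ T} => (1:ℤ)) (fun k => k.1 * d) with hR
  set Bad : Finset ℤ := Finset.Icc 1 ⌊y⌋ ∪ Finset.Icc (d - ⌊y⌋) d with hBad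
  have hy0 : (0:ℤ) ≤ ⌊y⌋ := Int.floor_nonneg.2 (by linarith)
  have hBadc : (Bad.card : ℝ) ≤ 2 * (y + 1) := by
    have e1 : Bad.card ≤ (Finset.Icc 1 ⌊y⌋).card + (Finset.Icc (d - ⌊y⌋) (d : ℤ)).card :=
      Finset.card_union_le _ _
    rw [Int.card_Icc, Int.card_Icc] at e1
    have e2 : ((Bad.card : ℤ)) ≤ 2 * ⌊y⌋ + 1 := by
      have f1 : (((⌊y⌋ + 1 - 1).toNat : ℕ) : ℤ) = ⌊y⌋ := by
        rw [Int.toNat_of_nonneg (by linarith)]
        ring
      have f2 : ((((d : ℤ) + 1 - (d - ⌊y⌋)).toNat : ℕ) : ℤ) = ⌊y⌋ + 1 := by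
        rw [Int.toNat_of_nonneg (by linarith)]
        ring
      have f3 : ((Bad.card : ℕ) : ℤ) ≤
          (((⌊y⌋ + 1 - 1).toNat + ((d : ℤ) + 1 - (d - ⌊y⌋)).toNat : ℕ) : ℤ) := by
        exact_mod_cast e1
      rw [Nat.cast_add, f1, f2] at f3
      linarith
    have e3 : (Bad.card : ℝ) ≤ 2 * ((⌊y⌋ : ℤ) : ℝ) + 1 := by exact_mod_cast e2
    have := Int.floor_le y
    linarith
  set F : Set ℕ := {a : ℕ | 1 ≤ a ∧ a ≤ d ∧ a.Coprime d ∧ ∀ k ∈ T, ∃ p : ℕ, p.Prime ∧
        (p : ℝ) ≤ (d : ℝ) ^ δ ∧ (p : ℤ) ∣ a + k * d ∧ (p : ℤ) < |(a : ℤ) + k * d|} with hF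
  have hFfin : F.Finite := (Set.finite_Icc 1 d).subset fun a ha => ⟨ha.1, ha.2.1⟩
  have hinj : ((R \ (Bad : Set ℤ)).ncard : ℝ) ≤ (F.ncard : ℝ) := by
    refine Nat.cast_le.2 (Set.ncard_le_ncard_of_injOn (fun x : ℤ => x.toNat) ?_ ?_ hFfin)
    · rintro x ⟨⟨q1, q2, q3, q4⟩, hbad⟩
      have hx0 : 0 < x := by exact_mod_cast q1
      have hxd : x ≤ d := by
        rw [zero_add] at q2
        exact_mod_cast q2
      have hxn : ((x.toNat : ℕ) : ℤ) = x := Int.toNat_of_nonneg hx0.le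
      refine ⟨by omega, by omega, ?_, ?_⟩
      · show Nat.Coprime x.toNat d
        rw [← Nat.isCoprime_iff_coprime, hxn]
        exact q3
      · intro k hk
        obtain ⟨q, p1, p2, p3, p4⟩ := q4 ⟨k, hk⟩
        refine ⟨q, p1, p2.trans ?_, ?_, ?_⟩
        · exact Real.rpow_le_rpow_of_exponent_le hd1 hδδ
        · show (q : ℤ) ∣ ((x.toNat : ℕ) : ℤ) + k * d
          rw [hxn]
          simpa using p4
        · show (q : ℤ) < |((x.toNat : ℕ) : ℤ) + k * d|
          rw [hxn]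
          have hqy : (q : ℤ) ≤ ⌊y⌋ := by
            rw [Int.le_floor]
            exact_mod_cast p2
          rw [Finset.mem_coe, hBad, Finset.mem_union, Finset.mem_Icc, Finset.mem_Icc] at hbad
          push Not at hbad
          have b1 : ⌊y⌋ < x := by
            by_contra hc
            push Not at hc
            have := hbad.1 (by linarith)
            linarith
          have b2 : x < d - ⌊y⌋ := by
            by_contra hc
            push Not at hc
            have := hbad.2 hc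
            linarith
          rcases lt_trichotomy k 0 with hk0 | hk0 | hk0
          · have : (-1 - k) * (d : ℤ) ≥ 0 := mul_nonneg (by omega) hdZ.le
            rw [lt_abs]
            right
            nlinarith
          · subst hk0
            rw [lt_abs]
            left
            linarith
          · have : (k - 1) * (d : ℤ) ≥ 0 := mul_nonneg (by omega) hdZ.le
            rw [lt_abs]
            left
            nlinarith
    · rintro x ⟨⟨q1, _⟩, _⟩ x' ⟨⟨q1', _⟩, _⟩ hxy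
      have hx0 : 0 < x := by exact_mod_cast q1
      have hy0 : 0 < x' := by exact_mod_cast q1'
      have : x.toNat = x'.toNat := hxy
      omega
  have hdiff : (R.ncard : ℝ) - Bad.card ≤ ((R \ (Bad : Set ℤ)).ncard : ℝ) := by
    have e1 := Set.ncard_le_ncard_sdiff_add_ncard R (Bad : Set ℤ)
      (Finset.finite_toSet _)
    rw [Set.ncard_coe_finset] at e1
    have e2 : (R.ncard : ℝ) ≤
        ((R \ (Bad : Set ℤ)).ncard : ℝ) + (Bad.card : ℝ) := by exact_mod_cast e1
    linarith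
  have hmain2 : (d.totient : ℝ) * lam ≤ (R.ncard : ℝ) := by
    refine le_trans (le_of_eq ?_) hmain
    field_simp
  have hexp : Real.exp (-Real.exp (16 * K + (C₀ + 1))) ≤ lam / 2 := by
    have e3 : Real.exp (-1) ≤ 1 / 2 := by
      rw [Real.exp_neg, one_div]
      have a1 : 2 ≤ Real.exp 1 := by
        have := Real.add_one_le_exp (1:ℝ)
        linarith
      exact inv_anti₀ (by norm_num) a1
    have e4 : lam / 2 = lam * (1 / 2) := by ring
    rw [e4]
    refine le_trans ?_ (mul_le_mul_of_nonneg_left e3 hlam0.le)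
    rw [hlam, ← Real.exp_add]
    apply Real.exp_le_exp.2
    have a0 : 16 * K + (C₀ + 1) = (16 * K + C₀) + 1 := by ring
    rw [a0, Real.exp_add _ 1]
    have a1 : 2 ≤ Real.exp 1 := by
      have := Real.add_one_le_exp (1:ℝ)
      linarith
    have a2 : 1 ≤ Real.exp (16 * K + C₀) := Real.one_le_exp (by linarith)
    nlinarith
  have hφ0 : (0:ℝ) ≤ d.totient := Nat.cast_nonneg _
  have h5 := mul_le_mul_of_nonneg_left hexp hφ0
  linarith

end Pool.Agent.N837.LP
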