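import Pool.Agent.N837.LP.FinG
import Pool.Agent.N837.LP.AppA

set_option autoImplicit false
set_option linter.unusedVariables false

/-! # Arbitrary sparse sets of shifts, windows of length `X ^ η`, numbers of one parity -/

namespace Pool.Agent.N837.LP

open Finset Filter

open scoped Classical

/-- integers of the parity of `r` in `(M, M + X]` such that every `n - b` has a prime factor at
most `y` -/
def JU (M X y : ℝ) (r : ℤ) (B : Finset ℤ) : Set ℤ :=
  {n : ℤ | M < n ∧ (n : ℝ) ≤ M + X ∧ n % 2 = r % 2 ∧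
    ∀ b ∈ B, ∃ q : ℕ, q.Prime ∧ (q : ℝ) ≤ y ∧ (q : ℤ) ∣ n - b}

theorem JU_finite (M X y : ℝ) (r : ℤ) (B : Finset ℤ) : (JU M X y r B).Finite := by
  apply (Set.finite_Icc ⌊M⌋ ⌈M + X⌉).subset
  intro a ha
  obtain ⟨h1, h2, _⟩ := ha
  rw [Set.mem_Icc]
  constructor
  · have := Int.floor_le M
    have h3 : ((⌊M⌋ : ℤ) : ℝ) < a := by linarith
    exact_mod_cast h3.le
  · have := Int.le_ceil (M + X)
    have h3 : (a : ℝ) ≤ ((⌈M + X⌉ : ℤ) : ℝ) := by linarith
    exact_mod_cast h3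

theorem genU (δ : ℝ) (hδ : 0 < δ) : ∃ C₀ : ℝ, 0 ≤ C₀ ∧ ∀ K C : ℝ, 1 ≤ K → 1 ≤ C →
    ∃ X₀ : ℝ, ∀ X : ℝ, X₀ ≤ X → ∀ B : Finset ℤ, (B.card : ℝ) ≤ K * Real.log X →
    (∀ b ∈ B, |(b : ℝ)| ≤ X ^ C) → ∀ (r : ℤ) (M : ℝ),
    X * Real.exp (-Real.exp (64 * K + C₀)) ≤ ((JU M X (X ^ δ) r B).ncard : ℝ) := by
  obtain ⟨C₀, hC₀, hG⟩ := mainG δ hδ
  refine ⟨C₀ + 1, by linarith, fun K C hK hC => ?_⟩
  obtain ⟨X₀, hX₀⟩ := hG (4 * K) (2 * C) (by linarith) (by linarith)
  have t1 := Real.tendsto_log_atTop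
  have h1 : ∀ᶠ X : ℝ in atTop, 2 ≤ Real.log X := t1.eventually_ge_atTop _
  have h2 : ∀ᶠ X : ℝ in atTop, (8:ℝ) ≤ X ^ C :=
    (tendsto_rpow_atTop (by linarith)).eventually_ge_atTop _
  have h3 : ∀ᶠ X : ℝ in atTop, (2:ℝ) ^ (2 * C) * 2 ≤ X ^ C :=
    (tendsto_rpow_atTop (by linarith)).eventually_ge_atTop _
  obtain ⟨X₁, hX₁⟩ := Filter.eventually_atTop.1 (h1.and (h2.and (h3.and
    (eventually_ge_atTop (max 4 (2 * X₀))))))
  refine ⟨X₁, fun X hX B hB hBX r M => ?_⟩
  obtain ⟨g1, g2, g3, g4⟩ := hX₁ X hX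
  have hX4 : 4 ≤ X := (le_max_left _ _).trans g4
  have hXX : X₀ ≤ X / 2 := by
    have := (le_max_right _ _).trans g4
    linarith
  have hX0 : 0 < X := by linarith
  set r' : ℤ := r % 2 with hr'
  have hr0 : 0 ≤ r' := Int.emod_nonneg _ (by norm_num)
  have hr1 : r' < 2 := Int.emod_lt_of_pos _ (by norm_num)
  have hr0R : (0:ℝ) ≤ r' := by exact_mod_cast hr0
  have hr1R : (r':ℝ) ≤ 1 := by
    have : r' ≤ 1 := by omega
    exact_mod_cast this
  have hpow : X ^ C + 1 ≤ (X / 2) ^ (2 * C) := by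
    rw [Real.div_rpow hX0.le (by norm_num), le_div_iff₀ (by positivity)]
    have e1 : X ^ (2 * C) = X ^ C * X ^ C := by
      rw [← Real.rpow_add hX0]
      ring_nf
    rw [e1]
    have e2 : 0 < (2:ℝ) ^ (2 * C) := by positivity
    have e3 : (X ^ C + 1) * (2:ℝ) ^ (2 * C) ≤ (2 * X ^ C) * (2:ℝ) ^ (2 * C) :=
      mul_le_mul_of_nonneg_right (by linarith) e2.le
    have e4 : (2 * X ^ C) * (2:ℝ) ^ (2 * C) ≤ X ^ C * X ^ C := by nlinarith
    linarith
  have hlog : Real.log X ≤ 2 * Real.log (X / 2) := by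
    rw [Real.log_div hX0.ne' (by norm_num)]
    have := Real.log_two_lt_d9
    linarith
  have hmain := hX₀ (X / 2) hXX {b : ℤ // b ∈ B} (fun _ => 2) (fun b => r' - b.1) 1 one_pos
    (by
      rw [Nat.cast_one]
      apply Real.one_le_rpow (by linarith) (by linarith))
    (fun _ => by norm_num)
    (fun _ => by
      have e1 : (|((2:ℤ):ℝ)|) = 2 := by norm_num
      rw [e1]
      linarith)
    (fun b => by
      have e1 := hBX b.1 b.2
      have e2 : |((r' - b.1 : ℤ) : ℝ)| ≤ 1 + |(b.1 : ℝ)| := by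
        push_cast
        refine (abs_sub _ _).trans ?_
        rw [abs_of_nonneg hr0R]
        linarith
      linarith)
    (fun i j hij => by
      intro h
      apply hij
      apply Subtype.ext
      linarith)
    (by
      rw [Finset.sum_const, Finset.card_univ, Fintype.card_coe, nsmul_eq_mul]
      have e1 : ((((2:ℤ).natAbs : ℕ) : ℝ) / (((2:ℤ).natAbs.totient : ℕ) : ℝ)) = 2 := by
        have : ((2:ℤ).natAbs.totient) = 1 := by decide
        rw [this]
        norm_num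
      rw [e1]
      simp only [Nat.totient_one, Nat.cast_one, div_one, mul_one]
      have e2 : K * Real.log X ≤ K * (2 * Real.log (X / 2)) :=
        mul_le_mul_of_nonneg_left hlog (by linarith)
      linarith)
    ((M - r') / 2)
  have hinj : ((RG ((M - r') / 2) (X / 2) ((X / 2) ^ δ) 1 (fun _ : {b : ℤ // b ∈ B} => (2:ℤ))
      (fun b => r' - b.1)).ncard : ℝ) ≤ ((JU M X (X ^ δ) r B).ncard : ℝ) := by
    refine Nat.cast_le.2 (Set.ncard_le_ncard_of_injOn (fun x : ℤ => 2 * x + r') ?_ ?_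
      (JU_finite _ _ _ _ _))
    · intro x hx
      obtain ⟨q1, q2, q3, q4⟩ := hx
      refine ⟨?_, ?_, ?_, ?_⟩
      · push_cast
        linarith
      · push_cast
        linarith
      · show (2 * x + r') % 2 = r % 2
        omega
      · intro b hb
        obtain ⟨q, p1, p2, p3, p4⟩ := q4 ⟨b, hb⟩
        refine ⟨q, p1, p2.trans ?_, ?_⟩
        · apply Real.rpow_le_rpow (by linarith) (by linarith) hδ.le
        · have e1 : 2 * x + r' - b = 2 * x + (r' - b) := by ring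
          rw [e1]
          exact p4
    · intro x _ y _ hxy
      have : 2 * x + r' = 2 * y + r' := hxy
      omega
  refine le_trans ?_ (hmain.trans hinj)
  simp only [Nat.totient_one, Nat.cast_one, div_one, one_mul]
  have e1 : Real.exp (16 * (4 * K) + C₀) + 1 ≤ Real.exp (64 * K + (C₀ + 1)) := by
    have a0 : 64 * K + (C₀ + 1) = (16 * (4 * K) + C₀) + 1 := by ring
    rw [a0, Real.exp_add _ 1]
    have a1 : 2 ≤ Real.exp 1 := by
      have := Real.add_one_le_exp (1:ℝ)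
      linarith
    have a2 : 1 ≤ Real.exp (16 * (4 * K) + C₀) := Real.one_le_exp (by linarith)
    nlinarith
  have e2 : Real.exp (-Real.exp (64 * K + (C₀ + 1))) ≤
      Real.exp (-Real.exp (16 * (4 * K) + C₀)) * Real.exp (-1) := by
    rw [← Real.exp_add]
    apply Real.exp_le_exp.2
    linarith
  have e3 : Real.exp (-1) ≤ 1 / 2 := by
    rw [Real.exp_neg, one_div]
    have a1 : 2 ≤ Real.exp 1 := by
      have := Real.add_one_le_exp (1:ℝ)
      linarith
    exact inv_anti₀ (by norm_num) a1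
  have e4 : 0 < Real.exp (-Real.exp (16 * (4 * K) + C₀)) := Real.exp_pos _
  calc X * Real.exp (-Real.exp (64 * K + (C₀ + 1)))
      ≤ X * (Real.exp (-Real.exp (16 * (4 * K) + C₀)) * (1 / 2)) := by
        apply mul_le_mul_of_nonneg_left _ hX0.le
        exact e2.trans (mul_le_mul_of_nonneg_left e3 e4.le)
    _ = X / 2 * Real.exp (-Real.exp (16 * (4 * K) + C₀)) := by ring

/-- natural numbers of the parity of `r` in `(X, X + W]` such that every `n - b` is composite with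
a prime factor at most `y` -/
def JV (X W y : ℝ) (r : ℤ) (B : Finset ℤ) : Set ℕ :=
  {n : ℕ | X < n ∧ (n : ℝ) ≤ X + W ∧ (n : ℤ) % 2 = r % 2 ∧
    ∀ b ∈ B, ∃ q : ℕ, q.Prime ∧ (q : ℝ) ≤ y ∧ (q : ℤ) ∣ n - b ∧ (q : ℤ) < n - b}

theorem JV_finite (X W y : ℝ) (r : ℤ) (B : Finset ℤ) : (JV X W y r B).Finite := by
  apply (Set.finite_Iic ⌊X + W⌋₊).subset
  intro a ha
  obtain ⟨_, h2, _⟩ := ha
  rw [Set.mem_Iic]
  exact Nat.le_floor h2

/-- arbitrary sets of at most `A log X` shifts `b ≤ X / 2` -/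
theorem genV (δ : ℝ) (hδ : 0 < δ) : ∃ C : ℝ, 0 < C ∧ ∀ A η : ℝ, 1 ≤ A → 0 < η → η ≤ 1 →
    ∃ X₀ : ℝ, ∀ X : ℝ, X₀ ≤ X → ∀ B : Finset ℤ, (B.card : ℝ) ≤ A * Real.log X →
    (∀ b ∈ B, |(b : ℝ)| ≤ X / 2) → ∀ r : ℤ,
    X ^ η * Real.exp (-Real.exp (C * A / η)) ≤ ((JV X (X ^ η) (X ^ (η * δ)) r B).ncard : ℝ) := by
  set δ' : ℝ := min δ (1 / 2) with hδ'def
  have hδ' : 0 < δ' := lt_min hδ (by norm_num)
  have hδδ : δ' ≤ δ := min_le_left _ _
  have hδ2 : δ' ≤ 1 / 2 := min_le_right _ _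
  obtain ⟨C₀, hC₀, hG⟩ := genU δ' hδ'
  refine ⟨64 + C₀, by linarith, fun A η hA hη hη1 => ?_⟩
  have hAη : 1 ≤ A / η := by
    rw [le_div_iff₀ hη]
    linarith
  have hη2 : 1 ≤ 1 / η := by
    rw [le_div_iff₀ hη]
    linarith
  obtain ⟨X₀, hX₀⟩ := hG (A / η) (1 / η) hAη hη2
  have h2 : ∀ᶠ X : ℝ in atTop, max X₀ 1 ≤ X ^ η := (tendsto_rpow_atTop hη).eventually_ge_atTop _
  have h3 : ∀ᶠ X : ℝ in atTop, (2:ℝ) < X ^ (1 / 2 : ℝ) :=
    (tendsto_rpow_atTop (by norm_num)).eventually_gt_atTop _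
  obtain ⟨X₁, hX₁⟩ := Filter.eventually_atTop.1 (h2.and (h3.and (eventually_ge_atTop 4)))
  refine ⟨X₁, fun X hX B hB hBX r => ?_⟩
  obtain ⟨g2, g3, g4⟩ := hX₁ X hX
  have hX0 : 0 < X := by linarith
  have hXη1 : 1 ≤ X ^ η := (le_max_right _ _).trans g2
  have hlog : Real.log (X ^ η) = η * Real.log X := Real.log_rpow hX0 η
  have hy : X ^ (η * δ') < X / 2 := by
    have e1 : X ^ (η * δ') ≤ X ^ (1 / 2 : ℝ) := by
      apply Real.rpow_le_rpow_of_exponent_le (by linarith)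
      nlinarith
    have e2 : X ^ (1 / 2 : ℝ) * X ^ (1 / 2 : ℝ) = X := by
      rw [← Real.rpow_add hX0]
      norm_num
    nlinarith
  have hmain := hX₀ (X ^ η) ((le_max_left _ _).trans g2) B
    (by
      rw [hlog]
      have : A / η * (η * Real.log X) = A * Real.log X := by field_simp
      rw [this]
      exact hB)
    (fun b hb => by
      have e1 : (X ^ η) ^ (1 / η) = X := by
        rw [← Real.rpow_mul hX0.le, mul_one_div, div_self hη.ne', Real.rpow_one]
      rw [e1]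
      have := hBX b hb
      linarith)
    r X
  have hinj : ((JU X (X ^ η) ((X ^ η) ^ δ') r B).ncard : ℝ) ≤
      ((JV X (X ^ η) (X ^ (η * δ)) r B).ncard : ℝ) := by
    refine Nat.cast_le.2 (Set.ncard_le_ncard_of_injOn (fun x : ℤ => x.toNat) ?_ ?_
      (JV_finite _ _ _ _ _))
    · intro x hx
      obtain ⟨q1, q2, q3, q4⟩ := hx
      have hx0 : 0 < x := by
        have : (0:ℝ) < x := by linarith
        exact_mod_cast this
      have hxn : ((x.toNat : ℕ) : ℤ) = x := Int.toNat_of_nonneg hx0.le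
      have hxr : ((x.toNat : ℕ) : ℝ) = x := by exact_mod_cast hxn
      refine ⟨?_, ?_, ?_, ?_⟩
      · show X < ((x.toNat : ℕ) : ℝ)
        rw [hxr]
        exact q1
      · show ((x.toNat : ℕ) : ℝ) ≤ X + X ^ η
        rw [hxr]
        exact q2
      · show ((x.toNat : ℕ) : ℤ) % 2 = r % 2
        rw [hxn]
        exact q3
      · intro b hb
        obtain ⟨q, p1, p2, p3⟩ := q4 b hb
        have e1 : (q : ℝ) ≤ X ^ (η * δ') := by
          rw [Real.rpow_mul hX0.le]
          exact p2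
        refine ⟨q, p1, e1.trans ?_, ?_, ?_⟩
        · apply Real.rpow_le_rpow_of_exponent_le (by linarith)
          exact mul_le_mul_of_nonneg_left hδδ hη.le
        · show (q : ℤ) ∣ ((x.toNat : ℕ) : ℤ) - b
          rw [hxn]
          exact p3
        · show (q : ℤ) < ((x.toNat : ℕ) : ℤ) - b
          rw [hxn]
          have e2 := hBX b hb
          have e3 := (abs_le.1 e2).2
          have e4 : (q : ℝ) < (x : ℝ) - b := by linarith
          exact_mod_cast e4
    · intro x hx y hy hxy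
      obtain ⟨q1, _⟩ := hx
      obtain ⟨q1', _⟩ := hy
      have hx0 : 0 < x := by
        have : (0:ℝ) < x := by linarith
        exact_mod_cast this
      have hy0 : 0 < y := by
        have : (0:ℝ) < y := by linarith
        exact_mod_cast this
      have : x.toNat = y.toNat := hxy
      omega
  refine le_trans ?_ (hmain.trans hinj)
  apply mul_le_mul_of_nonneg_left _ (by linarith)
  apply Real.exp_le_exp.2
  apply neg_le_neg
  apply Real.exp_le_exp.2
  have e1 : (64 + C₀) * A / η = 64 * (A / η) + C₀ * (A / η) := by ring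
  rw [e1]
  have : C₀ ≤ C₀ * (A / η) := le_mul_of_one_le_right hC₀ hAη
  linarith

end Pool.Agent.N837.LP
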