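import Pool.Agent.N837.LP.GenV

set_option autoImplicit false
set_option linter.unusedVariables false

/-! # Arbitrary sparse sets of shifts of any polynomial size; first elements of arbitrary sets -/

namespace Pool.Agent.N837.LP

open Finset Filter

open scoped Classical

/-- natural numbers of the parity of `r` in `(X, X + W]` such that every `|n - b|` is composite with
a prime factor at most `y` -/
def JW (X W y : ℝ) (r : ℤ) (B : Finset ℤ) : Set ℕ :=
  {n : ℕ | X < n ∧ (n : ℝ) ≤ X + W ∧ (n : ℤ) % 2 = r % 2 ∧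
    ∀ b ∈ B, ∃ q : ℕ, q.Prime ∧ (q : ℝ) ≤ y ∧ (q : ℤ) ∣ n - b ∧ (q : ℤ) < |(n : ℤ) - b|}

theorem JW_finite (X W y : ℝ) (r : ℤ) (B : Finset ℤ) : (JW X W y r B).Finite := by
  apply (Set.finite_Iic ⌊X + W⌋₊).subset
  intro a ha
  obtain ⟨_, h2, _⟩ := ha
  rw [Set.mem_Iic]
  exact Nat.le_floor h2

/-- arbitrary sets of at most `A log X` shifts `|b| ≤ X ^ E` -/
theorem genW (δ : ℝ) (hδ : 0 < δ) : ∃ C : ℝ, 0 < C ∧ ∀ A η E : ℝ, 1 ≤ A → 0 < η → η ≤ 1 → 1 ≤ E →
    ∃ X₀ : ℝ, ∀ X : ℝ, X₀ ≤ X → ∀ B : Finset ℤ, (B.card : ℝ) ≤ A * Real.log X →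
    (∀ b ∈ B, |(b : ℝ)| ≤ X ^ E) → ∀ r : ℤ,
    X ^ η * Real.exp (-Real.exp (C * A / η)) ≤ ((JW X (X ^ η) (X ^ (η * δ)) r B).ncard : ℝ) := by
  set δ' : ℝ := min δ (1 / 2) with hδ'def
  have hδ' : 0 < δ' := lt_min hδ (by norm_num)
  have hδδ : δ' ≤ δ := min_le_left _ _
  have hδ2 : δ' ≤ 1 / 2 := min_le_right _ _
  obtain ⟨C₀, hC₀, hG⟩ := genU δ' hδ'
  refine ⟨64 + C₀ + 1, by linarith, fun A η E hA hη hη1 hE => ?_⟩
  have hAη : 1 ≤ A / η := by
    rw [le_div_iff₀ hη]
    linarith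
  have hη2 : 1 ≤ E / η := by
    rw [le_div_iff₀ hη]
    linarith
  obtain ⟨X₀, hX₀⟩ := hG (A / η) (E / η) hAη hη2
  set κ : ℝ := Real.exp (-Real.exp (64 * (A / η) + C₀)) with hκ
  have hκ0 : 0 < κ := Real.exp_pos _
  have h2 : ∀ᶠ X : ℝ in atTop, max X₀ 1 ≤ X ^ η := (tendsto_rpow_atTop hη).eventually_ge_atTop _
  have h3 : ∀ᶠ X : ℝ in atTop, Real.log X * (6 * A / κ) ≤ X ^ (η / 2) := by
    have h0 := (isLittleO_log_rpow_atTop (half_pos hη)).bound
      (show (0:ℝ) < 1 / (6 * A / κ) by positivity)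
    filter_upwards [h0, eventually_ge_atTop 1] with X hX hX1
    rw [Real.norm_of_nonneg (Real.log_nonneg hX1), Real.norm_of_nonneg (by positivity),
      one_div, ← div_eq_inv_mul, le_div_iff₀ (by positivity)] at hX
    exact hX
  obtain ⟨X₁, hX₁⟩ := Filter.eventually_atTop.1 (h2.and (h3.and (eventually_ge_atTop 4)))
  refine ⟨X₁, fun X hX B hB hBX r => ?_⟩
  obtain ⟨g2, g3, g4⟩ := hX₁ X hX
  have hX0 : 0 < X := by linarith
  have hXη1 : 1 ≤ X ^ η := (le_max_right _ _).trans g2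
  have hlog : Real.log (X ^ η) = η * Real.log X := Real.log_rpow hX0 η
  have hlog0 : 0 ≤ Real.log X := Real.log_nonneg (by linarith)
  have hmain := hX₀ (X ^ η) ((le_max_left _ _).trans g2) B
    (by
      rw [hlog]
      have : A / η * (η * Real.log X) = A * Real.log X := by field_simp
      rw [this]
      exact hB)
    (fun b hb => by
      have e1 : (X ^ η) ^ (E / η) = X ^ E := by
        rw [← Real.rpow_mul hX0.le, mul_div_cancel₀ _ hη.ne']
      rw [e1]
      exact hBX b hb)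
    r X
  set y : ℝ := (X ^ η) ^ δ' with hy
  have hy1 : 1 ≤ y := Real.one_le_rpow hXη1 hδ'.le
  have hyη : y ≤ X ^ (η / 2) := by
    rw [hy, ← Real.rpow_mul hX0.le]
    apply Real.rpow_le_rpow_of_exponent_le (by linarith)
    nlinarith
  -- the bad integers
  set Bad : Finset ℤ := B.biUnion (fun b => Finset.Icc (b - ⌊y⌋) (b + ⌊y⌋)) with hBad
  have hBadc : (Bad.card : ℝ) ≤ A * Real.log X * (3 * y) := by
    have e1 : Bad.card ≤ ∑ b ∈ B, (Finset.Icc (b - ⌊y⌋) (b + ⌊y⌋)).card := Finset.card_biUnion_le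
    have e2 : ((∑ b ∈ B, (Finset.Icc (b - ⌊y⌋) (b + ⌊y⌋)).card : ℕ) : ℝ) ≤ ∑ b ∈ B, (3 * y) := by
      rw [Nat.cast_sum]
      apply Finset.sum_le_sum
      intro b _
      rw [Int.card_Icc]
      have e3 : (0:ℤ) ≤ b + ⌊y⌋ + 1 - (b - ⌊y⌋) := by
        have : (0:ℤ) ≤ ⌊y⌋ := Int.floor_nonneg.2 (by linarith)
        linarith
      have e4 : (((b + ⌊y⌋ + 1 - (b - ⌊y⌋)).toNat : ℕ) : ℝ) =
          ((b + ⌊y⌋ + 1 - (b - ⌊y⌋) : ℤ) : ℝ) := by
        exact_mod_cast Int.toNat_of_nonneg e3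
      rw [e4]
      push_cast
      have := Int.floor_le y
      linarith
    calc (Bad.card : ℝ) ≤ ((∑ b ∈ B, (Finset.Icc (b - ⌊y⌋) (b + ⌊y⌋)).card : ℕ) : ℝ) := by
          exact_mod_cast e1
      _ ≤ _ := e2
      _ = B.card * (3 * y) := by rw [Finset.sum_const, nsmul_eq_mul]
      _ ≤ _ := mul_le_mul_of_nonneg_right hB (by positivity)
  have hinj : ((JU X (X ^ η) y r B \ (Bad : Set ℤ)).ncard : ℝ) ≤
      ((JW X (X ^ η) (X ^ (η * δ)) r B).ncard : ℝ) := by
    refine Nat.cast_le.2 (Set.ncard_le_ncard_of_injOn (fun x : ℤ => x.toNat) ?_ ?_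
      (JW_finite _ _ _ _ _))
    · intro x hx
      obtain ⟨⟨q1, q2, q3, q4⟩, hbad⟩ := hx
      have hx0 : 0 < x := by
        have : (0:ℝ) < x := by linarith
        exact_mod_cast this
      have hxn : ((x.toNat : ℕ) : ℤ) = x := Int.toNat_of_nonneg hx0.le
      have hxr : ((x.toNat : ℕ) : ℝ) = x := by exact_mod_cast hxn
      refine ⟨?_, ?_, ?_, ?_⟩
      · show X < ((x.toNat : ℕ) : ℝ)
        rw [hxr]
        exact q1
      · show ((x.toNat : ℕ) : ℝ) ≤ X + X ^ η
        rw [hxr]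
        exact q2
      · show ((x.toNat : ℕ) : ℤ) % 2 = r % 2
        rw [hxn]
        exact q3
      · intro b hb
        obtain ⟨q, p1, p2, p3⟩ := q4 b hb
        have e1 : (q : ℝ) ≤ X ^ (η * δ') := by
          rw [Real.rpow_mul hX0.le]
          exact p2
        refine ⟨q, p1, e1.trans ?_, ?_, ?_⟩
        · apply Real.rpow_le_rpow_of_exponent_le (by linarith)
          exact mul_le_mul_of_nonneg_left hδδ hη.le
        · show (q : ℤ) ∣ ((x.toNat : ℕ) : ℤ) - b
          rw [hxn]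
          exact p3
        · show (q : ℤ) < |((x.toNat : ℕ) : ℤ) - b|
          rw [hxn]
          by_contra hcon
          push Not at hcon
          apply hbad
          rw [Finset.mem_coe, hBad, Finset.mem_biUnion]
          have hqy : (q : ℤ) ≤ ⌊y⌋ := by
            rw [Int.le_floor]
            exact_mod_cast p2
          have h5 := abs_le.1 (hcon.trans hqy)
          refine ⟨b, hb, ?_⟩
          rw [Finset.mem_Icc]
          constructor <;> linarith [h5.1, h5.2]
    · intro x hx y hy hxy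
      obtain ⟨⟨q1, _⟩, _⟩ := hx
      obtain ⟨⟨q1', _⟩, _⟩ := hy
      have hx0 : 0 < x := by
        have : (0:ℝ) < x := by linarith
        exact_mod_cast this
      have hy0 : 0 < y := by
        have : (0:ℝ) < y := by linarith
        exact_mod_cast this
      have : x.toNat = y.toNat := hxy
      omega
  have hdiff : ((JU X (X ^ η) y r B).ncard : ℝ) - Bad.card ≤
      ((JU X (X ^ η) y r B \ (Bad : Set ℤ)).ncard : ℝ) := by
    have e1 := Set.ncard_le_ncard_sdiff_add_ncard (JU X (X ^ η) y r B) (Bad : Set ℤ)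
      (Finset.finite_toSet _)
    rw [Set.ncard_coe_finset] at e1
    have e2 : ((JU X (X ^ η) y r B).ncard : ℝ) ≤
        ((JU X (X ^ η) y r B \ (Bad : Set ℤ)).ncard : ℝ) + (Bad.card : ℝ) := by exact_mod_cast e1
    linarith
  have hhalf : (Bad.card : ℝ) ≤ X ^ η * κ / 2 := by
    refine hBadc.trans ?_
    have e1 : A * Real.log X * (3 * y) ≤ A * Real.log X * (3 * X ^ (η / 2)) := by
      apply mul_le_mul_of_nonneg_left _ (by positivity)
      linarith
    refine e1.trans ?_
    have e2 : X ^ η = X ^ (η / 2) * X ^ (η / 2) := by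
      rw [← Real.rpow_add hX0]
      ring_nf
    rw [e2]
    have e3 : Real.log X * (6 * A) ≤ X ^ (η / 2) * κ := by
      have : Real.log X * (6 * A / κ) * κ ≤ X ^ (η / 2) * κ :=
        mul_le_mul_of_nonneg_right g3 hκ0.le
      have e4 : Real.log X * (6 * A / κ) * κ = Real.log X * (6 * A) := by field_simp
      rwa [e4] at this
    have e5 : 0 ≤ X ^ (η / 2) := by positivity
    nlinarith [mul_le_mul_of_nonneg_left e3 e5]
  have hfin : X ^ η * κ / 2 ≤ ((JW X (X ^ η) (X ^ (η * δ)) r B).ncard : ℝ) := by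
    linarith
  refine le_trans ?_ hfin
  have e1 : X ^ η * κ / 2 = X ^ η * (κ * (1 / 2)) := by ring
  rw [e1]
  apply mul_le_mul_of_nonneg_left _ (by linarith)
  have e3 : Real.exp (-1) ≤ 1 / 2 := by
    rw [Real.exp_neg, one_div]
    have a1 : 2 ≤ Real.exp 1 := by
      have := Real.add_one_le_exp (1:ℝ)
      linarith
    exact inv_anti₀ (by norm_num) a1
  refine le_trans ?_ (mul_le_mul_of_nonneg_left e3 hκ0.le)
  rw [hκ, ← Real.exp_add]
  apply Real.exp_le_exp.2
  have e4 : (64 + C₀ + 1) * A / η = 64 * (A / η) + C₀ * (A / η) + A / η := by ring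
  have e5 : C₀ ≤ C₀ * (A / η) := le_mul_of_one_le_right hC₀ hAη
  have e6 : Real.exp (64 * (A / η) + C₀) + 1 ≤ Real.exp ((64 + C₀ + 1) * A / η) := by
    have e7 : Real.exp (64 * (A / η) + C₀ + 1) ≤ Real.exp ((64 + C₀ + 1) * A / η) := by
      apply Real.exp_le_exp.2
      rw [e4]
      linarith
    refine le_trans ?_ e7
    rw [Real.exp_add _ 1]
    have a1 : 2 ≤ Real.exp 1 := by
      have := Real.add_one_le_exp (1:ℝ)
      linarith
    have a2 : 1 ≤ Real.exp (64 * (A / η) + C₀) := by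
      apply Real.one_le_exp
      have : 0 ≤ A / η := by linarith
      linarith
    nlinarith
  linarith

/-- the first elements of an arbitrary set -/
theorem genFirst (δ : ℝ) (hδ : 0 < δ) : ∃ C : ℝ, 0 < C ∧ ∀ A η : ℝ, 1 ≤ A → 0 < η → η ≤ 1 →
    ∃ X₀ : ℝ, ∀ X : ℝ, X₀ ≤ X → ∀ (T : ℕ → Prop) (r : ℤ),
    X ^ η * Real.exp (-Real.exp (C * A / η)) ≤
      (({n : ℕ | X < n ∧ (n : ℝ) ≤ X + X ^ η ∧ (n : ℤ) % 2 = r % 2 ∧
        ∀ s : ℕ, T s → s < n → (((Finset.range s).filter T).card : ℝ) ≤ A * Real.log X →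
          ∃ q : ℕ, q.Prime ∧ (q : ℝ) ≤ X ^ (η * δ) ∧ q ∣ n - s ∧ q < n - s}).ncard : ℝ) := by
  obtain ⟨C, hC, h⟩ := genW δ hδ
  refine ⟨2 * C, by positivity, fun A η hA hη hη1 => ?_⟩
  obtain ⟨X₀, hX₀⟩ := h (2 * A) η 2 (by linarith) hη hη1 (by norm_num)
  refine ⟨max X₀ 4, fun X hX T r => ?_⟩
  have hX4 : 4 ≤ X := (le_max_right _ _).trans hX
  have hX0 : 0 < X := by linarith
  have hXη : X ^ η ≤ X := by
    calc X ^ η ≤ X ^ (1:ℝ) := Real.rpow_le_rpow_of_exponent_le (by linarith) hη1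
      _ = X := Real.rpow_one X
  have hL : 1 ≤ Real.log X := by
    rw [Real.le_log_iff_exp_le hX0]
    have := Real.exp_one_lt_d9
    linarith
  set S : Finset ℕ := (Finset.range (⌊2 * X⌋₊ + 1)).filter
    (fun s => T s ∧ (((Finset.range s).filter T).card : ℝ) ≤ A * Real.log X) with hS
  have hScard : (S.card : ℝ) ≤ 2 * A * Real.log X := by
    have e1 : S.card ≤ (Finset.range (⌊A * Real.log X⌋₊ + 1)).card := by
      apply Finset.card_le_card_of_injOn (fun s => ((Finset.range s).filter T).card)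
      · intro s hs
        rw [Finset.mem_coe, hS, Finset.mem_filter] at hs
        rw [Finset.mem_coe, Finset.mem_range]
        exact Nat.lt_succ_of_le (Nat.le_floor hs.2.2)
      · intro s hs t ht hst
        rw [Finset.mem_coe, hS, Finset.mem_filter] at hs ht
        have key : ∀ a b : ℕ, T a → a < b →
            ((Finset.range a).filter T).card < ((Finset.range b).filter T).card := by
          intro a b ha hab
          apply Finset.card_lt_card
          rw [Finset.ssubset_iff_of_subset]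
          · refine ⟨a, ?_, ?_⟩
            · rw [Finset.mem_filter, Finset.mem_range]
              exact ⟨hab, ha⟩
            · rw [Finset.mem_filter, Finset.mem_range]
              intro h
              omega
          · intro x hx
            rw [Finset.mem_filter, Finset.mem_range] at hx ⊢
            exact ⟨by omega, hx.2⟩
        rcases lt_trichotomy s t with h1 | h1 | h1
        · have := key s t hs.2.1 h1
          simp only at hst
          omega
        · exact h1
        · have := key t s ht.2.1 h1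
          simp only at hst
          omega
    rw [Finset.card_range] at e1
    have e2 : (S.card : ℝ) ≤ (⌊A * Real.log X⌋₊ : ℝ) + 1 := by exact_mod_cast e1
    have e3 : (⌊A * Real.log X⌋₊ : ℝ) ≤ A * Real.log X := Nat.floor_le (by positivity)
    have e4 : 1 ≤ A * Real.log X := by nlinarith
    linarith
  have h1 := hX₀ X ((le_max_left _ _).trans hX) (S.image (fun s : ℕ => (s : ℤ)))
    (le_trans (by exact_mod_cast Finset.card_image_le) hScard)
    (by
      intro b hb
      rw [Finset.mem_image] at hb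
      obtain ⟨m, hm, rfl⟩ := hb
      rw [hS, Finset.mem_filter, Finset.mem_range] at hm
      have e1 : (m : ℝ) ≤ 2 * X := by
        have : m ≤ ⌊2 * X⌋₊ := by omega
        calc (m : ℝ) ≤ (⌊2 * X⌋₊ : ℝ) := by exact_mod_cast this
          _ ≤ 2 * X := Nat.floor_le (by positivity)
      push_cast
      rw [abs_of_nonneg (by positivity)]
      have e2 : X ^ (2:ℝ) = X * X := by
        rw [show (2:ℝ) = ((2:ℕ):ℝ) by norm_num, Real.rpow_natCast]
        ring
      rw [e2]
      nlinarith)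
    r
  have h2 : C * (2 * A) / η = 2 * C * A / η := by ring
  rw [h2] at h1
  refine h1.trans (Nat.cast_le.2 (Set.ncard_le_ncard ?_ ?_))
  · intro n hn
    obtain ⟨q1, q2, q3, q4⟩ := hn
    refine ⟨q1, q2, q3, fun s hs hsn hc => ?_⟩
    have hsS : s ∈ S := by
      rw [hS, Finset.mem_filter, Finset.mem_range]
      refine ⟨?_, hs, hc⟩
      have e1 : (s : ℝ) ≤ 2 * X := by
        have : (s : ℝ) < n := by exact_mod_cast hsn
        linarith
      have := Nat.le_floor e1
      omega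
    obtain ⟨q, p1, p2, p3, p4⟩ := q4 _ (Finset.mem_image_of_mem _ hsS)
    have e1 : ((n - s : ℕ) : ℤ) = (n : ℤ) - (s : ℤ) := by
      rw [Nat.cast_sub hsn.le]
    rw [← e1] at p3 p4
    refine ⟨q, p1, p2, by exact_mod_cast p3, ?_⟩
    rw [abs_of_nonneg (by positivity)] at p4
    exact_mod_cast p4
  · apply (Set.finite_Iic ⌊X + X ^ η⌋₊).subset
    intro a ha
    obtain ⟨_, h2, _⟩ := ha
    rw [Set.mem_Iic]
    exact Nat.le_floor h2

end Pool.Agent.N837.LP
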